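import Mathlib
import Pool.Agent.Helper617.RM.HLDefs
import Pool.Agent.Helper617.RM.Sanity

/-!
Halin-type ray theorems and the system `Σ¹₁-AC₀`, for structures for second-order arithmetic
(Henkin semantics).
-/

namespace Pool.Agent.Y579.HR

open Pool.Agent.Helper617.RM

universe u

variable (N : L2Structure.{u})

/-- The `i`-th set `{x | (i, x) ∈ S}` of the sequence of sets coded by `S`. -/
def sec (S : Set N.M) (i : N.M) : Set N.M := {x | N.pair i x ∈ S}

/-- `(V, E)` is a `D`-graph: `E` is a set of (codes of) ordered pairs of distinct elements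
of `V`. -/
structure IsDGraph (V E : Set N.M) : Prop where
  vmem : V ∈ N.Sets
  emem : E ∈ N.Sets
  edge : ∀ e ∈ E, ∃ u v, u ∈ V ∧ v ∈ V ∧ u ≠ v ∧ e = N.pair u v

/-- `(V, E)` is a `U`-graph. An unordered pair is represented by the two ordered pairs of its
elements. -/
structure IsUGraph (V E : Set N.M) : Prop extends IsDGraph N V E where
  symm : ∀ u v, N.pair u v ∈ E → N.pair v u ∈ E

/-- `(V', E')` is a subgraph of the `D`-graph `(V, E)` and `f` is an isomorphism onto it from the
`D`-graph with vertex set `N` and edges `(n, n+1)`: `(V', E')` is a `D`-ray in `(V, E)`. -/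
structure IsDRay (V E V' E' : Set N.M) (f : N.M → N.M) : Prop where
  graph : IsDGraph N V' E'
  vsub : V' ⊆ V
  esub : E' ⊆ E
  maps : ∀ n, f n ∈ V'
  surj : ∀ v ∈ V', ∃ n, f n = v
  inj : ∀ n m, f n = f m → n = m
  adj : ∀ n m, N.pair (f n) (f m) ∈ E' ↔ m = N.add n N.one

/-- `(V', E')` is a subgraph of the `U`-graph `(V, E)` and `f` is an isomorphism onto it from the
`U`-graph with vertex set `N` and edges `{n, n+1}`: `(V', E')` is a `U`-ray in `(V, E)`. -/
structure IsURay (V E V' E' : Set N.M) (f : N.M → N.M) : Prop where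
  graph : IsUGraph N V' E'
  vsub : V' ⊆ V
  esub : E' ⊆ E
  maps : ∀ n, f n ∈ V'
  surj : ∀ v ∈ V', ∃ n, f n = v
  inj : ∀ n m, f n = f m → n = m
  adj : ∀ n m, N.pair (f n) (f m) ∈ E' ↔ (m = N.add n N.one ∨ n = N.add m N.one)

/-- The structure contains a sequence `⟨(V_i, E_i), f_i⟩` (with `i` ranging over the numbers that
satisfy `idx`) of pairwise vertex-disjoint rays. Here `IsRay V' E' f` says that `(V', E')` is a ray
with isomorphism `f`. The sequence is coded by three sets of the structure. -/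
def DisjointRays (IsRay : Set N.M → Set N.M → (N.M → N.M) → Prop) (idx : N.M → Prop) : Prop :=
  ∃ VV ∈ N.Sets, ∃ EE ∈ N.Sets, ∃ FF ∈ N.Sets, ∃ f : N.M → N.M → N.M,
    (∀ i, idx i → ∀ n v, N.pair i (N.pair n v) ∈ FF ↔ v = f i n) ∧
    (∀ i, idx i → IsRay (sec N VV i) (sec N EE i) (f i)) ∧
    ∀ i j, idx i → idx j → i ≠ j → Disjoint (sec N VV i) (sec N VV j)

/-- The principle `IRT_UVS`. -/
def IRT_UVS : Prop :=
  ∀ V E : Set N.M, IsUGraph N V E →
    (∀ k, DisjointRays N (IsURay N V E) (fun i => N.lt i k)) →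
      DisjointRays N (IsURay N V E) (fun _ => True)

/-- The principle `IRT_DVS`. -/
def IRT_DVS : Prop :=
  ∀ V E : Set N.M, IsDGraph N V E →
    (∀ k, DisjointRays N (IsDRay N V E) (fun i => N.lt i k)) →
      DisjointRays N (IsDRay N V E) (fun _ => True)

/-- Arithmetical formulas with number and set parameters from the structure and with free set
variables (`memV t i` is `t ∈ Xᵢ`), in de Bruijn form: `all φ` is `∀ x, φ`, where `x` is the
variable `0` of `φ` and the variable `i` of `all φ` is the variable `i + 1` of `φ`. -/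
inductive SForm (N : L2Structure.{u}) : Type u
  | eq (s t : Term N) : SForm N
  | lt (s t : Term N) : SForm N
  | mem (t : Term N) (X : N.Sets) : SForm N
  | memV (t : Term N) (i : ℕ) : SForm N
  | neg (φ : SForm N) : SForm N
  | and (φ ψ : SForm N) : SForm N
  | all (φ : SForm N) : SForm N

/-- Truth of a formula in the structure under an assignment `Y` of the set variables and an
assignment `v` of the number variables. -/
def SForm.Holds {N : L2Structure.{u}} (Y : ℕ → Set N.M) : SForm N → (ℕ → N.M) → Prop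
  | .eq s t, v => s.val v = t.val v
  | .lt s t, v => N.lt (s.val v) (t.val v)
  | .mem t X, v => t.val v ∈ (X : Set N.M)
  | .memV t i, v => t.val v ∈ Y i
  | .neg φ, v => ¬ φ.Holds Y v
  | .and φ ψ, v => φ.Holds Y v ∧ ψ.Holds Y v
  | .all φ, v => ∀ a, φ.Holds Y (cons a v)

/-- The assignment `X₀ = X`, `Xᵢ = Z` for `i > 0`. -/
def setAsg {α : Type u} (X Z : Set α) : ℕ → Set α
  | 0 => X
  | _ + 1 => Z

/-- The scheme of `Σ¹₁` choice: for every arithmetical formula `φ(n, X, Z)` with parameters, if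
for every `n` there is `X` with `∃ Z φ(n, X, Z)`, then there is `Y` such that for every `n` we have
`∃ Z φ(n, Yₙ, Z)`. -/
def Sigma11Choice : Prop :=
  ∀ (φ : SForm N) (v : ℕ → N.M),
    (∀ n, ∃ X ∈ N.Sets, ∃ Z ∈ N.Sets, φ.Holds (setAsg X Z) (cons n v)) →
      ∃ Y ∈ N.Sets, ∀ n, ∃ Z ∈ N.Sets, φ.Holds (setAsg (sec N Y n) Z) (cons n v)

/-- `N` is a model of `Σ¹₁-AC₀`. -/
structure IsModelSigma11AC0 : Prop where
  rca : IsModelRCA0 N
  aca : ArithComp N
  choice : Sigma11Choice N

end Pool.Agent.Y579.HR
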