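import Mathlib
import Pool.Agent.Helper617.RM.HLDefs
import Pool.Agent.Helper617.RM.Sanity

/-!
A hierarchy `U 0, U 1, …` of sets of natural numbers. The class `Ar` of all sections of these
sets is closed under the operations of first-order logic and under recursion.
-/

namespace Pool.Agent.Y579.HR

open Pool.Agent.Helper617.RM

universe u

/-- The operation that leads from one stage of the hierarchy to the next one, inside any structure
for second-order arithmetic. -/
def JN (N : L2Structure.{u}) (Y : Set N.M) : Set N.M :=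
  {x | ∃ t e1 e2 z, x = N.pair (N.pair t (N.pair e1 e2)) z ∧
    ((t = N.zero ∧ N.pair e1 z ∉ Y) ∨
     (t = N.one ∧ N.pair e1 z ∈ Y ∧ N.pair e2 z ∈ Y) ∨
     (t = N.add N.one N.one ∧ ∃ y, N.pair e1 (N.pair z y) ∈ Y) ∨
     (t = N.add (N.add N.one N.one) N.one ∧ ∃ a y, z = N.pair a y ∧ N.pair e1 y ∈ Y) ∨
     (t = N.add (N.add (N.add N.one N.one) N.one) N.one ∧ z ∈ Y) ∨
     (t = N.add (N.add (N.add (N.add N.one N.one) N.one) N.one) N.one ∧
       N.pair e1 (N.pair e2 z) ∈ Y))}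

/-- The pairing function `(a + b)² + a` on the natural numbers. -/
def pr (a b : ℕ) : ℕ := (a + b) * (a + b) + a

theorem pr_inj {a b c d : ℕ} (h : pr a b = pr c d) : a = c ∧ b = d := by
  unfold pr at h
  have key : a + b = c + d := by
    rcases lt_trichotomy (a + b) (c + d) with hlt | heq | hgt
    · exfalso
      have h1 : (a + b + 1) * (a + b + 1) ≤ (c + d) * (c + d) := Nat.mul_le_mul hlt hlt
      nlinarith
    · exact heq
    · exfalso
      have h1 : (c + d + 1) * (c + d + 1) ≤ (a + b) * (a + b) := Nat.mul_le_mul hgt hgt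
      nlinarith
  rw [key] at h
  have h2 : a = c := by omega
  subst h2
  exact ⟨rfl, by omega⟩

theorem pr_eq {a b c d : ℕ} : pr a b = pr c d ↔ a = c ∧ b = d :=
  ⟨pr_inj, fun h => by rw [h.1, h.2]⟩

/-- the standard version of the operation -/
def J (Y : Set ℕ) : Set ℕ :=
  {x | ∃ t e1 e2 z, x = pr (pr t (pr e1 e2)) z ∧
    ((t = 0 ∧ pr e1 z ∉ Y) ∨
     (t = 1 ∧ pr e1 z ∈ Y ∧ pr e2 z ∈ Y) ∨
     (t = 1 + 1 ∧ ∃ y, pr e1 (pr z y) ∈ Y) ∨
     (t = 1 + 1 + 1 ∧ ∃ a y, z = pr a y ∧ pr e1 y ∈ Y) ∨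
     (t = 1 + 1 + 1 + 1 ∧ z ∈ Y) ∨
     (t = 1 + 1 + 1 + 1 + 1 ∧ pr e1 (pr e2 z) ∈ Y))}

theorem JN_full (Y : Set ℕ) : JN fullModel Y = J Y := rfl

theorem mem_J {Y : Set ℕ} {t e1 e2 z : ℕ} : pr (pr t (pr e1 e2)) z ∈ J Y ↔
    ((t = 0 ∧ pr e1 z ∉ Y) ∨
     (t = 1 ∧ pr e1 z ∈ Y ∧ pr e2 z ∈ Y) ∨
     (t = 2 ∧ ∃ y, pr e1 (pr z y) ∈ Y) ∨
     (t = 3 ∧ ∃ a y, z = pr a y ∧ pr e1 y ∈ Y) ∨
     (t = 4 ∧ z ∈ Y) ∨
     (t = 5 ∧ pr e1 (pr e2 z) ∈ Y)) := by
  constructor
  · rintro ⟨t', f1, f2, z', h, h'⟩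
    obtain ⟨h1, rfl⟩ := pr_inj h
    obtain ⟨rfl, h2⟩ := pr_inj h1
    obtain ⟨rfl, rfl⟩ := pr_inj h2
    exact h'
  · intro h
    exact ⟨t, e1, e2, z, rfl, h⟩

theorem countable_primrec : {S : Set ℕ | ∃ f : ℕ → ℕ, Nat.Primrec f ∧ S = {z | f z = 0}}.Countable := by
  have h1 : {f : ℕ → ℕ | Nat.Primrec f}.Countable := by
    have h : ∀ f : {f : ℕ → ℕ // Nat.Primrec f}, ∃ c : Nat.Partrec.Code, c.eval = (f.1 : ℕ →. ℕ) :=
      fun f => (Nat.Partrec.Code.exists_code).1 (Nat.Partrec.of_primrec f.2)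
    choose g hg using h
    have hinj : Function.Injective g := by
      intro a b hab
      have h2 : (a.1 : ℕ →. ℕ) = (b.1 : ℕ →. ℕ) := by rw [← hg a, ← hg b, hab]
      apply Subtype.ext
      funext n
      have h3 := congrFun h2 n
      simpa using h3
    exact (Set.countable_coe_iff).1 hinj.countable
  refine (h1.image (fun f => {z | f z = 0})).mono ?_
  rintro S ⟨f, hf, rfl⟩
  exact ⟨f, hf, rfl⟩

theorem exists_enum : ∃ S : ℕ → Set ℕ,
    ∀ T : Set ℕ, (∃ n, S n = T) ↔ ∃ f : ℕ → ℕ, Nat.Primrec f ∧ T = {z | f z = 0} := by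
  obtain ⟨S, hS⟩ := countable_primrec.exists_eq_range ⟨{z | (0 : ℕ) = 0}, fun _ => 0,
    Nat.Primrec.zero, rfl⟩
  refine ⟨S, fun T => ?_⟩
  have : T ∈ {S : Set ℕ | ∃ f : ℕ → ℕ, Nat.Primrec f ∧ S = {z | f z = 0}} ↔ T ∈ Set.range S := by
    rw [hS]
  exact this.symm

/-- an enumeration of the primitive recursive sets -/
noncomputable def S0 : ℕ → Set ℕ := exists_enum.choose

theorem S0_spec (T : Set ℕ) : (∃ n, S0 n = T) ↔ ∃ f : ℕ → ℕ, Nat.Primrec f ∧ T = {z | f z = 0} :=
  exists_enum.choose_spec T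

/-- the hierarchy -/
noncomputable def U : ℕ → Set ℕ
  | 0 => {x | ∃ e z, x = pr e z ∧ z ∈ S0 e}
  | j + 1 => J (U j)

theorem mem_U0 {e z : ℕ} : pr e z ∈ U 0 ↔ z ∈ S0 e := by
  constructor
  · rintro ⟨e', z', h, h'⟩
    obtain ⟨rfl, rfl⟩ := pr_inj h
    exact h'
  · intro h
    exact ⟨e, z, rfl, h⟩

/-- the class of all sections of the sets of the hierarchy -/
def Ar (A : Set ℕ) : Prop := ∃ j e, ∀ z, z ∈ A ↔ pr e z ∈ U j

theorem Ar.of_primrec {f : ℕ → ℕ} (hf : Primrec f) : Ar {z | f z = 0} := by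
  obtain ⟨e, he⟩ := (S0_spec {z | f z = 0}).2 ⟨f, Primrec.nat_iff.1 hf, rfl⟩
  exact ⟨0, e, fun z => by rw [mem_U0, he]⟩

theorem lift_one {j e : ℕ} : ∃ e', ∀ z, pr e z ∈ U j ↔ pr e' z ∈ U (j + 1) := by
  refine ⟨pr 1 (pr e e), fun z => ?_⟩
  rw [U, mem_J]
  constructor
  · intro h
    right; left
    exact ⟨rfl, h, h⟩
  · intro h
    rcases h with ⟨h, _⟩ | ⟨_, h, _⟩ | ⟨h, _⟩ | ⟨h, _⟩ | ⟨h, _⟩ | ⟨h, _⟩
    · omega
    · exact h
    all_goals omega

theorem lift_le {j k : ℕ} (h : j ≤ k) (e : ℕ) : ∃ e', ∀ z, pr e z ∈ U j ↔ pr e' z ∈ U k := by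
  induction k, h using Nat.le_induction with
  | base => exact ⟨e, fun z => Iff.rfl⟩
  | succ k hk ih =>
    obtain ⟨e', he'⟩ := ih
    obtain ⟨e'', he''⟩ := lift_one (j := k) (e := e')
    exact ⟨e'', fun z => (he' z).trans (he'' z)⟩

theorem Ar.congr {A B : Set ℕ} (hA : Ar A) (h : ∀ z, z ∈ B ↔ z ∈ A) : Ar B := by
  obtain ⟨j, e, he⟩ := hA
  exact ⟨j, e, fun z => (h z).trans (he z)⟩

theorem Ar.compl {A : Set ℕ} (hA : Ar A) : Ar {z | z ∉ A} := by
  obtain ⟨j, e, he⟩ := hA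
  refine ⟨j + 1, pr 0 (pr e e), fun z => ?_⟩
  rw [U, mem_J]
  simp [he]

theorem Ar.inter {A B : Set ℕ} (hA : Ar A) (hB : Ar B) : Ar {z | z ∈ A ∧ z ∈ B} := by
  obtain ⟨j, e, he⟩ := hA
  obtain ⟨k, f, hf⟩ := hB
  obtain ⟨e', he'⟩ := lift_le (le_max_left j k) e
  obtain ⟨f', hf'⟩ := lift_le (le_max_right j k) f
  refine ⟨max j k + 1, pr 1 (pr e' f'), fun z => ?_⟩
  rw [U, mem_J]
  simp [he, hf, he', hf']

theorem Ar.proj {A : Set ℕ} (hA : Ar A) : Ar {z | ∃ y, pr z y ∈ A} := by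
  obtain ⟨j, e, he⟩ := hA
  refine ⟨j + 1, pr 2 (pr e e), fun z => ?_⟩
  rw [U, mem_J]
  simp [he]

theorem Ar.snd {A : Set ℕ} (hA : Ar A) : Ar {z | ∃ a y, z = pr a y ∧ y ∈ A} := by
  obtain ⟨j, e, he⟩ := hA
  refine ⟨j + 1, pr 3 (pr e e), fun z => ?_⟩
  rw [U, mem_J]
  simp [he]

theorem Ar.stage (j : ℕ) : Ar (U j) := by
  refine ⟨j + 1, pr 4 (pr 0 0), fun z => ?_⟩
  rw [U, mem_J]
  simp

/-- first and second components -/
def fst' (x : ℕ) : ℕ := x - x.sqrt * x.sqrt

def snd' (x : ℕ) : ℕ := x.sqrt - fst' x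

theorem sqrt_pr (a b : ℕ) : (pr a b).sqrt = a + b := by
  unfold pr
  exact Nat.sqrt_add_eq _ (by omega)

theorem fst'_pr (a b : ℕ) : fst' (pr a b) = a := by
  unfold fst'
  rw [sqrt_pr]
  unfold pr
  omega

theorem snd'_pr (a b : ℕ) : snd' (pr a b) = b := by
  unfold snd'
  rw [fst'_pr, sqrt_pr]
  omega

theorem primrec_sqrt : Primrec Nat.sqrt :=
  Nat.Primrec'.prim_iff₁.1 Nat.Primrec'.sqrt

theorem primrec_pr : Primrec₂ pr :=
  Primrec.nat_add.comp
    (Primrec.nat_mul.comp (Primrec.nat_add.comp Primrec.fst Primrec.snd)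
      (Primrec.nat_add.comp Primrec.fst Primrec.snd)) Primrec.fst

theorem primrec_fst' : Primrec fst' :=
  Primrec.nat_sub.comp Primrec.id (Primrec.nat_mul.comp primrec_sqrt primrec_sqrt)

theorem primrec_snd' : Primrec snd' :=
  Primrec.nat_sub.comp primrec_sqrt primrec_fst'

theorem Ar.of_pred {p : ℕ → Prop} (hp : PrimrecPred p) : Ar {z | p z} := by
  classical
  obtain ⟨hd, hp⟩ := hp
  have h1 : Primrec (fun z => if p z then 0 else 1) :=
    Primrec.ite ⟨hd, hp⟩ (Primrec.const 0) (Primrec.const 1)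
  refine (Ar.of_primrec h1).congr fun z => ?_
  simp only [Set.mem_ofPred_eq]
  by_cases h : p z <;> simp [h]

theorem Ar.comp {A : Set ℕ} (hA : Ar A) {f : ℕ → ℕ} (hf : Primrec f) : Ar {z | f z ∈ A} := by
  have h1 : Ar {x | pr (fst' x) (snd' x) = x ∧ snd' x = f (fst' x)} := by
    apply Ar.of_pred
    exact PrimrecPred.and
      (Primrec.eq.comp (primrec_pr.comp primrec_fst' primrec_snd') Primrec.id)
      (Primrec.eq.comp primrec_snd' (hf.comp primrec_fst'))
  refine ((h1.inter hA.snd).proj).congr fun z => ?_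
  simp only [Set.mem_ofPred_eq, fst'_pr, snd'_pr, true_and]
  constructor
  · intro h
    exact ⟨f z, rfl, z, f z, rfl, h⟩
  · rintro ⟨y, rfl, a, y', h, h'⟩
    rw [(pr_inj h).2]
    exact h'

/-- predicates on codable types which belong to the class -/
def ArP {α : Type*} [Primcodable α] (p : α → Prop) : Prop :=
  ∃ A, Ar A ∧ ∀ a, p a ↔ Encodable.encode a ∈ A

section

variable {α β γ σ : Type*} [Primcodable α] [Primcodable β] [Primcodable γ] [Primcodable σ]

theorem ArP.congr {p q : α → Prop} (hp : ArP p) (h : ∀ a, q a ↔ p a) : ArP q := by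
  obtain ⟨A, hA, h'⟩ := hp
  exact ⟨A, hA, fun a => (h a).trans (h' a)⟩

theorem ArP.not {p : α → Prop} (hp : ArP p) : ArP (fun a => ¬ p a) := by
  obtain ⟨A, hA, h'⟩ := hp
  exact ⟨_, hA.compl, fun a => not_congr (h' a)⟩

theorem ArP.and {p q : α → Prop} (hp : ArP p) (hq : ArP q) : ArP (fun a => p a ∧ q a) := by
  obtain ⟨A, hA, h⟩ := hp
  obtain ⟨B, hB, h'⟩ := hq
  exact ⟨_, hA.inter hB, fun a => and_congr (h a) (h' a)⟩

theorem ArP.or {p q : α → Prop} (hp : ArP p) (hq : ArP q) : ArP (fun a => p a ∨ q a) :=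
  (hp.not.and hq.not).not.congr fun a => by tauto

theorem ArP.imp {p q : α → Prop} (hp : ArP p) (hq : ArP q) : ArP (fun a => p a → q a) :=
  (hp.and hq.not).not.congr fun a => by tauto

theorem ArP.iff {p q : α → Prop} (hp : ArP p) (hq : ArP q) : ArP (fun a => p a ↔ q a) :=
  ((hp.imp hq).and (hq.imp hp)).congr fun a => by tauto

theorem ArP.subst {p : β → Prop} (hp : ArP p) {f : α → β} (hf : Primrec f) :
    ArP (fun a => p (f a)) := by
  obtain ⟨A, hA, h⟩ := hp
  have h1 : Primrec (fun n : ℕ => (Encodable.encode (((Encodable.decode n : Option α)).map f)).pred) :=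
    Primrec.pred.comp (Primrec.encode.comp (Primrec.option_map Primrec.decode (hf.comp Primrec.snd)))
  refine ⟨_, hA.comp h1, fun a => ?_⟩
  simp [h]

theorem ArP.of_primrec {p : α → Prop} (hp : PrimrecPred p) : ArP p := by
  classical
  obtain ⟨hd, hp⟩ := hp
  have h0 : ArP (fun b : Bool => b = true) := by
    refine ⟨{z | z = 1}, Ar.of_pred (Primrec.eq.comp Primrec.id (Primrec.const 1)), fun b => ?_⟩
    cases b <;> simp
  exact (h0.subst hp).congr fun a => by simp

theorem ArP.ex {p : α × β → Prop} (hp : ArP p) : ArP (fun a => ∃ b, p (a, b)) := by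
  obtain ⟨A, hA, h⟩ := hp
  let f : ℕ → ℕ := fun x => Encodable.encode
    ((Encodable.decode (snd' x) : Option β).map fun b => Nat.pair (fst' x) (Encodable.encode b))
  have hf : Primrec f := by
    refine Primrec.encode.comp (Primrec.option_map (Primrec.decode.comp primrec_snd') ?_)
    exact Primrec₂.natPair.comp (primrec_fst'.comp Primrec.fst) (Primrec.encode.comp Primrec.snd)
  have hB : Ar {x | f x ≠ 0 ∧ (f x).pred ∈ A} :=
    (Ar.of_pred (PrimrecPred.not (Primrec.eq.comp hf (Primrec.const 0)))).inter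
      (hA.comp (Primrec.pred.comp hf))
  refine ⟨_, hB.proj, fun a => ?_⟩
  simp only [Set.mem_ofPred_eq]
  constructor
  · rintro ⟨b, hb⟩
    refine ⟨Encodable.encode b, ?_⟩
    have : f (pr (Encodable.encode a) (Encodable.encode b)) =
        Nat.pair (Encodable.encode a) (Encodable.encode b) + 1 := by
      simp [f, fst'_pr, snd'_pr]
    rw [this]
    refine ⟨Nat.succ_ne_zero _, ?_⟩
    rw [h] at hb
    simpa using hb
  · rintro ⟨y, hy, hy'⟩
    cases hd : (Encodable.decode y : Option β) with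
    | none =>
      exact absurd (by simp [f, fst'_pr, snd'_pr, hd]) hy
    | some b =>
      refine ⟨b, ?_⟩
      rw [h]
      have : f (pr (Encodable.encode a) y) =
          Nat.pair (Encodable.encode a) (Encodable.encode b) + 1 := by
        simp [f, fst'_pr, snd'_pr, hd]
      rw [this] at hy'
      simpa using hy'

theorem ArP.all {p : α × β → Prop} (hp : ArP p) : ArP (fun a => ∀ b, p (a, b)) :=
  hp.not.ex.not.congr fun a => by simp

/-- functions whose graph belongs to the class -/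
def ArF (f : α → β) : Prop := ArP (fun x : α × β => f x.1 = x.2)

theorem ArF.congr {f g : α → β} (hf : ArF f) (h : ∀ a, g a = f a) : ArF g := by
  have : g = f := funext h
  rw [this]
  exact hf

theorem ArF.of_primrec {f : α → β} (hf : Primrec f) : ArF f := by
  exact ArP.of_primrec (Primrec.eq.comp (hf.comp Primrec.fst) Primrec.snd)

theorem ArP.comp {p : β → Prop} (hp : ArP p) {f : α → β} (hf : ArF f) :
    ArP (fun a => p (f a)) := by
  have h1 : ArP (fun x : α × β => f x.1 = x.2 ∧ p x.2) := hf.and (hp.subst Primrec.snd)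
  refine h1.ex.congr fun a => ?_
  constructor
  · intro h
    exact ⟨f a, rfl, h⟩
  · rintro ⟨b, hb, h⟩
    simp only at hb h
    rw [hb]
    exact h

theorem ArF.pair {f : α → β} {g : α → γ} (hf : ArF f) (hg : ArF g) :
    ArF (fun a => (f a, g a)) := by
  have h1 : ArP (fun x : α × (β × γ) => f x.1 = x.2.1 ∧ g x.1 = x.2.2) :=
    (hf.subst (f := fun x : α × (β × γ) => (x.1, x.2.1))
      (Primrec.fst.pair (Primrec.fst.comp Primrec.snd))).and
    (hg.subst (f := fun x : α × (β × γ) => (x.1, x.2.2))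
      (Primrec.fst.pair (Primrec.snd.comp Primrec.snd)))
  exact h1.congr fun x => by
    rw [Prod.ext_iff]

theorem ArF.comp {g : β → γ} {f : α → β} (hg : ArF g) (hf : ArF f) : ArF (fun a => g (f a)) := by
  have h1 : ArF (fun x : α × γ => (f x.1, x.2)) :=
    ArF.pair (by
      have := hf.subst (f := fun x : (α × γ) × β => (x.1.1, x.2))
        ((Primrec.fst.comp Primrec.fst).pair Primrec.snd)
      exact this) (ArF.of_primrec Primrec.snd)
  exact ArP.comp hg h1

theorem ArF.fst : ArF (Prod.fst : α × β → α) := ArF.of_primrec Primrec.fst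
theorem ArF.snd : ArF (Prod.snd : α × β → β) := ArF.of_primrec Primrec.snd
theorem ArF.const (b : β) : ArF (fun _ : α => b) := ArF.of_primrec (Primrec.const b)
theorem ArF.id : ArF (fun a : α => a) := ArF.of_primrec Primrec.id

theorem ArF.comp₂ {g : β → γ → σ} {f : α → β} {f' : α → γ} (hg : ArF (fun x : β × γ => g x.1 x.2))
    (hf : ArF f) (hf' : ArF f') : ArF (fun a => g (f a) (f' a)) :=
  ArF.comp (g := fun x : β × γ => g x.1 x.2) hg (hf.pair hf')

theorem ArF.prim₂ {g : β → γ → σ} {f : α → β} {f' : α → γ} (hg : Primrec₂ g)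
    (hf : ArF f) (hf' : ArF f') : ArF (fun a => g (f a) (f' a)) :=
  ArF.comp (g := fun x : β × γ => g x.1 x.2) (ArF.of_primrec hg) (hf.pair hf')

theorem ArF.prim {g : β → γ} {f : α → β} (hg : Primrec g)
    (hf : ArF f) : ArF (fun a => g (f a)) :=
  ArF.comp (ArF.of_primrec hg) hf

theorem ArP.eq {f g : α → β} (hf : ArF f) (hg : ArF g) : ArP (fun a => f a = g a) :=
  (ArP.of_primrec (p := fun x : β × β => x.1 = x.2)
    (Primrec.eq.comp Primrec.fst Primrec.snd)).comp (hf.pair hg)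

theorem ArP.lt {f g : α → ℕ} (hf : ArF f) (hg : ArF g) : ArP (fun a => f a < g a) :=
  (ArP.of_primrec (p := fun x : ℕ × ℕ => x.1 < x.2)
    (Primrec.nat_lt.comp Primrec.fst Primrec.snd)).comp (hf.pair hg)

theorem ArP.le {f g : α → ℕ} (hf : ArF f) (hg : ArF g) : ArP (fun a => f a ≤ g a) :=
  (ArP.of_primrec (p := fun x : ℕ × ℕ => x.1 ≤ x.2)
    (Primrec.nat_le.comp Primrec.fst Primrec.snd)).comp (hf.pair hg)

theorem ArF.min {f g : α → ℕ} (hf : ArF f) (hg : ArF g) : ArF (fun a => min (f a) (g a)) :=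
  ArF.prim₂ Primrec.nat_min hf hg

/-- least witnesses -/
theorem ArF.least {p : α × ℕ → Prop} (hp : ArP p) : ArF (fun a => sInf {n | p (a, n)}) := by
  have h1 : ArP (fun x : (α × ℕ) × ℕ => x.2 < x.1.2 → ¬ p (x.1.1, x.2)) :=
    (ArP.lt ArF.snd (ArF.snd.comp ArF.fst)).imp
      (hp.not.comp ((ArF.fst.comp ArF.fst).pair ArF.snd))
  have h2 : ArP (fun x : (α × ℕ) × ℕ => ¬ p (x.1.1, x.2)) :=
    (hp.not.comp ((ArF.fst.comp ArF.fst).pair ArF.snd))
  have h3 : ArP (fun x : α × ℕ => (p x ∧ ∀ n, n < x.2 → ¬ p (x.1, n)) ∨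
      (x.2 = 0 ∧ ∀ n, ¬ p (x.1, n))) :=
    (hp.and h1.all).or ((ArP.eq ArF.snd (ArF.const 0)).and h2.all)
  refine h3.congr fun x => ?_
  obtain ⟨a, m⟩ := x
  simp only
  by_cases hex : ∃ n, p (a, n)
  · have hmem : sInf {n | p (a, n)} ∈ {n | p (a, n)} := Nat.sInf_mem hex
    constructor
    · rintro rfl
      left
      exact ⟨hmem, fun n hn hpn => Nat.notMem_of_lt_sInf hn hpn⟩
    · rintro (⟨h4, h5⟩ | ⟨_, h5⟩)
      · apply le_antisymm
        · exact Nat.sInf_le h4
        · by_contra hlt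
          exact h5 _ (not_le.1 hlt) hmem
      · obtain ⟨n, hn⟩ := hex
        exact absurd hn (h5 n)
  · have hempty : {n | p (a, n)} = ∅ := by
      ext n
      simp only [Set.mem_ofPred_eq, Set.mem_empty_iff_false, iff_false]
      intro hn
      exact hex ⟨n, hn⟩
    rw [hempty, Nat.sInf_empty]
    constructor
    · rintro rfl
      right
      exact ⟨rfl, fun n hn => hex ⟨n, hn⟩⟩
    · rintro (⟨h4, _⟩ | ⟨h4, _⟩)
      · exact absurd ⟨m, h4⟩ hex
      · exact h4.symm

/-- choice of witnesses in codable types -/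
noncomputable def eps [Inhabited β] (p : α × β → Prop) (a : α) : β :=
  ((Encodable.decode (sInf {n | ∃ b : β, Encodable.decode n = some b ∧ p (a, b)}) :
    Option β)).getD default

theorem eps_spec [Inhabited β] {p : α × β → Prop} {a : α} (h : ∃ b, p (a, b)) :
    p (a, eps p a) := by
  have hne : {n | ∃ b : β, Encodable.decode n = some b ∧ p (a, b)}.Nonempty := by
    obtain ⟨b, hb⟩ := h
    exact ⟨Encodable.encode b, b, Encodable.encodek b, hb⟩
  obtain ⟨b, hb, hb'⟩ := Nat.sInf_mem hne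
  unfold eps
  rw [hb]
  exact hb'

theorem ArF.eps [Inhabited β] {p : α × β → Prop} (hp : ArP p) : ArF (HR.eps p) := by
  have h1 : ArP (fun x : α × ℕ => ∃ b : β, Encodable.decode x.2 = some b ∧ p (x.1, b)) := by
    refine ArP.ex (p := fun y : (α × ℕ) × β => Encodable.decode y.1.2 = some y.2 ∧ p (y.1.1, y.2))
      ?_
    refine (ArP.of_primrec ?_).and (hp.comp ((ArF.fst.comp ArF.fst).pair ArF.snd))
    exact Primrec.eq.comp (Primrec.decode.comp (Primrec.snd.comp Primrec.fst))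
      (Primrec.option_some.comp Primrec.snd)
  exact ArF.prim (g := fun n : ℕ => ((Encodable.decode n : Option β)).getD default)
    (Primrec.option_getD.comp Primrec.decode (Primrec.const default)) (ArF.least h1)

/-- recursion -/
theorem ArF.nrec {f : α → ℕ → β} {g : α → β} {h : α × ℕ × β → β} (hg : ArF g) (hh : ArF h)
    (h0 : ∀ a, f a 0 = g a) (hs : ∀ a n, f a (n + 1) = h (a, n, f a n)) :
    ArF (fun x : α × ℕ => f x.1 x.2) := by
  have hget : Primrec (fun y : List β × ℕ => y.1[y.2]?) :=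
    Primrec.list_getElem?.comp Primrec.fst Primrec.snd
  have e1 : ArP (fun y : ((α × ℕ) × β) × List β => y.2[0]? = some (g y.1.1.1)) :=
    ArP.eq (ArF.prim hget (ArF.snd.pair (ArF.const 0)))
      (ArF.prim Primrec.option_some (hg.comp (ArF.fst.comp (ArF.fst.comp ArF.fst))))
  have e2 : ArP (fun y : ((α × ℕ) × β) × List β => y.2[y.1.1.2]? = some y.1.2) :=
    ArP.eq (ArF.prim hget (ArF.snd.pair (ArF.snd.comp (ArF.fst.comp ArF.fst))))
      (ArF.prim Primrec.option_some (ArF.snd.comp ArF.fst))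
  have e3 : ArP (fun y : ((((α × ℕ) × β) × List β) × ℕ) × β => y.1.2 < y.1.1.1.1.2 →
      y.1.1.2[y.1.2]? = some y.2 →
        y.1.1.2[y.1.2 + 1]? = some (h (y.1.1.1.1.1, y.1.2, y.2))) := by
    refine (ArP.lt (ArF.snd.comp ArF.fst) ?_).imp ((ArP.eq ?_ ?_).imp (ArP.eq ?_ ?_))
    · exact ArF.of_primrec (Primrec.snd.comp (Primrec.fst.comp (Primrec.fst.comp
        (Primrec.fst.comp Primrec.fst))))
    · exact ArF.prim hget (ArF.of_primrec ((Primrec.snd.comp (Primrec.fst.comp Primrec.fst)).pair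
        (Primrec.snd.comp Primrec.fst)))
    · exact ArF.of_primrec (Primrec.option_some.comp Primrec.snd)
    · exact ArF.prim hget (ArF.of_primrec ((Primrec.snd.comp (Primrec.fst.comp Primrec.fst)).pair
        (Primrec.succ.comp (Primrec.snd.comp Primrec.fst))))
    · refine ArF.prim Primrec.option_some (hh.comp (ArF.of_primrec ?_))
      exact (Primrec.fst.comp (Primrec.fst.comp (Primrec.fst.comp
        (Primrec.fst.comp Primrec.fst)))).pair
        ((Primrec.snd.comp Primrec.fst).pair Primrec.snd)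
  have e4 := (e1.and (e3.all.all.and e2)).ex
  refine e4.congr fun x => ?_
  obtain ⟨⟨a, n⟩, b⟩ := x
  simp only
  constructor
  · rintro rfl
    refine ⟨(List.range (n + 1)).map (f a), ?_, ?_, ?_⟩
    · simp [h0]
    · intro i y hi hy
      rw [List.getElem?_map, List.getElem?_range (by omega)] at hy ⊢
      simp only [Option.map_some, Option.some.injEq] at hy ⊢
      rw [hs, hy]
    · rw [List.getElem?_map, List.getElem?_range (by omega)]
      rfl
  · rintro ⟨l, h1, h2, h3⟩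
    have key : ∀ i, i ≤ n → l[i]? = some (f a i) := by
      intro i
      induction i with
      | zero => intro _; rw [h1, h0]
      | succ i ih =>
        intro hi
        rw [h2 i (f a i) (by omega) (ih (by omega)), hs]
    have := key n le_rfl
    rw [this] at h3
    exact Option.some.inj h3

theorem ArP.bddAll {p : α × ℕ → Prop} {t : α → ℕ} (hp : ArP p) (ht : ArF t) :
    ArP (fun a => ∀ n, n < t a → p (a, n)) :=
  ((ArP.lt ArF.snd (ht.comp ArF.fst)).imp hp).all

end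

/-- the class is countable -/
theorem countable_Ar : {A : Set ℕ | Ar A}.Countable := by
  have h : {A : Set ℕ | Ar A} ⊆ Set.range (fun x : ℕ × ℕ => {z | pr x.2 z ∈ U x.1}) := by
    rintro A ⟨j, e, he⟩
    exact ⟨(j, e), by ext z; exact (he z).symm⟩
  exact (Set.countable_range _).mono h

end Pool.Agent.Y579.HR
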