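import Mathlib

/-!
Stable matchings, and the step of the construction of infinitely many disjoint rays.
-/

namespace Pool.Agent.Y579.HR

/-- Existence of stable matchings in finite bipartite multigraphs. The left side prefers small
values of `ρ`, the right side prefers large values of `σ`. -/
theorem stable {ε A B : Type*} [DecidableEq ε] (r : ε → A) (q : ε → B) (ρ σ : ε → ℕ) :
    ∀ (n : ℕ) (E : Finset ε), E.card = n →
    (∀ e ∈ E, ∀ e' ∈ E, r e = r e' → ρ e = ρ e' → e = e') →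
    (∀ e ∈ E, ∀ e' ∈ E, q e = q e' → σ e = σ e' → e = e') → ∃ M ⊆ E,
      (∀ e ∈ M, ∀ e' ∈ M, r e = r e' → e = e') ∧ (∀ e ∈ M, ∀ e' ∈ M, q e = q e' → e = e') ∧
      ∀ e ∈ E, e ∉ M → (∃ m ∈ M, r m = r e ∧ ρ m < ρ e) ∨ (∃ m ∈ M, q m = q e ∧ σ e < σ m) := by
  intro n
  induction n with
  | zero =>
    intro E hE _ _
    rw [Finset.card_eq_zero] at hE
    subst hE
    exact ⟨∅, by simp, by simp, by simp, by simp⟩
  | succ n ih =>
    intro E hE hr hq
    by_cases hc : ∃ e ∈ E, ∃ e' ∈ E, (∀ d ∈ E, r d = r e → ρ e ≤ ρ d) ∧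
        (∀ d ∈ E, r d = r e' → ρ e' ≤ ρ d) ∧ q e = q e' ∧ σ e < σ e'
    · obtain ⟨e, he, e', he', hm, hm', hqe, hσ⟩ := hc
      obtain ⟨M, hM, h1, h2, h3⟩ := ih (E.erase e) (by rw [Finset.card_erase_of_mem he, hE]; rfl)
        (fun d hd d' hd' => hr d (Finset.mem_of_mem_erase hd) d' (Finset.mem_of_mem_erase hd'))
        (fun d hd d' hd' => hq d (Finset.mem_of_mem_erase hd) d' (Finset.mem_of_mem_erase hd'))
      refine ⟨M, fun d hd => Finset.mem_of_mem_erase (hM hd), h1, h2, ?_⟩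
      intro d hd hdM
      by_cases hde : d = e
      · subst hde
        right
        have hne : e' ≠ d := by
          rintro rfl
          exact lt_irrefl _ hσ
        by_cases hM' : e' ∈ M
        · exact ⟨e', hM', hqe.symm, hσ⟩
        · rcases h3 e' (Finset.mem_erase.2 ⟨hne, he'⟩) hM' with ⟨m, hmM, hmr, hmρ⟩ | ⟨m, hmM, hmq, hmσ⟩
          · have := hm' m (Finset.mem_of_mem_erase (hM hmM)) hmr
            omega
          · exact ⟨m, hmM, hmq.trans hqe.symm, by omega⟩
      · exact h3 d (Finset.mem_erase.2 ⟨hde, hd⟩) hdM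
    · classical
      refine ⟨E.filter (fun e => ∀ d ∈ E, r d = r e → ρ e ≤ ρ d), Finset.filter_subset _ _,
        ?_, ?_, ?_⟩
      · intro e he e' he' hre
        rw [Finset.mem_filter] at he he'
        exact hr e he.1 e' he'.1 hre (le_antisymm (he.2 e' he'.1 hre.symm) (he'.2 e he.1 hre))
      · intro e he e' he' hqe
        rw [Finset.mem_filter] at he he'
        apply hq e he.1 e' he'.1 hqe
        by_contra hne
        rcases lt_or_gt_of_ne hne with hlt | hlt
        · exact hc ⟨e, he.1, e', he'.1, he.2, he'.2, hqe, hlt⟩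
        · exact hc ⟨e', he'.1, e, he.1, he'.2, he.2, hqe.symm, hlt⟩
      · intro e he heM
        left
        have hex : ∃ m ∈ E.filter (fun d => r d = r e),
            ∀ d ∈ E.filter (fun d => r d = r e), ρ m ≤ ρ d :=
          Finset.exists_min_image _ ρ ⟨e, Finset.mem_filter.2 ⟨he, rfl⟩⟩
        obtain ⟨m, hm, hm'⟩ := hex
        rw [Finset.mem_filter] at hm
        refine ⟨m, Finset.mem_filter.2 ⟨hm.1, fun d hd hrd => ?_⟩, hm.2, ?_⟩
        · exact hm' d (Finset.mem_filter.2 ⟨hd, hrd.trans hm.2⟩)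
        · rcases lt_or_eq_of_le (hm' e (Finset.mem_filter.2 ⟨he, rfl⟩)) with h | h
          · exact h
          · exfalso
            have heq : m = e := hr m hm.1 e he hm.2 h
            subst heq
            exact heM (Finset.mem_filter.2 ⟨hm.1, fun d hd hrd =>
              hm' d (Finset.mem_filter.2 ⟨hd, hrd⟩)⟩)

theorem select {n : ℕ} (met : Fin n → ℕ → Prop) : ∀ (m : ℕ) (I : Finset (Fin n)) (S : Finset ℕ),
    I.card = m → (∀ i ∉ I, ∀ j ∈ S, ¬ met i j) → n * I.card + 1 ≤ S.card →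
    ∃ (I' : Finset (Fin n)) (S' : Finset ℕ), S' ⊆ S ∧ (∀ i ∉ I', ∀ j ∈ S', ¬ met i j) ∧
      n * I'.card + 1 ≤ S'.card ∧
      ∀ i ∈ I', ∃ T ⊆ S', I'.card ≤ T.card ∧ ∀ j ∈ T, met i j := by
  classical
  intro m
  induction m with
  | zero =>
    intro I S hI h1 h2
    refine ⟨I, S, Finset.Subset.refl _, h1, h2, ?_⟩
    rw [Finset.card_eq_zero] at hI
    subst hI
    simp
  | succ m ih =>
    intro I S hI h1 h2
    by_cases hc : ∀ i ∈ I, I.card ≤ (S.filter (fun j => met i j)).card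
    · refine ⟨I, S, Finset.Subset.refl _, h1, h2, fun i hi => ?_⟩
      exact ⟨_, Finset.filter_subset _ _, hc i hi, fun j hj => (Finset.mem_filter.1 hj).2⟩
    · push Not at hc
      obtain ⟨i, hi, hlt⟩ := hc
      have hIn : I.card ≤ n := by
        have := Finset.card_le_univ I
        simpa using this
      have hcard : (I.erase i).card = m := by
        rw [Finset.card_erase_of_mem hi, hI]
        rfl
      have hsplit := Finset.card_filter_add_card_filter_not (s := S) (fun j => met i j)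
      obtain ⟨I', S', hS, h3, h4, h5⟩ := ih (I.erase i) (S.filter (fun j => ¬ met i j)) hcard
        (by
          intro k hk j hj
          rw [Finset.mem_filter] at hj
          by_cases hki : k = i
          · subst hki
            exact hj.2
          · exact h1 k (fun hkI => hk (Finset.mem_erase.2 ⟨hki, hkI⟩)) j hj.1)
        (by
          rw [hcard]
          rw [hI, Nat.mul_succ] at h2
          omega)
      exact ⟨I', S', fun j hj => (Finset.mem_filter.1 (hS hj)).1, h3, h4, h5⟩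

/-- The new family of rays. -/
def newRay {n : ℕ} (R : Fin n → ℕ → ℕ) (Q : ℕ → ℕ → ℕ) (c : Fin n → Option (ℕ × ℕ × ℕ))
    (i : Fin n) (u : ℕ) : ℕ :=
  match c i with
  | none => R i u
  | some (s, j, t) => if u ≤ s then R i u else Q j (t + (u - s))

theorem halin_step {n N K : ℕ} (R : Fin n → ℕ → ℕ) (hR : ∀ i j s t, R i s = R j t → i = j ∧ s = t)
    (Q : ℕ → ℕ → ℕ) (hK : n * N + n * n + 1 ≤ K)
    (hQ : ∀ i < K, ∀ j < K, ∀ s t, Q i s = Q j t → i = j ∧ s = t) :
    ∃ (c : Fin n → Option (ℕ × ℕ × ℕ)) (j0 : ℕ), j0 < K ∧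
      (∀ i s j t, c i = some (s, j, t) → N ≤ s ∧ j < K ∧ R i s = Q j t) ∧
      (∀ i j s t, newRay R Q c i s = newRay R Q c j t → i = j ∧ s = t) ∧
      (∀ i s t, newRay R Q c i s ≠ Q j0 t) := by
  classical
  -- the rays which avoid the committed parts
  let S0 : Finset ℕ := (Finset.range K).filter (fun j => ∀ i : Fin n, ∀ s < N, ∀ t, R i s ≠ Q j t)
  have hS0 : n * n + 1 ≤ S0.card := by
    have hsplit := Finset.card_filter_add_card_filter_not (s := Finset.range K)
      (fun j => ∀ i : Fin n, ∀ s < N, ∀ t, R i s ≠ Q j t)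
    rw [Finset.card_range] at hsplit
    have hbad : ((Finset.range K).filter
        (fun j => ¬ ∀ i : Fin n, ∀ s < N, ∀ t, R i s ≠ Q j t)).card ≤ n * N := by
      have h1 : ∀ j ∈ (Finset.range K).filter
          (fun j => ¬ ∀ i : Fin n, ∀ s < N, ∀ t, R i s ≠ Q j t),
          ∃ x : ℕ × ℕ, x.2 < N ∧ ∃ h : x.1 < n, ∃ t, R ⟨x.1, h⟩ x.2 = Q j t := by
        intro j hj
        have := (Finset.mem_filter.1 hj).2
        push Not at this
        obtain ⟨i, s, hs, t, h⟩ := this
        exact ⟨(i.1, s), hs, i.2, t, h⟩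
      choose! f hf hf' using h1
      have h2 : ((Finset.range n) ×ˢ Finset.range N).card = n * N := by
        rw [Finset.card_product, Finset.card_range, Finset.card_range]
      rw [← h2]
      refine Finset.card_le_card_of_injOn f (fun j hj => ?_) ?_
      · obtain ⟨h3, _⟩ := hf' j hj
        exact Finset.mem_coe.2 (Finset.mem_product.2 ⟨Finset.mem_range.2 h3,
          Finset.mem_range.2 (hf j hj)⟩)
      · intro j hj j' hj' hjj
        obtain ⟨h3, t, ht⟩ := hf' j hj
        obtain ⟨h4, t', ht'⟩ := hf' j' hj'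
        have h5 : R ⟨(f j).1, h3⟩ (f j).2 = R ⟨(f j').1, h4⟩ (f j').2 := by
          congr 1
          · rw [Fin.mk.injEq, hjj]
          · rw [hjj]
        rw [h5, ht'] at ht
        exact ((hQ j' (Finset.mem_range.1 (Finset.mem_filter.1 hj').1) j
          (Finset.mem_range.1 (Finset.mem_filter.1 hj).1) t' t ht).1).symm
    have hS0' : S0.card = ((Finset.range K).filter
      (fun j => ∀ i : Fin n, ∀ s < N, ∀ t, R i s ≠ Q j t)).card := rfl
    omega
  obtain ⟨I, S, hSS, hI1, hI2, hI3⟩ := select (fun i j => ∃ s t, R i s = Q j t) n Finset.univ S0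
    (by simp) (by intro i hi; exact absurd (Finset.mem_univ i) hi) (by simpa using hS0)
  have hSK : ∀ j ∈ S, j < K := fun j hj => Finset.mem_range.1 (Finset.mem_filter.1 (hSS hj)).1
  have hSN : ∀ j ∈ S, ∀ i : Fin n, ∀ s < N, ∀ t, R i s ≠ Q j t := fun j hj =>
    (Finset.mem_filter.1 (hSS hj)).2
  -- a bound for the meeting points
  obtain ⟨Z, hZ⟩ : ∃ Z, ∀ i : Fin n, ∀ j ∈ S, (∃ s t, R i s = Q j t) → ∃ s < Z, ∃ t, R i s = Q j t := by
    have h1 : ∀ x : Fin n × ℕ, ∃ s, (∃ s t, R x.1 s = Q x.2 t) → ∃ t, R x.1 s = Q x.2 t := by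
      intro x
      by_cases h : ∃ s t, R x.1 s = Q x.2 t
      · obtain ⟨s, h⟩ := h
        exact ⟨s, fun _ => h⟩
      · exact ⟨0, fun h' => absurd h' h⟩
    choose g hg using h1
    refine ⟨((Finset.univ : Finset (Fin n)) ×ˢ S).sup g + 1, fun i j hj h => ⟨g (i, j), ?_, ?_⟩⟩
    · have : g (i, j) ≤ ((Finset.univ : Finset (Fin n)) ×ˢ S).sup g :=
        Finset.le_sup (f := g) (Finset.mem_product.2 ⟨Finset.mem_univ _, hj⟩)
      omega
    · exact hg (i, j) h
  -- the edges
  have hq : ∀ e : Fin n × ℕ, ∃ x : ℕ × ℕ, (∃ j ∈ S, ∃ t, R e.1 e.2 = Q j t) →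
      x.1 ∈ S ∧ R e.1 e.2 = Q x.1 x.2 := by
    intro e
    by_cases h : ∃ j ∈ S, ∃ t, R e.1 e.2 = Q j t
    · obtain ⟨j, hj, t, h⟩ := h
      exact ⟨(j, t), fun _ => ⟨hj, h⟩⟩
    · exact ⟨(0, 0), fun h' => absurd h' h⟩
  choose w hw using hq
  let E : Finset (Fin n × ℕ) := (I ×ˢ Finset.range Z).filter (fun e => ∃ j ∈ S, ∃ t, R e.1 e.2 = Q j t)
  have hE : ∀ e ∈ E, e.1 ∈ I ∧ (w e).1 ∈ S ∧ R e.1 e.2 = Q (w e).1 (w e).2 := by
    intro e he
    have h1 := Finset.mem_filter.1 he
    exact ⟨(Finset.mem_product.1 h1.1).1, hw e h1.2⟩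
  have hEw : ∀ i u j t, i ∈ I → u < Z → j ∈ S → R i u = Q j t → (i, u) ∈ E ∧ w (i, u) = (j, t) := by
    intro i u j t hi hu hj h
    have hmem : (i, u) ∈ E := Finset.mem_filter.2
      ⟨Finset.mem_product.2 ⟨hi, Finset.mem_range.2 hu⟩, j, hj, t, h⟩
    refine ⟨hmem, ?_⟩
    obtain ⟨_, h2, h3⟩ := hE _ hmem
    simp only at h3
    rw [h] at h3
    obtain ⟨h4, h5⟩ := hQ j (hSK j hj) _ (hSK _ h2) _ _ h3
    exact Prod.ext h4.symm h5.symm
  obtain ⟨M, hME, hM1, hM2, hM3⟩ := stable (Prod.fst : Fin n × ℕ → Fin n) (fun e => (w e).1)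
    (Prod.snd : Fin n × ℕ → ℕ) (fun e => (w e).2) E.card E rfl
    (fun e _ e' _ h1 h2 => Prod.ext h1 h2)
    (by
      intro e he e' he' h1 h2
      obtain ⟨_, _, h3⟩ := hE e he
      obtain ⟨_, _, h4⟩ := hE e' he'
      rw [h1, h2, ← h4] at h3
      obtain ⟨h5, h6⟩ := hR _ _ _ _ h3
      exact Prod.ext h5 h6)
  have hMcard : ∀ (A : Finset (Fin n)), (∀ e ∈ M, e.1 ∈ A) → M.card ≤ A.card := fun A hA =>
    Finset.card_le_card_of_injOn Prod.fst (fun e he => hA e he)
      (fun e he e' he' h => hM1 e he e' he' h)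
  have hmatched : ∀ i ∈ I, ∃ s, (i, s) ∈ M := by
    intro i hi
    by_contra hno
    push Not at hno
    obtain ⟨T, hTS, hTc, hT⟩ := hI3 i hi
    have hsub : T ⊆ M.image (fun e => (w e).1) := by
      intro j hj
      obtain ⟨s, hs, t, h⟩ := hZ i j (hTS hj) (hT j hj)
      obtain ⟨h1, h2⟩ := hEw i s j t hi hs (hTS hj) h
      rcases hM3 _ h1 (hno s) with ⟨m, hm, hm1, _⟩ | ⟨m, hm, hm1, _⟩
      · simp only at hm1
        exact absurd (by rw [← hm1]; exact hm) (hno m.2)
      · refine Finset.mem_image.2 ⟨m, hm, ?_⟩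
        rw [h2] at hm1
        exact hm1
    have h1 : T.card ≤ M.card := (Finset.card_le_card hsub).trans Finset.card_image_le
    have h2 : M.card ≤ (I.erase i).card := by
      apply hMcard
      intro e he
      refine Finset.mem_erase.2 ⟨?_, (hE e (hME he)).1⟩
      intro h
      exact hno e.2 (by rw [← h]; exact he)
    rw [Finset.card_erase_of_mem hi] at h2
    have h3 : 0 < I.card := Finset.card_pos.2 ⟨i, hi⟩
    omega
  choose! s hs using hmatched
  -- a free ray
  obtain ⟨j0, hj0S, hj0⟩ : ∃ j0 ∈ S, j0 ∉ M.image (fun e => (w e).1) := by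
    apply Finset.exists_mem_notMem_of_card_lt_card
    have h1 : (M.image (fun e => (w e).1)).card ≤ M.card := Finset.card_image_le
    have h2 : M.card ≤ I.card := hMcard I (fun e he => (hE e (hME he)).1)
    have h3 : I.card ≤ n * I.card := by
      rcases Nat.eq_zero_or_pos n with h | h
      · have : I.card ≤ n := by simpa using Finset.card_le_univ I
        omega
      · exact Nat.le_mul_of_pos_left _ h
    omega
  have hF1 : ∀ i ∈ I, ∀ u ≤ s i, ∀ j ∈ S, ∀ t, R i u = Q j t → ∃ i' ∈ I, j = (w (i', s i')).1 ∧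
      (t < (w (i', s i')).2 ∨ (t = (w (i', s i')).2 ∧ i = i' ∧ u = s i)) := by
    intro i hi u hu j hj t h
    have hsZ : s i < Z := by
      have := (Finset.mem_filter.1 (hME (hs i hi))).1
      exact Finset.mem_range.1 (Finset.mem_product.1 this).2
    obtain ⟨h1, h2⟩ := hEw i u j t hi (by omega) hj h
    by_cases hM' : (i, u) ∈ M
    · have h3 := hM1 _ hM' _ (hs i hi) rfl
      have h4 : u = s i := (Prod.ext_iff.1 h3).2
      refine ⟨i, hi, ?_, Or.inr ⟨?_, rfl, h4⟩⟩
      · rw [← h4, h2]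
      · rw [← h4, h2]
    · rcases hM3 _ h1 hM' with ⟨m, hm, hm1, hm2⟩ | ⟨m, hm, hm1, hm2⟩
      · exfalso
        have h3 := hM1 _ hm _ (hs i hi) hm1
        rw [h3] at hm2
        simp only at hm2
        omega
      · have hmI := (hE m (hME hm)).1
        have h3 := hM1 _ hm _ (hs m.1 hmI) rfl
        rw [h2] at hm1 hm2
        refine ⟨m.1, hmI, ?_, Or.inl ?_⟩
        · rw [← h3]
          exact hm1.symm
        · rw [← h3]
          exact hm2
  have hF2 : ∀ i ∈ I, ∀ i' ∈ I, (w (i, s i)).1 = (w (i', s i')).1 → i = i' := by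
    intro i hi i' hi' h
    exact (Prod.ext_iff.1 (hM2 _ (hs i hi) _ (hs i' hi') h)).1
  have hF3 : ∀ i ∈ I, (w (i, s i)).1 ≠ j0 := by
    intro i hi h
    exact hj0 (Finset.mem_image.2 ⟨_, hs i hi, h⟩)
  have hF4 : ∀ i ∈ I, (w (i, s i)).1 ∈ S ∧ R i (s i) = Q (w (i, s i)).1 (w (i, s i)).2 :=
    fun i hi => (hE _ (hME (hs i hi))).2
  refine ⟨fun i => if i ∈ I then some (s i, (w (i, s i)).1, (w (i, s i)).2) else none, j0,
    hSK j0 hj0S, ?_, ?_, ?_⟩
  · intro i s' j t h
    by_cases hi : i ∈ I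
    · simp only [if_pos hi, Option.some.injEq, Prod.mk.injEq] at h
      obtain ⟨rfl, rfl, rfl⟩ := h
      refine ⟨?_, hSK _ (hF4 i hi).1, (hF4 i hi).2⟩
      by_contra hlt
      exact hSN _ (hF4 i hi).1 i (s i) (not_le.1 hlt) _ (hF4 i hi).2
    · simp [if_neg hi] at h
  · intro i j a b hab
    have hval : ∀ i u, newRay R Q (fun i => if i ∈ I then
        some (s i, (w (i, s i)).1, (w (i, s i)).2) else none) i u =
        if i ∈ I ∧ s i < u then Q (w (i, s i)).1 ((w (i, s i)).2 + (u - s i)) else R i u := by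
      intro i u
      unfold newRay
      by_cases hi : i ∈ I
      · simp only [if_pos hi]
        by_cases hu : u ≤ s i
        · rw [if_pos hu, if_neg (by omega)]
        · rw [if_neg hu, if_pos ⟨hi, by omega⟩]
      · simp only [if_neg hi]
        rw [if_neg (by tauto)]
    have hcross : ∀ i j a b, i ∈ I ∧ s i < a → ¬ (j ∈ I ∧ s j < b) →
        Q (w (i, s i)).1 ((w (i, s i)).2 + (a - s i)) ≠ R j b := by
      intro i j a b hi hj h
      by_cases hjI : j ∈ I
      · obtain ⟨i', hi', h1, h2⟩ := hF1 j hjI b (by by_contra hh; exact hj ⟨hjI, by omega⟩)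
          _ (hF4 i hi.1).1 _ h.symm
        have h3 := hF2 i hi.1 i' hi' h1
        subst h3
        rcases h2 with h2 | ⟨h2, _, _⟩ <;> omega
      · exact hI1 j hjI _ (hF4 i hi.1).1 ⟨b, _, h.symm⟩
    rw [hval, hval] at hab
    by_cases hi : i ∈ I ∧ s i < a
    · by_cases hj : j ∈ I ∧ s j < b
      · rw [if_pos hi, if_pos hj] at hab
        obtain ⟨h1, h2⟩ := hQ _ (hSK _ (hF4 i hi.1).1) _ (hSK _ (hF4 j hj.1).1) _ _ hab
        have h3 := hF2 i hi.1 j hj.1 h1
        subst h3
        exact ⟨rfl, by omega⟩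
      · rw [if_pos hi, if_neg hj] at hab
        exact absurd hab (hcross i j a b hi hj)
    · by_cases hj : j ∈ I ∧ s j < b
      · rw [if_neg hi, if_pos hj] at hab
        exact absurd hab.symm (hcross j i b a hj hi)
      · rw [if_neg hi, if_neg hj] at hab
        exact hR _ _ _ _ hab
  · intro i u t h
    unfold newRay at h
    by_cases hi : i ∈ I
    · simp only [if_pos hi] at h
      by_cases hu : u ≤ s i
      · rw [if_pos hu] at h
        obtain ⟨i', hi', h1, _⟩ := hF1 i hi u hu j0 hj0S t h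
        exact hF3 i' hi' h1.symm
      · rw [if_neg hu] at h
        exact hF3 i hi (hQ _ (hSK _ (hF4 i hi).1) _ (hSK _ hj0S) _ _ h).1
    · simp only [if_neg hi] at h
      exact hI1 i hi j0 hj0S ⟨u, t, h⟩

end Pool.Agent.Y579.HR
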