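import Mathlib
import Pool.Agent.Y579.HR.Ar
import Pool.Agent.Y579.HR.Match

/-!
The construction of infinitely many disjoint rays, uniformly and inside the class `Ar`.
-/

namespace Pool.Agent.Y579.HR

open Encodable

section

variable {α β γ σ : Type*} [Primcodable α] [Primcodable β] [Primcodable γ] [Primcodable σ]

theorem ArF.ite {p : α → Prop} [DecidablePred p] {f g : α → β} (hp : ArP p) (hf : ArF f)
    (hg : ArF g) : ArF (fun a => if p a then f a else g a) := by
  have h1 : ArP (fun x : α × β => (p x.1 ∧ f x.1 = x.2) ∨ (¬ p x.1 ∧ g x.1 = x.2)) :=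
    ((hp.comp ArF.fst).and hf).or ((hp.not.comp ArF.fst).and hg)
  refine h1.congr fun x => ?_
  obtain ⟨a, b⟩ := x
  simp only
  by_cases h : p a <;> simp [h]

end

/-- `F` describes `k` pairwise disjoint rays: `F i n v` means that `v` is the `n`-th vertex of the
`i`-th ray. -/
def Dis (k : ℕ) (E : ℕ → ℕ → Prop) (F : ℕ → ℕ → ℕ → Prop) : Prop :=
  (∀ i, i < k → ∀ n, ∃ v, F i n v) ∧
  (∀ i, i < k → ∀ n v v', F i n v → F i n v' → v = v') ∧
  (∀ i, i < k → ∀ n v v', F i n v → F i (n + 1) v' → E v v') ∧
  (∀ i, i < k → ∀ j, j < k → ∀ n m v, F i n v → F j m v → i = j ∧ n = m)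

/-- codes of rays: a finite sequence, and a pointer to the tail of a given ray -/
abbrev RC : Type := List ℕ × (ℕ × ℕ × ℕ)

/-- the ray with code `c` -/
def ray (W : ℕ → ℕ → ℕ → ℕ) (c : RC) (n : ℕ) : ℕ :=
  if n < c.1.length then c.1.getD n 0 else W c.2.1 c.2.2.1 (c.2.2.2 + (n - c.1.length))

/-- a state of the construction is good -/
def Good (E : ℕ → ℕ → Prop) (W : ℕ → ℕ → ℕ → ℕ) (L : List RC) : Prop :=
  (∀ i, i < L.length → ∀ n, E (ray W (L.getD i default) n) (ray W (L.getD i default) (n + 1))) ∧
  (∀ i, i < L.length → ∀ j, j < L.length → ∀ n m,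
    ray W (L.getD i default) n = ray W (L.getD j default) m → i = j ∧ n = m)

/-- the state `L'` extends the state `L` -/
def Ext (W : ℕ → ℕ → ℕ → ℕ) (L L' : List RC) : Prop :=
  L'.length = L.length + 1 ∧ ∀ i, i < L.length → ∀ n, n < L.length →
    ray W (L'.getD i default) n = ray W (L.getD i default) n

theorem step_exists {E : ℕ → ℕ → Prop} {W : ℕ → ℕ → ℕ → ℕ}
    (hW : ∀ k, ∃ p, (∀ i, i < k → ∀ n, E (W p i n) (W p i (n + 1))) ∧
      ∀ i, i < k → ∀ j, j < k → ∀ n m, W p i n = W p j m → i = j ∧ n = m)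
    {L : List RC} (hL : Good E W L) : ∃ L', Good E W L' ∧ Ext W L L' := by
  obtain ⟨hL1, hL2⟩ := hL
  obtain ⟨p, hp1, hp2⟩ := hW (L.length * L.length + L.length * L.length + 1)
  obtain ⟨c, j0, hj0, hc1, hc2, hc3⟩ := halin_step (n := L.length) (N := L.length)
    (fun i => ray W (L.getD i.1 default))
    (fun i j s t h => by
      obtain ⟨h1, h2⟩ := hL2 i.1 i.2 j.1 j.2 s t h
      exact ⟨Fin.ext h1, h2⟩) (W p) le_rfl (fun i hi j hj s t h => hp2 i hi j hj s t h)
  let code : Fin L.length → RC := fun i => match c i with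
    | none => L.getD i.1 default
    | some (s, j, t) => ((List.range (s + 1)).map (ray W (L.getD i.1 default)), (p, j, t + 1))
  have hcode : ∀ i u, ray W (code i) u =
      newRay (fun i : Fin L.length => ray W (L.getD i.1 default)) (W p) c i u := by
    intro i u
    simp only [code, newRay]
    rcases hci : c i with _ | ⟨s, j, t⟩
    · rfl
    · simp only
      by_cases hu : u ≤ s
      · rw [if_pos hu]
        unfold ray
        simp only [List.length_map, List.length_range]
        rw [if_pos (by omega : u < s + 1)]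
        rw [List.getD_eq_getElem _ _ (by simp; omega)]
        simp
      · rw [if_neg hu]
        unfold ray
        simp only [List.length_map, List.length_range]
        rw [if_neg (by omega : ¬ u < s + 1)]
        congr 1
        omega
  let g : ℕ → RC := fun i => if h : i < L.length then code ⟨i, h⟩ else ([], (p, j0, 0))
  have hg : ∀ i, i < L.length + 1 →
      (((List.range (L.length + 1)).map g).getD i default) = g i := by
    intro i hi
    rw [List.getD_eq_getElem _ _ (by simpa using hi)]
    simp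
  have hlen : ((List.range (L.length + 1)).map g).length = L.length + 1 := by simp
  have hray0 : ∀ u, ray W ([], (p, j0, 0)) u = W p j0 u := by
    intro u
    unfold ray
    simp
  refine ⟨(List.range (L.length + 1)).map g, ⟨?_, ?_⟩, ?_, ?_⟩
  · intro i hi n
    rw [hlen] at hi
    rw [hg i hi]
    by_cases h : i < L.length
    · simp only [g, dif_pos h]
      rw [hcode, hcode]
      unfold newRay
      rcases hci : c ⟨i, h⟩ with _ | ⟨s, j, t⟩
      · exact hL1 i h n
      · simp only
        obtain ⟨_, hjK, hst⟩ := hc1 _ s j t hci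
        rcases lt_trichotomy n s with hn | hn | hn
        · rw [if_pos hn.le, if_pos (by omega)]
          exact hL1 i h n
        · rw [if_pos hn.le, if_neg (by omega), hn, hst]
          have : t + (s + 1 - s) = t + 1 := by omega
          rw [this]
          exact hp1 j hjK t
        · rw [if_neg (by omega), if_neg (by omega)]
          have : t + (n + 1 - s) = t + (n - s) + 1 := by omega
          rw [this]
          exact hp1 j hjK _
    · simp only [g, dif_neg h]
      rw [hray0, hray0]
      exact hp1 j0 hj0 n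
  · intro i hi j hj n m
    rw [hlen] at hi hj
    rw [hg i hi, hg j hj]
    intro h
    by_cases hi' : i < L.length
    · by_cases hj' : j < L.length
      · simp only [g, dif_pos hi', dif_pos hj'] at h
        rw [hcode, hcode] at h
        obtain ⟨h1, h2⟩ := hc2 _ _ _ _ h
        exact ⟨congrArg Fin.val h1, h2⟩
      · simp only [g, dif_pos hi', dif_neg hj'] at h
        rw [hcode, hray0] at h
        exact absurd h (hc3 _ _ _)
    · by_cases hj' : j < L.length
      · simp only [g, dif_neg hi', dif_pos hj'] at h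
        rw [hcode, hray0] at h
        exact absurd h.symm (hc3 _ _ _)
      · simp only [g, dif_neg hi', dif_neg hj'] at h
        rw [hray0, hray0] at h
        obtain ⟨_, h2⟩ := hp2 j0 hj0 j0 hj0 _ _ h
        exact ⟨by omega, h2⟩
  · exact hlen
  · intro i hi n hn
    rw [hg i (by omega)]
    simp only [g, dif_pos hi]
    rw [hcode]
    unfold newRay
    rcases hci : c ⟨i, hi⟩ with _ | ⟨s, j, t⟩
    · rfl
    · simp only
      obtain ⟨hs, _, _⟩ := hc1 _ s j t hci
      rw [if_pos (by omega)]

/-- the sequence of states -/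
noncomputable def states (P : (ℕ × List RC) × List RC → Prop) (q : ℕ) : ℕ → List RC
  | 0 => []
  | n + 1 => eps P (q, states P q n)

theorem halin {E : ℕ → ℕ → ℕ → Prop} (hE : ArP (fun x : ℕ × (ℕ × ℕ) => E x.1 x.2.1 x.2.2))
    {F : ℕ → ℕ → ℕ → ℕ → ℕ → Prop}
    (hF : ArP (fun x : (ℕ × ℕ × ℕ × ℕ) × ℕ => F x.1.1 x.1.2.1 x.1.2.2.1 x.1.2.2.2 x.2)) :
    ∃ G : ℕ → ℕ → ℕ → ℕ, ArF (fun x : ℕ × (ℕ × ℕ) => G x.1 x.2.1 x.2.2) ∧
      ∀ q, (∀ k, ∃ k', k ≤ k' ∧ ∃ p, Dis k' (E q) (F q p)) →
        (∀ i n, E q (G q i n) (G q i (n + 1))) ∧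
        (∀ i j n m, G q i n = G q j m → i = j ∧ n = m) := by
  classical
  let W : ℕ → ℕ → ℕ → ℕ → ℕ := fun q p i n => sInf {v | F q p i n v}
  have hW : ArF (fun x : ℕ × ℕ × ℕ × ℕ => W x.1 x.2.1 x.2.2.1 x.2.2.2) := ArF.least hF
  -- rays
  have hray : ArF (fun x : (ℕ × RC) × ℕ => ray (W x.1.1) x.1.2 x.2) := by
    unfold ray
    refine ArF.ite (ArP.of_primrec ?_) (ArF.of_primrec ?_) ?_
    · exact Primrec.nat_lt.comp Primrec.snd
        (Primrec.list_length.comp (Primrec.fst.comp (Primrec.snd.comp Primrec.fst)))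
    · exact (Primrec.list_getD 0).comp (Primrec.fst.comp (Primrec.snd.comp Primrec.fst))
        Primrec.snd
    · refine ArF.comp (f := fun x : (ℕ × RC) × ℕ => (x.1.1, x.1.2.2.1, x.1.2.2.2.1,
        (x.1.2.2.2.2 + (x.2 - x.1.2.1.length)))) hW (ArF.of_primrec ?_)
      have h1 : Primrec (fun x : (ℕ × RC) × ℕ => x.1.2) := Primrec.snd.comp Primrec.fst
      have h2 : Primrec (fun x : (ℕ × RC) × ℕ => x.1.2.2) := Primrec.snd.comp h1
      exact (Primrec.fst.comp Primrec.fst).pair ((Primrec.fst.comp h2).pair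
        ((Primrec.fst.comp (Primrec.snd.comp h2)).pair
        (Primrec.nat_add.comp (Primrec.snd.comp (Primrec.snd.comp h2))
          (Primrec.nat_sub.comp Primrec.snd (Primrec.list_length.comp (Primrec.fst.comp h1))))))
  -- the `n`-th vertex of the `i`-th ray of a state
  have hri : ArF (fun x : (ℕ × List RC) × (ℕ × ℕ) =>
      ray (W x.1.1) (x.1.2.getD x.2.1 default) x.2.2) := by
    refine ArF.comp (g := fun x : (ℕ × RC) × ℕ => ray (W x.1.1) x.1.2 x.2)
      (f := fun x : (ℕ × List RC) × (ℕ × ℕ) => ((x.1.1, x.1.2.getD x.2.1 default), x.2.2))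
      hray (ArF.of_primrec ?_)
    exact ((Primrec.fst.comp Primrec.fst).pair ((Primrec.list_getD default).comp
      (Primrec.snd.comp Primrec.fst) (Primrec.fst.comp Primrec.snd))).pair
      (Primrec.snd.comp Primrec.snd)
  have hri' : ∀ {γ : Type} [Primcodable γ] (q : γ → ℕ) (L : γ → List RC) (i n : γ → ℕ),
      Primrec q → Primrec L → Primrec i → Primrec n →
      ArF (fun x : γ => ray (W (q x)) ((L x).getD (i x) default) (n x)) := by
    intro γ _ q L i n h1 h2 h3 h4
    exact ArF.comp (g := fun x : (ℕ × List RC) × (ℕ × ℕ) =>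
      ray (W x.1.1) (x.1.2.getD x.2.1 default) x.2.2)
      (f := fun x : γ => ((q x, L x), (i x, n x))) hri
      (ArF.of_primrec ((h1.pair h2).pair (h3.pair h4)))
  have hgood : ArP (fun x : ℕ × List RC => Good (E x.1) (W x.1) x.2) := by
    refine ArP.and ?_ ?_
    · have h1 : ArP (fun x : ((ℕ × List RC) × ℕ) × ℕ => x.1.2 < x.1.1.2.length →
          E x.1.1.1 (ray (W x.1.1.1) (x.1.1.2.getD x.1.2 default) x.2)
            (ray (W x.1.1.1) (x.1.1.2.getD x.1.2 default) (x.2 + 1))) := by
        have a1 : Primrec (fun x : ((ℕ × List RC) × ℕ) × ℕ => x.1.1.1) :=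
          Primrec.fst.comp (Primrec.fst.comp Primrec.fst)
        have a2 : Primrec (fun x : ((ℕ × List RC) × ℕ) × ℕ => x.1.1.2) :=
          Primrec.snd.comp (Primrec.fst.comp Primrec.fst)
        have a3 : Primrec (fun x : ((ℕ × List RC) × ℕ) × ℕ => x.1.2) :=
          Primrec.snd.comp Primrec.fst
        refine ArP.imp (ArP.of_primrec (Primrec.nat_lt.comp a3 (Primrec.list_length.comp a2))) ?_
        exact ArP.comp hE ((ArF.of_primrec a1).pair
          ((hri' _ _ _ _ a1 a2 a3 Primrec.snd).pair
            (hri' _ _ _ _ a1 a2 a3 (Primrec.succ.comp Primrec.snd))))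
      have h2 := h1.all.all
      refine h2.congr fun x => ?_
      constructor
      · intro h i n hi
        exact h i hi n
      · intro h i hi n
        exact h i n hi
    · have h1 : ArP (fun x : ((((ℕ × List RC) × ℕ) × ℕ) × ℕ) × ℕ => x.1.1.1.2 < x.1.1.1.1.2.length →
          x.1.1.2 < x.1.1.1.1.2.length →
          ray (W x.1.1.1.1.1) (x.1.1.1.1.2.getD x.1.1.1.2 default) x.1.2 =
            ray (W x.1.1.1.1.1) (x.1.1.1.1.2.getD x.1.1.2 default) x.2 →
            (x.1.1.1.2 = x.1.1.2 ∧ x.1.2 = x.2)) := by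
        have a1 : Primrec (fun x : ((((ℕ × List RC) × ℕ) × ℕ) × ℕ) × ℕ => x.1.1.1) :=
          Primrec.fst.comp (Primrec.fst.comp Primrec.fst)
        have a2 : Primrec (fun x : ((((ℕ × List RC) × ℕ) × ℕ) × ℕ) × ℕ => x.1.1.1.1.1) :=
          Primrec.fst.comp (Primrec.fst.comp a1)
        have a3 : Primrec (fun x : ((((ℕ × List RC) × ℕ) × ℕ) × ℕ) × ℕ => x.1.1.1.1.2) :=
          Primrec.snd.comp (Primrec.fst.comp a1)
        have a4 : Primrec (fun x : ((((ℕ × List RC) × ℕ) × ℕ) × ℕ) × ℕ => x.1.1.1.2) :=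
          Primrec.snd.comp a1
        have a5 : Primrec (fun x : ((((ℕ × List RC) × ℕ) × ℕ) × ℕ) × ℕ => x.1.1.2) :=
          Primrec.snd.comp (Primrec.fst.comp Primrec.fst)
        have a6 : Primrec (fun x : ((((ℕ × List RC) × ℕ) × ℕ) × ℕ) × ℕ => x.1.2) :=
          Primrec.snd.comp Primrec.fst
        have a7 : Primrec (fun x : ((((ℕ × List RC) × ℕ) × ℕ) × ℕ) × ℕ => x.2) :=
          Primrec.snd
        refine ArP.imp (ArP.of_primrec (Primrec.nat_lt.comp a4 (Primrec.list_length.comp a3))) ?_
        refine ArP.imp (ArP.of_primrec (Primrec.nat_lt.comp a5 (Primrec.list_length.comp a3))) ?_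
        refine ArP.imp (ArP.eq (hri' _ _ _ _ a2 a3 a4 a6) (hri' _ _ _ _ a2 a3 a5 a7)) ?_
        exact ArP.of_primrec ((Primrec.eq.comp a4 a5).and (Primrec.eq.comp a6 a7))
      have h2 := h1.all.all.all.all
      refine h2.congr fun x => ?_
      constructor
      · intro h i j n m hi hj
        exact h i hi j hj n m
      · intro h i hi j hj n m
        exact h i j n m hi hj
  have hext : ArP (fun x : (ℕ × List RC) × List RC => Ext (W x.1.1) x.1.2 x.2) := by
    refine ArP.and (ArP.of_primrec ?_) ?_
    · exact Primrec.eq.comp (Primrec.list_length.comp Primrec.snd)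
        (Primrec.succ.comp (Primrec.list_length.comp (Primrec.snd.comp Primrec.fst)))
    · have h1 : ArP (fun x : (((ℕ × List RC) × List RC) × ℕ) × ℕ =>
          x.1.2 < x.1.1.1.2.length → x.2 < x.1.1.1.2.length →
          ray (W x.1.1.1.1) (x.1.1.2.getD x.1.2 default) x.2 =
            ray (W x.1.1.1.1) (x.1.1.1.2.getD x.1.2 default) x.2) := by
        have a1 : Primrec (fun x : (((ℕ × List RC) × List RC) × ℕ) × ℕ => x.1.1.1.1) :=
          Primrec.fst.comp (Primrec.fst.comp (Primrec.fst.comp Primrec.fst))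
        have a2 : Primrec (fun x : (((ℕ × List RC) × List RC) × ℕ) × ℕ => x.1.1.1.2) :=
          Primrec.snd.comp (Primrec.fst.comp (Primrec.fst.comp Primrec.fst))
        have a3 : Primrec (fun x : (((ℕ × List RC) × List RC) × ℕ) × ℕ => x.1.1.2) :=
          Primrec.snd.comp (Primrec.fst.comp Primrec.fst)
        have a4 : Primrec (fun x : (((ℕ × List RC) × List RC) × ℕ) × ℕ => x.1.2) :=
          Primrec.snd.comp Primrec.fst
        have a5 : Primrec (fun x : (((ℕ × List RC) × List RC) × ℕ) × ℕ => x.2) :=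
          Primrec.snd
        refine ArP.imp (ArP.of_primrec (Primrec.nat_lt.comp a4 (Primrec.list_length.comp a2))) ?_
        refine ArP.imp (ArP.of_primrec (Primrec.nat_lt.comp a5 (Primrec.list_length.comp a2))) ?_
        exact ArP.eq (hri' _ _ _ _ a1 a3 a4 a5) (hri' _ _ _ _ a1 a2 a4 a5)
      have h2 := h1.all.all
      refine h2.congr fun x => ?_
      constructor
      · intro h i n hi hn
        exact h i hi n hn
      · intro h i hi n hn
        exact h i n hi hn
  let P : (ℕ × List RC) × List RC → Prop := fun x =>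
    Good (E x.1.1) (W x.1.1) x.2 ∧ Ext (W x.1.1) x.1.2 x.2
  have hP : ArP P := (hgood.comp ((ArF.fst.comp ArF.fst).pair ArF.snd)).and hext
  have hst : ArF (fun x : ℕ × ℕ => states P x.1 x.2) := by
    refine ArF.nrec (g := fun _ => []) (h := fun x : ℕ × ℕ × List RC => eps P (x.1, x.2.2))
      (ArF.const _) ?_ (fun _ => rfl) (fun _ _ => rfl)
    exact (ArF.eps hP).comp (ArF.fst.pair (ArF.snd.comp ArF.snd))
  refine ⟨fun q i n => ray (W q) ((states P q (i + n + 1)).getD i default) n, ?_, ?_⟩
  · refine ArF.comp (g := fun x : (ℕ × List RC) × (ℕ × ℕ) =>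
      ray (W x.1.1) (x.1.2.getD x.2.1 default) x.2.2)
      (f := fun x : ℕ × (ℕ × ℕ) => ((x.1, states P x.1 (x.2.1 + x.2.2 + 1)), (x.2.1, x.2.2))) hri ?_
    refine ArF.pair (ArF.fst.pair ?_) ArF.snd
    refine ArF.comp (g := fun x : ℕ × ℕ => states P x.1 x.2)
      (f := fun x : ℕ × (ℕ × ℕ) => (x.1, (x.2.1 + x.2.2 + 1))) hst (ArF.of_primrec ?_)
    exact Primrec.fst.pair (Primrec.succ.comp (Primrec.nat_add.comp
      (Primrec.fst.comp Primrec.snd) (Primrec.snd.comp Primrec.snd)))
  · intro q hq
    have hW' : ∀ k, ∃ p, (∀ i, i < k → ∀ n, E q (W q p i n) (W q p i (n + 1))) ∧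
        ∀ i, i < k → ∀ j, j < k → ∀ n m, W q p i n = W q p j m → i = j ∧ n = m := by
      intro k
      obtain ⟨k', hk, p, hp1, hp2, hp3, hp4⟩ := hq k
      have hmem : ∀ i, i < k → ∀ n, F q p i n (W q p i n) := by
        intro i hi n
        exact Nat.sInf_mem (hp1 i (by omega) n)
      refine ⟨p, fun i hi n => ?_, fun i hi j hj n m h => ?_⟩
      · exact hp3 i (by omega) n _ _ (hmem i hi n) (hmem i hi (n + 1))
      · have h1 := hmem j hj m
        rw [← h] at h1
        exact hp4 i (by omega) j (by omega) n m _ (hmem i hi n) h1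
    have hgood' : ∀ n, Good (E q) (W q) (states P q n) ∧ (states P q n).length = n ∧
        Ext (W q) (states P q n) (states P q (n + 1)) := by
      intro n
      induction n with
      | zero =>
        have h1 : Good (E q) (W q) (states P q 0) := by
          constructor
          · intro i hi
            exact absurd hi (Nat.not_lt_zero i)
          · intro i hi
            exact absurd hi (Nat.not_lt_zero i)
        have h2 : P ((q, states P q 0), eps P (q, states P q 0)) := eps_spec (step_exists hW' h1)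
        exact ⟨h1, rfl, h2.2⟩
      | succ n ih =>
        obtain ⟨ih1, ih2, ih3⟩ := ih
        have h0 : P ((q, states P q n), eps P (q, states P q n)) := eps_spec (step_exists hW' ih1)
        have h1 : Good (E q) (W q) (states P q (n + 1)) := h0.1
        have h2 : P ((q, states P q (n + 1)), eps P (q, states P q (n + 1))) :=
          eps_spec (step_exists hW' h1)
        exact ⟨h1, by rw [ih3.1, ih2], h2.2⟩
    have hstab : ∀ i n N, i + n + 1 ≤ N →
        ray (W q) ((states P q N).getD i default) n =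
          ray (W q) ((states P q (i + n + 1)).getD i default) n := by
      intro i n N hN
      induction N, hN using Nat.le_induction with
      | base => rfl
      | succ N hN ih =>
        rw [← ih]
        obtain ⟨_, h2, h3⟩ := hgood' N
        exact h3.2 i (by omega) n (by omega)
    refine ⟨fun i n => ?_, fun i j n m h => ?_⟩
    · have h1 := (hgood' (i + (n + 1) + 1)).1.1 i (by rw [(hgood' _).2.1]; omega) n
      rw [hstab i n (i + (n + 1) + 1) (by omega)] at h1
      exact h1
    · simp only at h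
      rw [← hstab i n (i + n + 1 + (j + m + 1)) (by omega),
        ← hstab j m (i + n + 1 + (j + m + 1)) (by omega)] at h
      exact (hgood' _).1.2 i (by rw [(hgood' _).2.1]; omega) j (by rw [(hgood' _).2.1]; omega) n m h

end Pool.Agent.Y579.HR
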