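import Mathlib
import Pool.Agent.Y579.HR.Halin

/-!
Thinning an infinite set so that a given bounded function becomes eventually constant on it in its
second argument, inside the class `Ar`.
-/

namespace Pool.Agent.Y579.HR

open Encodable

/-- the sequence `l` is realised by infinitely many elements of `H` -/
def Infl (f : ℕ → ℕ → ℕ) (H : ℕ → Prop) (l : List ℕ) : Prop :=
  ∀ z, ∃ y, z ≤ y ∧ H y ∧ ∀ i, i < l.length → f i y = l.getD i 0

/-- the leftmost path -/
noncomputable def lp (f : ℕ → ℕ → ℕ) (H : ℕ → Prop) : ℕ → List ℕ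
  | 0 => []
  | t + 1 => lp f H t ++ [sInf {v | Infl f H (lp f H t ++ [v])}]

theorem arP_Infl {f : ℕ → ℕ → ℕ} (hf : ArF (fun x : ℕ × ℕ => f x.1 x.2)) {H : ℕ → Prop}
    (hH : ArP H) : ArP (Infl f H) := by
  have h1 : ArP (fun x : (((List ℕ) × ℕ) × ℕ) × ℕ => x.2 < x.1.1.1.length →
      f x.2 x.1.2 = x.1.1.1.getD x.2 0) := by
    refine ArP.imp (ArP.of_primrec ?_) (ArP.eq ?_ ?_)
    · exact Primrec.nat_lt.comp Primrec.snd (Primrec.list_length.comp
        (Primrec.fst.comp (Primrec.fst.comp Primrec.fst)))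
    · exact ArF.comp (g := fun x : ℕ × ℕ => f x.1 x.2)
        (f := fun x : (((List ℕ) × ℕ) × ℕ) × ℕ => (x.2, x.1.2)) hf
        (ArF.of_primrec (Primrec.snd.pair (Primrec.snd.comp Primrec.fst)))
    · exact ArF.of_primrec ((Primrec.list_getD 0).comp
        (Primrec.fst.comp (Primrec.fst.comp Primrec.fst)) Primrec.snd)
  have h2 : ArP (fun x : ((List ℕ) × ℕ) × ℕ => x.1.2 ≤ x.2 ∧ H x.2 ∧
      ∀ i, i < x.1.1.length → f i x.2 = x.1.1.getD i 0) :=
    (ArP.le (ArF.snd.comp ArF.fst) ArF.snd).and ((hH.comp ArF.snd).and h1.all)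
  exact h2.ex.all

theorem eh {f : ℕ → ℕ → ℕ} (hf : ArF (fun x : ℕ × ℕ => f x.1 x.2)) {B : ℕ → ℕ}
    (hB : ∀ i y, f i y ≤ B i) {H : ℕ → Prop} (hH : ArP H) (hinf : ∀ n, ∃ y, n ≤ y ∧ H y) :
    ∃ H' : ℕ → Prop, ArP H' ∧ (∀ y, H' y → H y) ∧ (∀ n, ∃ y, n ≤ y ∧ H' y) ∧
      ∃ g : ℕ → ℕ, ArF g ∧ ∀ i, ∃ y0, ∀ y, H' y → y0 ≤ y → f i y = g i := by
  have hI := arP_Infl hf hH
  have hstep : ∀ l, Infl f H l → ∃ v, Infl f H (l ++ [v]) := by
    intro l hl
    by_contra hno
    push Not at hno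
    unfold Infl at hno
    push Not at hno
    choose z hz using hno
    obtain ⟨y, hy, hHy, hyl⟩ := hl ((Finset.range (B l.length + 1)).sup z)
    have hv : f l.length y ≤ B l.length := hB _ _
    have hzy : z (f l.length y) ≤ y := le_trans
      (Finset.le_sup (f := z) (Finset.mem_range.2 (Nat.lt_succ_of_le hv))) hy
    obtain ⟨i, hi, hne⟩ := hz (f l.length y) y hzy hHy
    rw [List.length_append, List.length_singleton] at hi
    apply hne
    by_cases hil : i < l.length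
    · rw [List.getD_append _ _ _ _ hil]
      exact hyl i hil
    · have : i = l.length := by omega
      subst this
      rw [List.getD_append_right _ _ _ _ le_rfl]
      simp
  have hlp : ∀ t, Infl f H (lp f H t) ∧ (lp f H t).length = t := by
    intro t
    induction t with
    | zero =>
      refine ⟨fun z => ?_, rfl⟩
      obtain ⟨y, hy, hHy⟩ := hinf z
      exact ⟨y, hy, hHy, fun i hi => absurd hi (Nat.not_lt_zero i)⟩
    | succ t ih =>
      have h1 : sInf {v | Infl f H (lp f H t ++ [v])} ∈ {v | Infl f H (lp f H t ++ [v])} :=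
        Nat.sInf_mem (hstep _ ih.1)
      refine ⟨h1, ?_⟩
      rw [lp, List.length_append, ih.2]
      rfl
  have hlpA : ArF (lp f H) := by
    have h1 : ArF (fun x : ℕ × List ℕ => x.2 ++ [sInf {v | Infl f H (x.2 ++ [v])}]) := by
      refine ArF.prim₂ Primrec.list_append ArF.snd (ArF.prim
        (g := fun n : ℕ => [n]) (Primrec.list_cons.comp Primrec.id (Primrec.const [])) ?_)
      refine ArF.least (p := fun x : (ℕ × List ℕ) × ℕ => Infl f H (x.1.2 ++ [x.2])) ?_
      refine hI.comp (ArF.of_primrec ?_)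
      exact Primrec.list_append.comp (Primrec.snd.comp Primrec.fst)
        (Primrec.list_cons.comp Primrec.snd (Primrec.const []))
    have h2 := ArF.nrec (α := ℕ) (f := fun _ n => lp f H n) (g := fun _ => [])
      (h := fun x : ℕ × ℕ × List ℕ => x.2.2 ++ [sInf {v | Infl f H (x.2.2 ++ [v])}])
      (ArF.const _) (ArF.comp (f := fun x : ℕ × ℕ × List ℕ => x.2) h1 ArF.snd)
      (fun _ => rfl) (fun _ _ => rfl)
    exact ArF.comp (g := fun x : ℕ × ℕ => lp f H x.2) (f := fun n : ℕ => (0, n)) h2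
      ((ArF.const 0).pair ArF.id)
  let g : ℕ → ℕ := fun i => (lp f H (i + 1)).getD i 0
  have hgA : ArF g := ArF.prim₂ (g := fun (l : List ℕ) (n : ℕ) => l.getD n 0) (Primrec.list_getD 0)
    (ArF.comp (f := fun i : ℕ => i + 1) hlpA (ArF.of_primrec Primrec.succ)) ArF.id
  have hcoh : ∀ t i, i < t → (lp f H t).getD i 0 = g i := by
    intro t
    induction t with
    | zero => intro i hi; exact absurd hi (Nat.not_lt_zero i)
    | succ t ih =>
      intro i hi
      rcases Nat.lt_succ_iff_lt_or_eq.1 hi with h | h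
      · rw [← ih i h, lp, List.getD_append _ _ _ _ (by rw [(hlp t).2]; exact h)]
      · subst h
        rfl
  have hY : ∀ t, ∃ y, t ≤ y ∧ H y ∧ ∀ i, i < t → f i y = g i := by
    intro t
    obtain ⟨y, hy, hHy, h⟩ := (hlp t).1 t
    refine ⟨y, hy, hHy, fun i hi => ?_⟩
    rw [← hcoh t i hi]
    exact h i (by rw [(hlp t).2]; exact hi)
  have hYA : ArF (fun t => sInf {y | t ≤ y ∧ H y ∧ ∀ i, i < t → f i y = g i}) := by
    refine ArF.least (p := fun x : ℕ × ℕ => x.1 ≤ x.2 ∧ H x.2 ∧ ∀ i, i < x.1 → f i x.2 = g i) ?_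
    refine (ArP.le ArF.fst ArF.snd).and ((hH.comp ArF.snd).and ?_)
    refine ArP.all (p := fun x : (ℕ × ℕ) × ℕ => x.2 < x.1.1 → f x.2 x.1.2 = g x.2) ?_
    refine (ArP.lt ArF.snd (ArF.fst.comp ArF.fst)).imp (ArP.eq ?_ (hgA.comp ArF.snd))
    exact ArF.comp (g := fun x : ℕ × ℕ => f x.1 x.2)
      (f := fun x : (ℕ × ℕ) × ℕ => (x.2, x.1.2)) hf
      (ArF.of_primrec (Primrec.snd.pair (Primrec.snd.comp Primrec.fst)))
  have hYs : ∀ t, (t ≤ sInf {y | t ≤ y ∧ H y ∧ ∀ i, i < t → f i y = g i}) ∧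
      H (sInf {y | t ≤ y ∧ H y ∧ ∀ i, i < t → f i y = g i}) ∧
      ∀ i, i < t → f i (sInf {y | t ≤ y ∧ H y ∧ ∀ i, i < t → f i y = g i}) = g i :=
    fun t => Nat.sInf_mem (hY t)
  set Y : ℕ → ℕ := fun t => sInf {y | t ≤ y ∧ H y ∧ ∀ i, i < t → f i y = g i} with hYdef
  refine ⟨fun y => ∃ t, Y t = y, ?_, ?_, ?_, g, hgA, ?_⟩
  · exact ArP.ex (p := fun x : ℕ × ℕ => Y x.2 = x.1) (ArP.eq (hYA.comp ArF.snd) ArF.fst)
  · rintro y ⟨t, rfl⟩
    exact (hYs t).2.1
  · intro n
    exact ⟨Y n, (hYs n).1, n, rfl⟩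
  · intro i
    refine ⟨(Finset.range (i + 1)).sup Y + 1, ?_⟩
    rintro y ⟨t, rfl⟩ hy
    apply (hYs t).2.2
    by_contra hlt
    have : Y t ≤ (Finset.range (i + 1)).sup Y :=
      Finset.le_sup (f := Y) (Finset.mem_range.2 (by omega))
    omega

/-- an enumeration of all functions of finite sequences in the class -/
theorem exists_fun_enum : ∃ G : ℕ → List ℕ → ℕ, (∀ n, ArF (G n)) ∧
    ∀ f : List ℕ → ℕ, ArF f → ∃ n, G n = f := by
  have h1 : {f : List ℕ → ℕ | ArF f}.Countable := by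
    have hg : ∀ f : {f : List ℕ → ℕ // ArF f}, ∃ A : {A : Set ℕ // Ar A},
        ∀ x : List ℕ × ℕ, f.1 x.1 = x.2 ↔ encode x ∈ A.1 := by
      rintro ⟨f, A, hA, h⟩
      exact ⟨⟨A, hA⟩, h⟩
    choose φ hφ using hg
    have hinj : Function.Injective φ := by
      intro a b hab
      apply Subtype.ext
      funext l
      have h2 := (hφ a (l, a.1 l)).1 rfl
      rw [hab] at h2
      exact ((hφ b (l, a.1 l)).2 h2).symm
    have hc : Countable {A : Set ℕ // Ar A} := countable_Ar.to_subtype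
    exact (Set.countable_coe_iff).1 hinj.countable
  obtain ⟨G, hG⟩ := h1.exists_eq_range ⟨fun _ => 0, ArF.const 0⟩
  refine ⟨G, fun n => ?_, fun f hf => ?_⟩
  · have : G n ∈ {f : List ℕ → ℕ | ArF f} := by
      rw [hG]
      exact ⟨n, rfl⟩
    exact this
  · have : f ∈ Set.range G := by
      rw [← hG]
      exact hf
    exact this

/-- the enumeration -/
noncomputable def G : ℕ → List ℕ → ℕ := exists_fun_enum.choose

theorem G_ar (n : ℕ) : ArF (G n) := exists_fun_enum.choose_spec.1 n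

theorem G_surj {f : List ℕ → ℕ} (hf : ArF f) : ∃ n, G n = f := exists_fun_enum.choose_spec.2 f hf

theorem eh_list (n : ℕ) {H : ℕ → Prop} (hH : ArP H) (hinf : ∀ n, ∃ y, n ≤ y ∧ H y) :
    ∃ H' : ℕ → Prop, ArP H' ∧ (∀ y, H' y → H y) ∧ (∀ n, ∃ y, n ≤ y ∧ H' y) ∧
      ∃ g : List ℕ → ℕ, ArF g ∧ ∀ l, ∃ y0, ∀ y, H' y → y0 ≤ y →
        min (G n (y :: l)) (l.sum + 1) = g l := by
  have hdec : Primrec (fun i : ℕ => ((decode i : Option (List ℕ))).getD []) :=
    Primrec.option_getD.comp Primrec.decode (Primrec.const [])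
  have hsum : Primrec (fun l : List ℕ => l.sum) := by
    have h1 : Primrec (fun l : List ℕ => l.foldr (fun a b => a + b) 0) :=
      Primrec.list_foldr (f := fun l : List ℕ => l) (g := fun _ => 0)
        (h := fun _ (x : ℕ × ℕ) => x.1 + x.2) Primrec.id (Primrec.const 0)
        ((Primrec.nat_add.comp (Primrec.fst.comp Primrec.snd)
          (Primrec.snd.comp Primrec.snd)).to₂)
    exact h1.of_eq fun l => by rw [List.sum_eq_foldr]
  have hf : ArF (fun x : ℕ × ℕ => min (G n (x.2 :: ((decode x.1 : Option (List ℕ))).getD []))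
      ((((decode x.1 : Option (List ℕ))).getD []).sum + 1)) := by
    refine ArF.min ?_ (ArF.of_primrec ?_)
    · refine (G_ar n).comp (ArF.of_primrec ?_)
      exact Primrec.list_cons.comp Primrec.snd (hdec.comp Primrec.fst)
    · exact Primrec.succ.comp (hsum.comp (hdec.comp Primrec.fst))
  obtain ⟨H', h1, h2, h3, g, hg, h4⟩ := eh
    (f := fun i y => min (G n (y :: ((decode i : Option (List ℕ))).getD []))
      ((((decode i : Option (List ℕ))).getD []).sum + 1)) hf
    (B := fun i => ((((decode i : Option (List ℕ))).getD []).sum + 1))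
    (fun i y => min_le_right _ _) hH hinf
  refine ⟨H', h1, h2, h3, fun l => g (encode l), hg.comp (ArF.of_primrec Primrec.encode),
    fun l => ?_⟩
  obtain ⟨y0, hy0⟩ := h4 (encode l)
  refine ⟨y0, fun y hy hyy => ?_⟩
  have := hy0 y hy hyy
  simpa using this

/-- infinite sets in the class -/
def InfSets : Type := {H : ℕ → Prop // ArP H ∧ ∀ n, ∃ y, n ≤ y ∧ H y}

/-- the decreasing sequence of infinite sets -/
noncomputable def chain : ℕ → InfSets
  | 0 => ⟨fun _ => True, ArP.of_primrec (PrimrecPred.of_eq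
      (Primrec.eq.comp (Primrec.const (0 : ℕ)) (Primrec.const (0 : ℕ))) (fun _ => by simp)),
      fun n => ⟨n, le_rfl, trivial⟩⟩
  | n + 1 => ⟨(eh_list n (chain n).2.1 (chain n).2.2).choose,
      (eh_list n (chain n).2.1 (chain n).2.2).choose_spec.1,
      (eh_list n (chain n).2.1 (chain n).2.2).choose_spec.2.2.1⟩

theorem chain_succ (n : ℕ) : (∀ y, (chain (n + 1)).1 y → (chain n).1 y) ∧
    ∃ g : List ℕ → ℕ, ArF g ∧ ∀ l, ∃ y0, ∀ y, (chain (n + 1)).1 y → y0 ≤ y →
        min (G n (y :: l)) (l.sum + 1) = g l :=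
  ⟨(eh_list n (chain n).2.1 (chain n).2.2).choose_spec.2.1,
    (eh_list n (chain n).2.1 (chain n).2.2).choose_spec.2.2.2⟩

theorem chain_anti {m n : ℕ} (h : m ≤ n) : ∀ y, (chain n).1 y → (chain m).1 y := by
  induction n, h using Nat.le_induction with
  | base => exact fun y hy => hy
  | succ n hn ih => exact fun y hy => ih y ((chain_succ n).1 y hy)

theorem finite_lists (n x : ℕ) : {l : List ℕ | l.length ≤ n ∧ ∀ u ∈ l, u ≤ x}.Finite := by
  induction n with
  | zero =>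
    refine (Set.finite_singleton ([] : List ℕ)).subset ?_
    rintro l ⟨h, _⟩
    exact List.length_eq_zero_iff.1 (Nat.le_zero.1 h)
  | succ n ih =>
    have h1 : ({[]} ∪ Set.image2 (fun (a : ℕ) (l : List ℕ) => a :: l) (Set.Iic x)
        {l : List ℕ | l.length ≤ n ∧ ∀ u ∈ l, u ≤ x}).Finite :=
      (Set.finite_singleton _).union ((Set.finite_Iic x).image2 _ ih)
    refine h1.subset ?_
    rintro l ⟨h, h'⟩
    cases l with
    | nil => left; rfl
    | cons a l =>
      right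
      refine ⟨a, h' a (by simp), l, ⟨?_, fun u hu => h' u (by simp [hu])⟩, rfl⟩
      rw [List.length_cons] at h
      omega

theorem tuples : ∃ g : ℕ → List ℕ → ℕ, (∀ j, ArF (g j)) ∧ ∀ n : ℕ, ∃ x : ℕ → ℕ, StrictMono x ∧
    n < x 0 ∧ ∀ j < n, ∀ t, ∀ l : List ℕ, l.length ≤ n → (∀ u ∈ l, ∃ s < t, u = x s) →
      G j l < x t ∧ min (G j (x t :: l)) (l.sum + 1) = g j l := by
  have h0 := fun n => (chain_succ n).2
  choose g hg hg' using h0
  refine ⟨g, hg, fun n => ?_⟩
  have hnext : ∀ x, ∃ y, x < y ∧ ∀ j < n, ∀ l : List ℕ, l.length ≤ n → (∀ u ∈ l, u ≤ x) →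
      G j l < y ∧ min (G j (y :: l)) (l.sum + 1) = g j l := by
    intro x
    have hfin := finite_lists n x
    have hb : ∀ z : ℕ × List ℕ, ∃ y0, ∀ y, (chain n).1 y → y0 ≤ y → z.1 < n →
        G z.1 z.2 < y ∧ min (G z.1 (y :: z.2)) (z.2.sum + 1) = g z.1 z.2 := by
      rintro ⟨j, l⟩
      obtain ⟨y0, hy0⟩ := hg' j l
      refine ⟨max y0 (G j l + 1), fun y hy hyy hj => ⟨?_, ?_⟩⟩
      · have := le_trans (le_max_right y0 (G j l + 1)) hyy
        exact this
      · exact hy0 y (chain_anti hj y hy) (le_trans (le_max_left _ _) hyy)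
    choose b hb using hb
    have hfin2 : (Set.Iio n ×ˢ {l : List ℕ | l.length ≤ n ∧ ∀ u ∈ l, u ≤ x}).Finite :=
      (Set.finite_Iio n).prod hfin
    obtain ⟨y, hy, hyc⟩ := (chain n).2.2 (x + 1 + hfin2.toFinset.sup b)
    refine ⟨y, by omega, fun j hj l hl hlx => ?_⟩
    refine hb (j, l) y hyc ?_ hj
    have : b (j, l) ≤ hfin2.toFinset.sup b := by
      apply Finset.le_sup (f := b)
      rw [Set.Finite.mem_toFinset]
      exact ⟨hj, hl, hlx⟩
    omega
  choose nx hnx hnx' using hnext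
  let x : ℕ → ℕ := fun t => Nat.rec (nx n) (fun _ y => nx y) t
  have hxs : ∀ t, x (t + 1) = nx (x t) := fun t => rfl
  have hmono : StrictMono x := strictMono_nat_of_lt_succ fun t => by rw [hxs]; exact hnx _
  refine ⟨x, hmono, hnx n, fun j hj t l hl hlt => ?_⟩
  cases t with
  | zero =>
    refine hnx' n j hj l hl fun u hu => ?_
    obtain ⟨s, hs, _⟩ := hlt u hu
    exact absurd hs (Nat.not_lt_zero s)
  | succ t =>
    refine hnx' (x t) j hj l hl fun u hu => ?_
    obtain ⟨s, hs, rfl⟩ := hlt u hu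
    exact hmono.monotone (Nat.le_of_lt_succ hs)

end Pool.Agent.Y579.HR
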