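import Mathlib
import Pool.Agent.Y579.HR.EH

/-!
The model: germs, along an ultrafilter on the finite subsets of `ω₁`, of the values of functions
of the class `Ar` at sparse tuples of natural numbers.
-/

namespace Pool.Agent.Y579.HR

open Encodable Filter Pool.Agent.Helper617.RM

/-- the index set, the first uncountable ordinal -/
def I : Type := (Cardinal.aleph 1).ord.ToType

noncomputable instance : LinearOrder I := inferInstanceAs (LinearOrder (Cardinal.aleph 1).ord.ToType)
instance : WellFoundedLT I := inferInstanceAs (WellFoundedLT (Cardinal.aleph 1).ord.ToType)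

theorem mk_I : Cardinal.mk I = Cardinal.aleph 1 := Cardinal.mk_ord_toType _

theorem countable_Iio (i : I) : (Set.Iio i).Countable := by
  have h : Cardinal.mk (Set.Iio i) < Cardinal.aleph 1 := Cardinal.mk_Iio_toType_ord_lt
    (c := Cardinal.aleph 1) i
  rw [← Cardinal.succ_aleph0, Order.lt_succ_iff] at h
  exact Set.countable_coe_iff.1 (Cardinal.mk_le_aleph0_iff.1 h)

instance : Uncountable I := by
  rw [← Cardinal.aleph0_lt_mk_iff, mk_I]
  exact Cardinal.aleph0_lt_aleph_one

theorem exists_above (s : ℕ → I) : ∃ i, ∀ n, s n < i := by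
  by_contra hno
  push Not at hno
  have h1 : (Set.univ : Set I) ⊆ ⋃ n, Set.Iic (s n) := by
    intro i _
    obtain ⟨n, hn⟩ := hno i
    exact Set.mem_iUnion.2 ⟨n, hn⟩
  have h2 : (⋃ n, Set.Iic (s n)).Countable := by
    refine Set.countable_iUnion fun n => ?_
    have : Set.Iic (s n) = insert (s n) (Set.Iio (s n)) := (Set.Iio_insert).symm
    rw [this]
    exact (countable_Iio _).insert _
  exact Set.not_countable_univ (h2.mono h1)

/-- the least index -/
noncomputable def i0 : I := (wellFounded_lt (α := I)).min Set.univ ⟨Classical.arbitrary I, trivial⟩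

theorem i0_le (i : I) : i0 ≤ i := not_lt.1 ((wellFounded_lt (α := I)).not_lt_min Set.univ trivial)

/-- the ultrafilter -/
noncomputable def D : Ultrafilter (Finset I) := Ultrafilter.of Filter.atTop

theorem ev_subset (s : Finset I) : ∀ᶠ F in (D : Filter (Finset I)), s ⊆ F :=
  (Ultrafilter.of_le Filter.atTop) (Filter.eventually_ge_atTop s)

theorem ev_card (n : ℕ) : ∀ᶠ F in (D : Filter (Finset I)), n ≤ F.card := by
  obtain ⟨s, hs⟩ := Infinite.exists_subset_card_eq I n
  filter_upwards [ev_subset s] with F hF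
  rw [← hs]
  exact Finset.card_le_card hF

/-- the functions which describe the limits -/
noncomputable def lim : ℕ → List ℕ → ℕ := tuples.choose

theorem lim_ar (j : ℕ) : ArF (lim j) := tuples.choose_spec.1 j

/-- the sparse sequences -/
noncomputable def xs (n : ℕ) : ℕ → ℕ := (tuples.choose_spec.2 n).choose

theorem xs_spec (n : ℕ) : StrictMono (xs n) ∧
    n < xs n 0 ∧ ∀ j < n, ∀ t, ∀ l : List ℕ, l.length ≤ n → (∀ u ∈ l, ∃ s < t, u = xs n s) →
      G j l < xs n t ∧ min (G j (xs n t :: l)) (l.sum + 1) = lim j l :=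
  (tuples.choose_spec.2 n).choose_spec

/-- the values of the generators -/
noncomputable def gen (F : Finset I) (i : I) : ℕ :=
  if i ∈ F then xs F.card ((F.filter (· < i)).card) else 0

theorem gen_spec (j : ℕ) (l : List I) (i : I) (h : ∀ k ∈ l, k < i) :
    ∀ᶠ F in (D : Filter (Finset I)), G j (l.map (gen F)) < gen F i ∧
      min (G j (gen F i :: l.map (gen F))) ((l.map (gen F)).sum + 1) = lim j (l.map (gen F)) := by
  filter_upwards [ev_subset (insert i l.toFinset), ev_card (j + 1), ev_card l.length]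
    with F hF hj hl
  have hi : i ∈ F := hF (Finset.mem_insert_self _ _)
  have hk : ∀ k ∈ l, k ∈ F := fun k hk => hF (Finset.mem_insert_of_mem (List.mem_toFinset.2 hk))
  have h1 : gen F i = xs F.card ((F.filter (· < i)).card) := by
    unfold gen
    rw [if_pos hi]
  rw [h1]
  refine (xs_spec F.card).2.2 j hj _ _ (by rw [List.length_map]; exact hl) ?_
  intro u hu
  obtain ⟨k, hkl, rfl⟩ := List.mem_map.1 hu
  refine ⟨(F.filter (· < k)).card, ?_, ?_⟩
  · apply Finset.card_lt_card
    refine ⟨?_, ?_⟩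
    · intro z hz
      rw [Finset.mem_filter] at hz ⊢
      exact ⟨hz.1, hz.2.trans (h k hkl)⟩
    · intro hsub
      have := hsub (Finset.mem_filter.2 ⟨hk k hkl, h k hkl⟩)
      rw [Finset.mem_filter] at this
      exact lt_irrefl _ this.2
  · unfold gen
    rw [if_pos (hk k hkl)]

theorem gen_large (i : I) (n : ℕ) : ∀ᶠ F in (D : Filter (Finset I)), n < gen F i := by
  filter_upwards [ev_subset {i}, ev_card n] with F hF hn
  have hi : i ∈ F := hF (Finset.mem_singleton_self _)
  unfold gen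
  rw [if_pos hi]
  have h1 := (xs_spec F.card).2.1
  have h2 := (xs_spec F.card).1.monotone (Nat.zero_le ((F.filter (· < i)).card))
  omega

/-- the functions whose germs are the elements of the model -/
def Rep (r : Finset I → ℕ) : Prop :=
  ∃ f : List ℕ → ℕ, ArF f ∧ ∃ s : List I, ∀ F, r F = f (s.map (gen F))

instance repSetoid : Setoid {r : Finset I → ℕ // Rep r} where
  r a b := ∀ᶠ F in (D : Filter (Finset I)), a.1 F = b.1 F
  iseqv := {
    refl := fun a => Filter.Eventually.of_forall fun F => rfl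
    symm := fun h => h.mono fun F hF => hF.symm
    trans := fun h h' => by
      filter_upwards [h, h'] with F h1 h2
      rw [h1, h2] }

/-- the elements of the model -/
def MM : Type := Quotient repSetoid

noncomputable def rep (m : MM) : Finset I → ℕ := (Quotient.out m).1

theorem rep_rep (m : MM) : Rep (rep m) := (Quotient.out m).2

def mk (r : Finset I → ℕ) (hr : Rep r) : MM := Quotient.mk _ ⟨r, hr⟩

theorem rep_mk (r : Finset I → ℕ) (hr : Rep r) :
    ∀ᶠ F in (D : Filter (Finset I)), rep (mk r hr) F = r F :=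
  Quotient.exact (Quotient.out_eq (mk r hr))

theorem ext_iff {m n : MM} : m = n ↔ ∀ᶠ F in (D : Filter (Finset I)), rep m F = rep n F := by
  constructor
  · rintro rfl
    exact Filter.Eventually.of_forall fun F => rfl
  · intro h
    rw [← Quotient.out_eq m, ← Quotient.out_eq n]
    exact Quotient.sound h

/-- finitely many elements of the model depend on the same generators -/
theorem rep_list (v : ℕ → MM) (K : ℕ) : ∃ (s : List I) (f : List ℕ → List ℕ), ArF f ∧
    ∀ F, f (s.map (gen F)) = (List.range K).map (fun i => rep (v i) F) := by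
  induction K with
  | zero => exact ⟨[], fun _ => [], ArF.const _, fun F => rfl⟩
  | succ K ih =>
    obtain ⟨s, f, hf, h⟩ := ih
    obtain ⟨g, hg, t, ht⟩ := rep_rep (v K)
    refine ⟨s ++ t, fun l => f (l.take s.length) ++ [g (l.drop s.length)], ?_, fun F => ?_⟩
    · refine ArF.prim₂ Primrec.list_append (hf.comp (ArF.of_primrec
        (Primrec.list_take.comp (Primrec.const _) Primrec.id))) ?_
      refine ArF.prim (g := fun n : ℕ => [n])
        (Primrec.list_cons.comp Primrec.id (Primrec.const [])) (hg.comp (ArF.of_primrec ?_))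
      have h1 : ∀ n : ℕ, Primrec (fun l : List ℕ => l.drop n) := by
        intro n
        induction n with
        | zero => exact Primrec.id
        | succ n ih =>
          exact (Primrec.list_tail.comp ih).of_eq fun l => by rw [List.tail_drop]
      exact h1 _
    · rw [List.range_succ, List.map_append, List.map_append, ← h]
      beta_reduce
      have h1 : (List.map (gen F) s).length = s.length := List.length_map _
      rw [List.take_left' h1, List.drop_left' h1, ← ht]
      rfl

/-- predicates of sequences of numbers which depend on finitely many entries and belong to the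
class -/
def ArC (P : (ℕ → ℕ) → Prop) : Prop :=
  (∃ K : ℕ, ∀ v w : ℕ → ℕ, (∀ i, i < K → v i = w i) → (P v ↔ P w)) ∧
    ArP (fun l : List ℕ => P (fun i => l.getD i 0))

/-- functions of sequences of numbers which depend on finitely many entries and belong to the
class -/
def ArT (t : (ℕ → ℕ) → ℕ) : Prop :=
  (∃ K : ℕ, ∀ v w : ℕ → ℕ, (∀ i, i < K → v i = w i) → t v = t w) ∧
    ArF (fun l : List ℕ => t (fun i => l.getD i 0))

/-- truth along the ultrafilter -/
def st (P : (ℕ → ℕ) → Prop) (v : ℕ → MM) : Prop :=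
  ∀ᶠ F in (D : Filter (Finset I)), P (fun i => rep (v i) F)

theorem st_not {P : (ℕ → ℕ) → Prop} {v : ℕ → MM} : st (fun v => ¬ P v) v ↔ ¬ st P v :=
  Ultrafilter.eventually_not

theorem st_and {P Q : (ℕ → ℕ) → Prop} {v : ℕ → MM} :
    st (fun v => P v ∧ Q v) v ↔ st P v ∧ st Q v := Filter.eventually_and

theorem cons_rep (y : MM) (v : ℕ → MM) (F : Finset I) :
    (fun i => rep (cons y v i) F) = cons (rep y F) (fun i => rep (v i) F) := by
  funext i
  cases i <;> rfl

theorem getD_cons (y : ℕ) (l : List ℕ) :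
    (fun i => (y :: l).getD i 0) = cons y (fun i => l.getD i 0) := by
  funext i
  cases i with
  | zero => rfl
  | succ i => exact List.getD_cons_succ

theorem getD_range (K : ℕ) (u : ℕ → ℕ) {i : ℕ} (hi : i < K) :
    ((List.range K).map u).getD i 0 = u i := by
  rw [List.getD_eq_getElem _ _ (by simpa using hi)]
  simp

/-- the theorem of Łoś for existential quantifiers -/
theorem st_ex {P : (ℕ → ℕ) → Prop} (hP : ArC P) {v : ℕ → MM} :
    st (fun v => ∃ y, P (cons y v)) v ↔ ∃ y, st P (cons y v) := by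
  constructor
  · intro h
    obtain ⟨⟨K, hK⟩, hA⟩ := hP
    obtain ⟨s, f, hf, hs⟩ := rep_list v K
    let g : List ℕ → ℕ := fun l => sInf {y | P (fun i => (y :: f l).getD i 0)}
    have hg : ArF g := by
      refine ArF.least (p := fun x : List ℕ × ℕ => P (fun i => (x.2 :: f x.1).getD i 0)) ?_
      refine ArP.comp (p := fun l : List ℕ => P (fun i => l.getD i 0))
        (f := fun x : List ℕ × ℕ => x.2 :: f x.1) hA ?_
      exact ArF.prim₂ (g := fun (a : ℕ) (l : List ℕ) => a :: l) Primrec.list_cons ArF.snd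
        (hf.comp ArF.fst)
    refine ⟨mk (fun F => g (s.map (gen F))) ⟨g, hg, s, fun F => rfl⟩, ?_⟩
    unfold st at h ⊢
    filter_upwards [h, rep_mk (fun F => g (s.map (gen F))) ⟨g, hg, s, fun F => rfl⟩]
      with F hF hF'
    rw [cons_rep, hF']
    have hset : {y | P (fun i => (y :: f (s.map (gen F))).getD i 0)} =
        {y | P (cons y (fun i => rep (v i) F))} := by
      ext y
      simp only [Set.mem_ofPred_eq]
      apply hK
      intro i hi
      cases i with
      | zero => rfl
      | succ i =>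
        rw [List.getD_cons_succ, hs, getD_range K _ (by omega)]
        rfl
    have h2 : sInf {y | P (cons y (fun i => rep (v i) F))} ∈
        {y | P (cons y (fun i => rep (v i) F))} := Nat.sInf_mem hF
    have h3 : g (s.map (gen F)) = sInf {y | P (cons y (fun i => rep (v i) F))} := by
      rw [← hset]
    rw [h3]
    exact h2
  · rintro ⟨y, hy⟩
    unfold st at hy ⊢
    filter_upwards [hy] with F hF
    rw [cons_rep] at hF
    exact ⟨rep y F, hF⟩

theorem ArC.congr {P Q : (ℕ → ℕ) → Prop} (hP : ArC P) (h : ∀ v, Q v ↔ P v) : ArC Q := by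
  have : Q = P := funext fun v => propext (h v)
  rw [this]
  exact hP

theorem ArC.not {P : (ℕ → ℕ) → Prop} (hP : ArC P) : ArC (fun v => ¬ P v) := by
  obtain ⟨⟨K, hK⟩, hA⟩ := hP
  exact ⟨⟨K, fun v w h => not_congr (hK v w h)⟩, hA.not⟩

theorem ArC.and {P Q : (ℕ → ℕ) → Prop} (hP : ArC P) (hQ : ArC Q) :
    ArC (fun v => P v ∧ Q v) := by
  obtain ⟨⟨K, hK⟩, hA⟩ := hP
  obtain ⟨⟨L, hL⟩, hB⟩ := hQ
  exact ⟨⟨max K L, fun v w h => and_congr (hK v w fun i hi => h i (lt_max_of_lt_left hi))
    (hL v w fun i hi => h i (lt_max_of_lt_right hi))⟩, hA.and hB⟩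

theorem ArC.ex {P : (ℕ → ℕ) → Prop} (hP : ArC P) : ArC (fun v => ∃ y, P (cons y v)) := by
  obtain ⟨⟨K, hK⟩, hA⟩ := hP
  refine ⟨⟨K, fun v w h => exists_congr fun y => hK _ _ fun i hi => ?_⟩, ?_⟩
  · cases i with
    | zero => rfl
    | succ i => exact h i (by omega)
  · have h1 : ArP (fun x : List ℕ × ℕ => P (fun i => (x.2 :: x.1).getD i 0)) :=
      hA.comp (f := fun x : List ℕ × ℕ => x.2 :: x.1) (ArF.of_primrec
        (Primrec.list_cons.comp Primrec.snd Primrec.fst))
    refine h1.ex.congr fun l => ?_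
    simp only [getD_cons]

theorem ArC.subst {P : (ℕ → ℕ) → Prop} (hP : ArC P) {g : (ℕ → ℕ) → ℕ → ℕ}
    (hg : ∀ i, ArT (fun v => g v i)) : ArC (fun v => P (g v)) := by
  obtain ⟨⟨K, hK⟩, hA⟩ := hP
  choose L hL using fun i => (hg i).1
  refine ⟨⟨(Finset.range K).sup L, fun v w h => hK _ _ fun i hi => hL i v w fun j hj => h j ?_⟩, ?_⟩
  · exact lt_of_lt_of_le hj (Finset.le_sup (f := L) (Finset.mem_range.2 hi))
  · have h1 : ∀ K : ℕ, ArF (fun l : List ℕ => (List.range K).map (g (fun i => l.getD i 0))) := by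
      intro K
      induction K with
      | zero => exact ArF.const []
      | succ K ih =>
        refine ArF.congr (ArF.prim₂ Primrec.list_append ih (ArF.prim (g := fun n : ℕ => [n])
          (Primrec.list_cons.comp Primrec.id (Primrec.const [])) (hg K).2)) fun l => ?_
        rw [List.range_succ, List.map_append]
        rfl
    refine (hA.comp (h1 K)).congr fun l => ?_
    apply hK
    intro i hi
    rw [getD_range K _ hi]

theorem st_congr {P : (ℕ → ℕ) → Prop} (hP : ArC P) {g : (ℕ → ℕ) → ℕ → ℕ} {v w : ℕ → MM}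
    (h : ∀ i, ∀ᶠ F in (D : Filter (Finset I)), rep (w i) F = g (fun j => rep (v j) F) i) :
    st P w ↔ st (fun v => P (g v)) v := by
  obtain ⟨⟨K, hK⟩, _⟩ := hP
  have h1 : ∀ᶠ F in (D : Filter (Finset I)), ∀ i ∈ Finset.range K,
      rep (w i) F = g (fun j => rep (v j) F) i :=
    (Filter.eventually_all_finset _).2 fun i _ => h i
  unfold st
  apply Filter.eventually_congr
  filter_upwards [h1] with F hF
  exact hK _ _ fun i hi => hF i (Finset.mem_range.2 hi)

/-- new elements of the model -/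
noncomputable def app (t : (ℕ → ℕ) → ℕ) (v : ℕ → MM) : MM := by
  classical
  exact if h : Rep (fun F => t (fun i => rep (v i) F)) then mk _ h else mk _
    ⟨fun _ => 0, ArF.const 0, [], fun _ => rfl⟩

theorem rep_app {t : (ℕ → ℕ) → ℕ} (ht : ArT t) (v : ℕ → MM) :
    ∀ᶠ F in (D : Filter (Finset I)), rep (app t v) F = t (fun i => rep (v i) F) := by
  have h : Rep (fun F => t (fun i => rep (v i) F)) := by
    obtain ⟨⟨K, hK⟩, hA⟩ := ht
    obtain ⟨s, f, hf, hs⟩ := rep_list v K
    refine ⟨fun l => t (fun i => (f l).getD i 0), hA.comp hf, s, fun F => ?_⟩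
    apply hK
    intro i hi
    rw [hs, getD_range K _ hi]
  unfold app
  rw [dif_pos h]
  exact rep_mk _ h

theorem ArT.var (i : ℕ) : ArT (fun v => v i) :=
  ⟨⟨i + 1, fun _ _ h => h i (Nat.lt_succ_self i)⟩,
    ArF.of_primrec ((Primrec.list_getD 0).comp Primrec.id (Primrec.const i))⟩

theorem ArT.const (n : ℕ) : ArT (fun _ => n) :=
  ⟨⟨0, fun _ _ _ => rfl⟩, ArF.const n⟩

theorem ArT.comp₂ {h : ℕ → ℕ → ℕ} (hh : ArF (fun x : ℕ × ℕ => h x.1 x.2)) {s t : (ℕ → ℕ) → ℕ}
    (hs : ArT s) (ht : ArT t) : ArT (fun v => h (s v) (t v)) := by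
  obtain ⟨⟨K, hK⟩, hA⟩ := hs
  obtain ⟨⟨L, hL⟩, hB⟩ := ht
  refine ⟨⟨max K L, fun v w h => ?_⟩, hh.comp (hA.pair hB)⟩
  beta_reduce
  rw [hK v w fun i hi => h i (lt_max_of_lt_left hi),
    hL v w fun i hi => h i (lt_max_of_lt_right hi)]

theorem ArT.comp₁ {h : ℕ → ℕ} (hh : ArF h) {s : (ℕ → ℕ) → ℕ}
    (hs : ArT s) : ArT (fun v => h (s v)) := by
  obtain ⟨⟨K, hK⟩, hA⟩ := hs
  refine ⟨⟨K, fun v w h => ?_⟩, hh.comp hA⟩
  beta_reduce
  rw [hK v w h]

theorem ArT.add {s t : (ℕ → ℕ) → ℕ} (hs : ArT s) (ht : ArT t) : ArT (fun v => s v + t v) :=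
  ArT.comp₂ (ArF.of_primrec Primrec.nat_add) hs ht

theorem ArT.mul {s t : (ℕ → ℕ) → ℕ} (hs : ArT s) (ht : ArT t) : ArT (fun v => s v * t v) :=
  ArT.comp₂ (ArF.of_primrec Primrec.nat_mul) hs ht

theorem ArT.pr {s t : (ℕ → ℕ) → ℕ} (hs : ArT s) (ht : ArT t) : ArT (fun v => pr (s v) (t v)) :=
  ArT.comp₂ (ArF.of_primrec primrec_pr) hs ht

theorem ArC.eq {s t : (ℕ → ℕ) → ℕ} (hs : ArT s) (ht : ArT t) : ArC (fun v => s v = t v) := by
  obtain ⟨⟨K, hK⟩, hA⟩ := hs
  obtain ⟨⟨L, hL⟩, hB⟩ := ht
  refine ⟨⟨max K L, fun v w h => ?_⟩, ArP.eq hA hB⟩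
  beta_reduce
  rw [hK v w fun i hi => h i (lt_max_of_lt_left hi),
    hL v w fun i hi => h i (lt_max_of_lt_right hi)]

theorem ArC.lt {s t : (ℕ → ℕ) → ℕ} (hs : ArT s) (ht : ArT t) : ArC (fun v => s v < t v) := by
  obtain ⟨⟨K, hK⟩, hA⟩ := hs
  obtain ⟨⟨L, hL⟩, hB⟩ := ht
  refine ⟨⟨max K L, fun v w h => ?_⟩, ArP.lt hA hB⟩
  beta_reduce
  rw [hK v w fun i hi => h i (lt_max_of_lt_left hi),
    hL v w fun i hi => h i (lt_max_of_lt_right hi)]

theorem ArC.mem {A : Set ℕ} (hA : Ar A) {t : (ℕ → ℕ) → ℕ} (ht : ArT t) :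
    ArC (fun v => t v ∈ A) := by
  obtain ⟨⟨L, hL⟩, hB⟩ := ht
  refine ⟨⟨L, fun v w h => ?_⟩, ?_⟩
  · beta_reduce
    rw [hL v w h]
  · exact ArP.comp (p := fun n : ℕ => n ∈ A) ⟨A, hA, fun n => Iff.rfl⟩ hB

/-- the number `0` of the model -/
def pt : MM := mk (fun _ => 0) ⟨fun _ => 0, ArF.const 0, [], fun _ => rfl⟩

/-- the model -/
@[reducible] noncomputable def NN : L2Structure.{0} where
  M := MM
  zero := app (fun _ => 0) (fun _ => pt)
  one := app (fun _ => 1) (fun _ => pt)
  add := fun m n => app (fun v => v 0 + v 1) (cons m (fun _ => n))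
  mul := fun m n => app (fun v => v 0 * v 1) (cons m (fun _ => n))
  lt := fun m n => ∀ᶠ F in (D : Filter (Finset I)), rep m F < rep n F
  Sets := {X | ∃ A, Ar A ∧ ∃ p : MM, X = {z | ∀ᶠ F in (D : Filter (Finset I)),
    pr (rep p F) (rep z F) ∈ A}}

theorem rep_zero : ∀ᶠ F in (D : Filter (Finset I)), rep NN.zero F = 0 := rep_app (ArT.const 0) (fun _ => pt)

theorem rep_one : ∀ᶠ F in (D : Filter (Finset I)), rep NN.one F = 1 := rep_app (ArT.const 1) (fun _ => pt)

theorem rep_add (m n : MM) : ∀ᶠ F in (D : Filter (Finset I)),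
    rep (NN.add m n) F = rep m F + rep n F :=
  rep_app ((ArT.var 0).add (ArT.var 1)) (cons m (fun _ => n))

theorem rep_mul (m n : MM) : ∀ᶠ F in (D : Filter (Finset I)),
    rep (NN.mul m n) F = rep m F * rep n F :=
  rep_app ((ArT.var 0).mul (ArT.var 1)) (cons m (fun _ => n))

theorem rep_pair (m n : MM) : ∀ᶠ F in (D : Filter (Finset I)),
    rep (NN.pair m n) F = pr (rep m F) (rep n F) := by
  filter_upwards [rep_add m n, rep_mul (NN.add m n) (NN.add m n),
    rep_add (NN.mul (NN.add m n) (NN.add m n)) m] with F h1 h2 h3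
  unfold L2Structure.pair
  rw [h3, h2, h1]
  rfl

end Pool.Agent.Y579.HR
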