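import Mathlib
import Pool.Agent.Y579.HR.Rca
import Pool.Agent.Y579.HR.Defs

/-!
Standard elements of the model, its cofinality, and the elements below the first generator.
-/

namespace Pool.Agent.Y579.HR

open Encodable Filter Pool.Agent.Helper617.RM

/-- the standard elements -/
noncomputable def ι (n : ℕ) : MM := app (fun _ => n) (fun _ => pt)

theorem rep_ι (n : ℕ) : ∀ᶠ F in (D : Filter (Finset I)), rep (ι n) F = n :=
  rep_app (ArT.const n) (fun _ => pt)

theorem ι_zero : ι 0 = NN.zero := rfl

theorem ι_succ (n : ℕ) : ι (n + 1) = NN.add (ι n) NN.one := by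
  apply of_rep
  filter_upwards [rep_ι (n + 1), rep_ι n, rep_add (ι n) NN.one, rep_one] with F h1 h2 h3 h4
  rw [h1, h3, h2, h4]

theorem ι_one : ι 1 = NN.one := rfl

theorem false_of {p : Prop} (h : ∀ᶠ _ in (D : Filter (Finset I)), p) : p := h.exists.elim fun _ h => h

theorem ι_inj {m n : ℕ} (h : ι m = ι n) : m = n := by
  apply false_of
  filter_upwards [ext_iff.1 h, rep_ι m, rep_ι n] with F h1 h2 h3
  rw [h2, h3] at h1
  exact h1

theorem lt_ι {m : MM} {k : ℕ} (h : NN.lt m (ι k)) : ∃ j < k, m = ι j := by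
  induction k with
  | zero => exact absurd h (IsModelRCA0.ax_not_lt_zero (N := NN) m)
  | succ k ih =>
    rw [ι_succ] at h
    rcases lt_succ_iff'.1 h with h | h
    · obtain ⟨j, hj, rfl⟩ := ih h
      exact ⟨j, by omega, rfl⟩
    · exact ⟨k, by omega, h⟩

theorem lt_tri (m n : MM) : NN.lt m n ∨ m = n ∨ NN.lt n m := by
  rw [ext_iff]
  change (∀ᶠ F in (D : Filter (Finset I)), rep m F < rep n F) ∨
    (∀ᶠ F in (D : Filter (Finset I)), rep m F = rep n F) ∨
    (∀ᶠ F in (D : Filter (Finset I)), rep n F < rep m F)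
  rw [← Ultrafilter.eventually_or, ← Ultrafilter.eventually_or]
  exact Filter.Eventually.of_forall fun F => by omega

theorem lt_irrefl' (m : MM) : ¬ NN.lt m m := by
  intro h
  apply false_of
  have h' : ∀ᶠ F in (D : Filter (Finset I)), rep m F < rep m F := h
  filter_upwards [h'] with F h1
  exact lt_irrefl _ h1

theorem lt_trans' {m n k : MM} (h : NN.lt m n) (h' : NN.lt n k) : NN.lt m k := by
  have h1 : ∀ᶠ F in (D : Filter (Finset I)), rep m F < rep n F := h
  have h2 : ∀ᶠ F in (D : Filter (Finset I)), rep n F < rep k F := h'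
  change ∀ᶠ F in (D : Filter (Finset I)), rep m F < rep k F
  filter_upwards [h1, h2] with F h3 h4
  exact lt_trans h3 h4

theorem nonstd {m : MM} (h : ∀ k, m ≠ ι k) (k : ℕ) : NN.lt (ι k) m := by
  rcases lt_tri (ι k) m with h1 | h1 | h1
  · exact h1
  · exact absurd h1.symm (h k)
  · obtain ⟨j, _, hj⟩ := lt_ι h1
    exact absurd hj (h j)

/-- the generators -/
noncomputable def cM (i : I) : MM := mk (fun F => gen F i)
  ⟨fun l => l.getD 0 0, ArF.of_primrec ((Primrec.list_getD 0).comp Primrec.id (Primrec.const 0)),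
    [i], fun F => by simp⟩

theorem rep_cM (i : I) : ∀ᶠ F in (D : Filter (Finset I)), rep (cM i) F = gen F i := rep_mk _ _

theorem cM_nonstd (i : I) (k : ℕ) : NN.lt (ι k) (cM i) := by
  change ∀ᶠ F in (D : Filter (Finset I)), rep (ι k) F < rep (cM i) F
  filter_upwards [rep_ι k, rep_cM i, gen_large i k] with F h1 h2 h3
  rw [h1, h2]
  exact h3

/-- the cofinality of the model is uncountable -/
theorem cofinality (m : ℕ → MM) : ∃ c, ∀ j, NN.lt (m j) c := by
  choose f hf s hs using fun j => rep_rep (m j)
  obtain ⟨i, hi⟩ := exists_above (fun n => (s n.unpair.1).getD n.unpair.2 i0)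
  refine ⟨cM i, fun j => ?_⟩
  have hlt : ∀ k ∈ s j, k < i := by
    intro k hk
    obtain ⟨n, hn, rfl⟩ := List.mem_iff_getElem.1 hk
    have := hi (Nat.pair j n)
    simp only [Nat.unpair_pair] at this
    rw [List.getD_eq_getElem _ _ hn] at this
    exact this
  obtain ⟨k, hk⟩ := G_surj (hf j)
  change ∀ᶠ F in (D : Filter (Finset I)), rep (m j) F < rep (cM i) F
  filter_upwards [gen_spec k (s j) i hlt, rep_cM i] with F h1 h2
  rw [h2, hs j F, ← hk]
  exact h1.1

/-- `m` depends on the generators in `t` -/
def Sup (t : List I) (m : MM) : Prop :=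
  ∃ f : List ℕ → ℕ, ArF f ∧ ∀ᶠ F in (D : Filter (Finset I)), rep m F = f (t.map (gen F))

theorem Sup.mono {s t : List I} (h : ∀ i ∈ s, i ∈ t) {m : MM} (hm : Sup s m) : Sup t m := by
  obtain ⟨f, hf, hm⟩ := hm
  refine ⟨fun l => f ((s.map (fun i => t.idxOf i)).map (fun k => l.getD k 0)), hf.comp
    (ArF.of_primrec ?_), ?_⟩
  · exact Primrec.list_map (Primrec.const _)
      ((Primrec.list_getD 0).comp Primrec.fst Primrec.snd).to₂
  · filter_upwards [hm] with F hF
    rw [hF]
    congr 1
    rw [List.map_map]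
    apply List.map_congr_left
    intro i hi
    have h1 : t.idxOf i < t.length := List.idxOf_lt_length_iff.2 (h i hi)
    simp only [Function.comp]
    rw [List.getD_eq_getElem _ _ (by simpa using h1)]
    simp

theorem down (T : Finset I) : ∀ m : MM, ¬ NN.lt (cM i0) m → Sup (i0 :: T.toList) m →
    Sup [i0] m := by
  induction T using Finset.induction_on_max with
  | empty =>
    intro m _ h
    simpa using h
  | insert i T hT ih =>
    intro m hm h
    by_cases hi : i = i0
    · refine ih m hm (h.mono ?_)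
      intro j hj
      simp only [List.mem_cons, Finset.mem_toList, Finset.mem_insert] at hj ⊢
      rcases hj with h1 | h1 | h1
      · exact Or.inl h1
      · exact Or.inl (h1.trans hi)
      · exact Or.inr h1
    · have hi' : i0 < i := lt_of_le_of_ne (i0_le i) (Ne.symm hi)
      have h2 : Sup (i :: i0 :: T.toList) m := h.mono (by
        intro j hj
        simp only [List.mem_cons, Finset.mem_toList, Finset.mem_insert] at hj ⊢
        tauto)
      obtain ⟨f, hf, hm'⟩ := h2
      obtain ⟨k, rfl⟩ := G_surj hf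
      refine ih m hm ⟨lim k, lim_ar k, ?_⟩
      have hle : ∀ᶠ F in (D : Filter (Finset I)), ¬ rep (cM i0) F < rep m F :=
        Ultrafilter.eventually_not.2 hm
      filter_upwards [hm', gen_spec k (i0 :: T.toList) i (by
        intro j hj
        simp only [List.mem_cons, Finset.mem_toList] at hj
        rcases hj with rfl | hj
        · exact hi'
        · exact hT j hj), hle, rep_cM i0] with F h3 h4 h5 h6
      rw [← h4.2, h3, List.map_cons]
      rw [h6, h3, List.map_cons, List.map_cons] at h5
      rw [List.map_cons, List.sum_cons]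
      omega

/-- every element below the first generator is a function of it -/
theorem below {m : MM} (h : ¬ NN.lt (cM i0) m) : ∃ f : List ℕ → ℕ, ArF f ∧
    ∀ᶠ F in (D : Filter (Finset I)), rep m F = f [gen F i0] := by
  obtain ⟨f, hf, s, hs⟩ := rep_rep m
  have h1 : Sup s m := ⟨f, hf, Filter.Eventually.of_forall hs⟩
  have h2 : Sup (i0 :: s.toFinset.toList) m := h1.mono (by
    intro i hi
    simp [hi])
  exact down s.toFinset m h h2

end Pool.Agent.Y579.HR
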