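import Mathlib
import Pool.Agent.Y579.HR.Std

/-!
The scheme of `Σ¹₁` choice fails in the model.
-/

namespace Pool.Agent.Y579.HR

open Encodable Filter Pool.Agent.Helper617.RM

/-- the set of the model given by a set of natural numbers -/
def star (A : Set ℕ) : Set NN.M := {z | ∀ᶠ F in (D : Filter (Finset I)), rep z F ∈ A}

theorem mem_star {A : Set ℕ} {z : NN.M} :
    z ∈ star A ↔ ∀ᶠ F in (D : Filter (Finset I)), rep z F ∈ A := Iff.rfl

theorem star_mem {A : Set ℕ} (hA : Ar A) : star A ∈ NN.Sets := by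
  refine ⟨{x | snd' x ∈ A}, hA.comp primrec_snd', pt, ?_⟩
  ext z
  rw [mem_star, Set.mem_ofPred_eq]
  apply Filter.eventually_congr
  refine Filter.Eventually.of_forall fun F => ?_
  rw [Set.mem_ofPred_eq, snd'_pr]

theorem pair_mem_star {A : Set ℕ} {x y : NN.M} : NN.pair x y ∈ star A ↔
    ∀ᶠ F in (D : Filter (Finset I)), pr (rep x F) (rep y F) ∈ A := by
  rw [mem_star]
  apply Filter.eventually_congr
  filter_upwards [rep_pair x y] with F h
  rw [h]

theorem ιeq (k : ℕ) (x : MM) : x = ι k ↔ ∀ᶠ F in (D : Filter (Finset I)), rep x F = k := by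
  rw [ext_iff]
  apply Filter.eventually_congr
  filter_upwards [rep_ι k] with F h
  rw [h]

theorem ArC.or {P Q : (ℕ → ℕ) → Prop} (hP : ArC P) (hQ : ArC Q) :
    ArC (fun v => P v ∨ Q v) := (hP.not.and hQ.not).not.congr fun v => by tauto

/-- the inner part of the definition of the operation -/
def Jin (Y : Set ℕ) (v : ℕ → ℕ) : Prop :=
  v 4 = pr (pr (v 3) (pr (v 2) (v 1))) (v 0) ∧
    ((v 3 = 0 ∧ pr (v 2) (v 0) ∉ Y) ∨
     (v 3 = 1 ∧ pr (v 2) (v 0) ∈ Y ∧ pr (v 1) (v 0) ∈ Y) ∨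
     (v 3 = 1 + 1 ∧ ∃ y, pr (v 2) (pr (v 0) y) ∈ Y) ∨
     (v 3 = 1 + 1 + 1 ∧ ∃ a y, v 0 = pr a y ∧ pr (v 2) y ∈ Y) ∨
     (v 3 = 1 + 1 + 1 + 1 ∧ v 0 ∈ Y) ∨
     (v 3 = 1 + 1 + 1 + 1 + 1 ∧ pr (v 2) (pr (v 1) (v 0)) ∈ Y))

theorem arC_Jin {Y : Set ℕ} (hY : Ar Y) : ArC (Jin Y) := by
  have e1 : ArC (fun v => ∃ y, pr (v 2) (pr (v 0) y) ∈ Y) :=
    ArC.ex (P := fun v => pr (v 3) (pr (v 1) (v 0)) ∈ Y)
      (ArC.mem hY ((ArT.var 3).pr ((ArT.var 1).pr (ArT.var 0))))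
  have e2 : ArC (fun v => ∃ a y, v 0 = pr a y ∧ pr (v 2) y ∈ Y) := by
    refine ArC.ex (P := fun v => ∃ y, v 1 = pr (v 0) y ∧ pr (v 3) y ∈ Y) ?_
    exact ArC.ex (P := fun v => v 2 = pr (v 1) (v 0) ∧ pr (v 4) (v 0) ∈ Y)
      ((ArC.eq (ArT.var 2) ((ArT.var 1).pr (ArT.var 0))).and
        (ArC.mem hY ((ArT.var 4).pr (ArT.var 0))))
  refine (ArC.eq (ArT.var 4) (((ArT.var 3).pr ((ArT.var 2).pr (ArT.var 1))).pr (ArT.var 0))).and ?_
  refine ((ArC.eq (ArT.var 3) (ArT.const _)).and (ArC.mem hY ((ArT.var 2).pr (ArT.var 0))).not).or ?_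
  refine ((ArC.eq (ArT.var 3) (ArT.const _)).and ((ArC.mem hY ((ArT.var 2).pr (ArT.var 0))).and
    (ArC.mem hY ((ArT.var 1).pr (ArT.var 0))))).or ?_
  refine ((ArC.eq (ArT.var 3) (ArT.const _)).and e1).or ?_
  refine ((ArC.eq (ArT.var 3) (ArT.const _)).and e2).or ?_
  refine ((ArC.eq (ArT.var 3) (ArT.const _)).and (ArC.mem hY (ArT.var 0))).or ?_
  exact ((ArC.eq (ArT.var 3) (ArT.const _)).and
    (ArC.mem hY ((ArT.var 2).pr ((ArT.var 1).pr (ArT.var 0)))))

/-- the operation of the model agrees with the standard one -/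
theorem JN_star {Y : Set ℕ} (hY : Ar Y) : JN NN (star Y) = star (J Y) := by
  ext x
  have h1 : x ∈ star (J Y) ↔
      st (fun v => ∃ t, ∃ e1, ∃ e2, ∃ z, Jin Y (cons z (cons e2 (cons e1 (cons t v)))))
        (fun _ => x) := by
    rw [mem_star]
    exact Iff.rfl
  have a1 := arC_Jin hY
  have a2 : ArC (fun v => ∃ z, Jin Y (cons z v)) := a1.ex
  have a3 : ArC (fun v => ∃ e2, ∃ z, Jin Y (cons z (cons e2 v))) := a2.ex
  have a4 : ArC (fun v => ∃ e1, ∃ e2, ∃ z, Jin Y (cons z (cons e2 (cons e1 v)))) := a3.ex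
  rw [h1, st_ex a4]
  unfold JN
  rw [Set.mem_ofPred_eq]
  refine exists_congr fun t => ?_
  rw [st_ex a3]
  refine exists_congr fun e1 => ?_
  rw [st_ex a2]
  refine exists_congr fun e2 => ?_
  rw [st_ex a1]
  refine exists_congr fun z => ?_
  -- the atomic parts
  have b0 : x = NN.pair (NN.pair t (NN.pair e1 e2)) z ↔ ∀ᶠ F in (D : Filter (Finset I)),
      rep x F = pr (pr (rep t F) (pr (rep e1 F) (rep e2 F))) (rep z F) := by
    rw [ext_iff]
    apply Filter.eventually_congr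
    filter_upwards [rep_pair (NN.pair t (NN.pair e1 e2)) z, rep_pair t (NN.pair e1 e2),
      rep_pair e1 e2] with F h2 h3 h4
    rw [h2, h3, h4]
  have b1 : t = NN.zero ↔ ∀ᶠ F in (D : Filter (Finset I)), rep t F = 0 := ιeq 0 t
  have b2 : t = NN.one ↔ ∀ᶠ F in (D : Filter (Finset I)), rep t F = 1 := ιeq 1 t
  have b3 : t = NN.add NN.one NN.one ↔ ∀ᶠ F in (D : Filter (Finset I)), rep t F = 1 + 1 := by
    rw [← ιeq (1 + 1) t, ι_succ 1, ι_one]
  have b4 : t = NN.add (NN.add NN.one NN.one) NN.one ↔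
      ∀ᶠ F in (D : Filter (Finset I)), rep t F = 1 + 1 + 1 := by
    rw [← ιeq (1 + 1 + 1) t, ι_succ (1 + 1), ι_succ 1, ι_one]
  have b5 : t = NN.add (NN.add (NN.add NN.one NN.one) NN.one) NN.one ↔
      ∀ᶠ F in (D : Filter (Finset I)), rep t F = 1 + 1 + 1 + 1 := by
    rw [← ιeq (1 + 1 + 1 + 1) t, ι_succ (1 + 1 + 1), ι_succ (1 + 1), ι_succ 1, ι_one]
  have b6 : t = NN.add (NN.add (NN.add (NN.add NN.one NN.one) NN.one) NN.one) NN.one ↔
      ∀ᶠ F in (D : Filter (Finset I)), rep t F = 1 + 1 + 1 + 1 + 1 := by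
    rw [← ιeq (1 + 1 + 1 + 1 + 1) t, ι_succ (1 + 1 + 1 + 1), ι_succ (1 + 1 + 1),
      ι_succ (1 + 1), ι_succ 1, ι_one]
  have c1 : (∃ y, NN.pair e1 (NN.pair z y) ∈ star Y) ↔
      ∀ᶠ F in (D : Filter (Finset I)), ∃ y, pr (rep e1 F) (pr (rep z F) y) ∈ Y := by
    have := st_ex (P := fun v => pr (v 2) (pr (v 1) (v 0)) ∈ Y)
      (ArC.mem hY ((ArT.var 2).pr ((ArT.var 1).pr (ArT.var 0)))) (v := cons z (fun _ => e1))
    refine Iff.trans ?_ this.symm
    refine exists_congr fun y => ?_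
    rw [pair_mem_star]
    apply Filter.eventually_congr
    filter_upwards [rep_pair z y] with F h2
    rw [h2]
    rfl
  have c2 : (∃ a y, z = NN.pair a y ∧ NN.pair e1 y ∈ star Y) ↔
      ∀ᶠ F in (D : Filter (Finset I)), ∃ a y, rep z F = pr a y ∧ pr (rep e1 F) y ∈ Y := by
    have hA : ArC (fun v => v 2 = pr (v 1) (v 0) ∧ pr (v 3) (v 0) ∈ Y) :=
      (ArC.eq (ArT.var 2) ((ArT.var 1).pr (ArT.var 0))).and
        (ArC.mem hY ((ArT.var 3).pr (ArT.var 0)))
    have h2 := st_ex (P := fun v => ∃ y, v 1 = pr (v 0) y ∧ pr (v 2) y ∈ Y) hA.ex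
      (v := cons z (fun _ => e1))
    refine Iff.trans ?_ h2.symm
    refine exists_congr fun a => ?_
    have h3 := st_ex hA (v := cons a (cons z (fun _ => e1)))
    refine Iff.trans ?_ h3.symm
    refine exists_congr fun y => ?_
    rw [pair_mem_star, ext_iff, ← Filter.eventually_and]
    apply Filter.eventually_congr
    filter_upwards [rep_pair a y] with F h4
    rw [h4]
    rfl
  have c3 : NN.pair e1 (NN.pair e2 z) ∈ star Y ↔
      ∀ᶠ F in (D : Filter (Finset I)), pr (rep e1 F) (pr (rep e2 F) (rep z F)) ∈ Y := by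
    rw [pair_mem_star]
    apply Filter.eventually_congr
    filter_upwards [rep_pair e2 z] with F h2
    rw [h2]
  have c4 : NN.pair e1 z ∉ star Y ↔
      ∀ᶠ F in (D : Filter (Finset I)), pr (rep e1 F) (rep z F) ∉ Y := by
    rw [pair_mem_star, ← Ultrafilter.eventually_not]
  rw [b0, b1, b2, b3, b4, b5, b6, c1, c2, c3, c4, pair_mem_star, pair_mem_star, mem_star]
  simp only [← Filter.eventually_and, ← Ultrafilter.eventually_or]
  exact Iff.rfl

/-- every stage of the hierarchy, and the finite joins of the stages -/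
def Join (l : ℕ) : Set ℕ := {x | ∃ i, i ≤ l ∧ ∃ z, x = pr i z ∧ z ∈ U i}

theorem ar_join (l : ℕ) : Ar (Join l) := by
  have h0 : ∀ i, Ar {x | pr (fst' x) (snd' x) = x ∧ fst' x = i ∧ snd' x ∈ U i} := by
    intro i
    have h1 : Ar {x | pr (fst' x) (snd' x) = x ∧ fst' x = i} :=
      Ar.of_pred (PrimrecPred.and
        (Primrec.eq.comp (primrec_pr.comp primrec_fst' primrec_snd') Primrec.id)
        (Primrec.eq.comp primrec_fst' (Primrec.const i)))
    exact (h1.inter ((Ar.stage i).comp primrec_snd')).congr fun z => by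
      simp only [Set.mem_ofPred_eq, and_assoc]
  have h0' : ∀ i, Ar {x | ∃ z, x = pr i z ∧ z ∈ U i} := by
    intro i
    refine (h0 i).congr fun x => ?_
    constructor
    · rintro ⟨z, rfl, hz⟩
      exact ⟨by rw [fst'_pr, snd'_pr], fst'_pr _ _, by rw [snd'_pr]; exact hz⟩
    · rintro ⟨h1, h2, h3⟩
      exact ⟨snd' x, by rw [← h2]; exact h1.symm, h3⟩
  induction l with
  | zero =>
    refine (h0' 0).congr fun x => ?_
    constructor
    · rintro ⟨i, hi, h⟩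
      obtain rfl : i = 0 := by omega
      exact h
    · intro h
      exact ⟨0, le_rfl, h⟩
  | succ l ih =>
    refine ((ih.compl.inter (h0' (l + 1)).compl).compl).congr fun x => ?_
    simp only [Set.mem_ofPred_eq, not_and, not_not]
    constructor
    · rintro ⟨i, hi, h⟩ h'
      rcases Nat.lt_or_ge l i with h2 | h2
      · obtain rfl : i = l + 1 := by omega
        exact h
      · exact absurd ⟨i, h2, h⟩ h'
    · intro h
      by_cases h' : x ∈ Join l
      · obtain ⟨i, hi, h2⟩ := h'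
        exact ⟨i, by omega, h2⟩
      · exact ⟨l + 1, le_rfl, h h'⟩

theorem sec_join {l i : ℕ} (hi : i ≤ l) : sec NN (star (Join l)) (ι i) = star (U i) := by
  ext z
  change NN.pair (ι i) z ∈ star (Join l) ↔ _
  rw [pair_mem_star, mem_star]
  apply Filter.eventually_congr
  filter_upwards [rep_ι i] with F h
  rw [h]
  constructor
  · rintro ⟨i', _, z', h1, h2⟩
    obtain ⟨rfl, rfl⟩ := pr_inj h1
    exact h2
  · intro h1
    exact ⟨i, hi, _, rfl, h1⟩

/-- `X` is a hierarchy of length `l` -/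
def Hier (l : MM) (X : Set MM) : Prop :=
  (∀ x, NN.pair NN.zero x ∈ X ↔ x ∈ star (U 0)) ∧
  ∀ i, NN.lt i l → ∀ x, NN.pair (NN.add i NN.one) x ∈ X ↔ x ∈ JN NN (sec NN X i)

theorem hier_join (l : ℕ) : Hier (ι l) (star (Join l)) := by
  constructor
  · intro x
    have := sec_join (Nat.zero_le l)
    rw [← this]
    exact Iff.rfl
  · intro i hi x
    obtain ⟨j, hj, rfl⟩ := lt_ι hi
    rw [sec_join hj.le, JN_star (Ar.stage j), ← ι_succ]
    change x ∈ sec NN (star (Join l)) (ι (j + 1)) ↔ _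
    rw [sec_join hj]
    rfl

theorem hier_stages {l : MM} {X : Set MM} (h : Hier l X) (k : ℕ) (hk : ∀ i < k, NN.lt (ι i) l) :
    sec NN X (ι k) = star (U k) := by
  induction k with
  | zero =>
    ext x
    exact h.1 x
  | succ k ih =>
    have ih' := ih fun i hi => hk i (by omega)
    ext x
    have h1 := h.2 (ι k) (hk k (Nat.lt_succ_self k)) x
    rw [ih', JN_star (Ar.stage k), ← ι_succ] at h1
    exact h1

/-- the length of a hierarchy of the model is standard -/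
theorem hier_std {l : MM} {X : Set MM} (hX : X ∈ NN.Sets) (h : Hier l X) : ∃ k, l = ι k := by
  by_contra hno
  push Not at hno
  have hlt := nonstd hno
  obtain ⟨A, hA, p, rfl⟩ := hX
  -- the diagonal set
  have hB : Ar {x | pr (fst' x) (pr (fst' (snd' x)) (pr (snd' (snd' x)) (snd' (snd' x)))) ∉ A} := by
    refine (hA.comp ?_).compl
    exact primrec_pr.comp primrec_fst' (primrec_pr.comp (primrec_fst'.comp primrec_snd')
      (primrec_pr.comp (primrec_snd'.comp primrec_snd') (primrec_snd'.comp primrec_snd')))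
  obtain ⟨j, e, he⟩ := hB
  let d : ℕ → ℕ := fun P => pr 5 (pr (pr 5 (pr e P)) (j + 2))
  have hd : ∀ P, pr (d P) (d P) ∈ U (j + 2) ↔ pr P (pr (j + 2) (pr (d P) (d P))) ∉ A := by
    intro P
    have h1 : ∀ y, pr (d P) y ∈ U (j + 2) ↔ pr (pr 5 (pr e P)) (pr (j + 2) y) ∈ U (j + 1) := by
      intro y
      change pr (d P) y ∈ J (U (j + 1)) ↔ _
      rw [mem_J]
      simp
    have h2 : ∀ y, pr (pr 5 (pr e P)) y ∈ U (j + 1) ↔ pr e (pr P y) ∈ U j := by
      intro y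
      change pr (pr 5 (pr e P)) y ∈ J (U j) ↔ _
      rw [mem_J]
      simp
    rw [h1, h2, ← he]
    simp only [Set.mem_ofPred_eq, fst'_pr, snd'_pr]
  have hda : ArT (fun v => d (v 0)) := by
    refine (ArT.var 0).comp₁ (ArF.of_primrec ?_)
    exact primrec_pr.comp (Primrec.const 5) (primrec_pr.comp (primrec_pr.comp (Primrec.const 5)
      (primrec_pr.comp (Primrec.const e) Primrec.id)) (Primrec.const (j + 2)))
  let dd : MM := app (fun v => d (v 0)) (fun _ => p)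
  have hdd : ∀ᶠ F in (D : Filter (Finset I)), rep dd F = d (rep p F) := rep_app hda (fun _ => p)
  have hs := hier_stages h (j + 2) fun i _ => hlt i
  have h3 : NN.pair dd dd ∈ star (U (j + 2)) ↔
      ∀ᶠ F in (D : Filter (Finset I)), pr (rep p F) (pr (j + 2) (pr (d (rep p F)) (d (rep p F)))) ∉ A := by
    rw [pair_mem_star]
    apply Filter.eventually_congr
    filter_upwards [hdd] with F hF
    rw [hF]
    exact hd _
  have h4 : NN.pair dd dd ∈ star (U (j + 2)) ↔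
      ∀ᶠ F in (D : Filter (Finset I)), pr (rep p F) (pr (j + 2) (pr (d (rep p F)) (d (rep p F)))) ∈ A := by
    rw [← hs]
    change NN.pair (ι (j + 2)) (NN.pair dd dd) ∈ {z | ∀ᶠ F in (D : Filter (Finset I)),
      pr (rep p F) (rep z F) ∈ A} ↔ _
    rw [Set.mem_ofPred_eq]
    apply Filter.eventually_congr
    filter_upwards [rep_pair (ι (j + 2)) (NN.pair dd dd), rep_ι (j + 2), rep_pair dd dd, hdd]
      with F h5 h6 h7 h8
    rw [h5, h6, h7, h8]
  rw [h3, Ultrafilter.eventually_not] at h4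
  tauto

/-- the relation for which choice fails -/
def Phi (X : Set MM) (n : MM) : Prop :=
  NN.lt (cM i0) n ∨ ∃ l, ∃ m, ∃ e, ¬ NN.lt l m ∧ ¬ NN.lt l e ∧ Hier l X ∧
    NN.pair m (NN.pair e (NN.pair (cM i0) n)) ∈ X ∧
    ∀ n', NN.pair m (NN.pair e (NN.pair (cM i0) n')) ∈ X → n' = n

theorem phi_exists (n : MM) : ∃ X ∈ NN.Sets, Phi X n := by
  by_cases hn : NN.lt (cM i0) n
  · exact ⟨star (Join 0), star_mem (ar_join 0), Or.inl hn⟩
  · obtain ⟨f, hf, hfn⟩ := below hn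
    have hA : ArP (fun x : ℕ => f [fst' x] = snd' x) := by
      refine ArP.eq (hf.comp (ArF.of_primrec ?_)) ar_snd'
      exact Primrec.list_cons.comp primrec_fst' (Primrec.const [])
    obtain ⟨A, hA, hA'⟩ := hA
    obtain ⟨m, e, he⟩ := hA
    have he' : ∀ x y, pr e (pr x y) ∈ U m ↔ f [x] = y := by
      intro x y
      rw [← he]
      have := hA' (pr x y)
      beta_reduce at this
      rw [Encodable.encode_nat, fst'_pr, snd'_pr] at this
      exact this.symm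
    refine ⟨star (Join (max m e)), star_mem (ar_join _), Or.inr ⟨ι (max m e), ι m, ι e, ?_, ?_,
      hier_join _, ?_, ?_⟩⟩
    · intro h
      obtain ⟨j, hj, hj'⟩ := lt_ι h
      have := ι_inj hj'
      omega
    · intro h
      obtain ⟨j, hj, hj'⟩ := lt_ι h
      have := ι_inj hj'
      omega
    · change NN.pair (ι e) (NN.pair (cM i0) n) ∈ sec NN (star (Join (max m e))) (ι m)
      rw [sec_join (le_max_left m e), pair_mem_star]
      filter_upwards [rep_pair (cM i0) n, rep_ι e, rep_cM i0, hfn] with F h1 h2 h3 h4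
      rw [h1, h2, h3, h4, he']
    · intro n' h
      have h' : NN.pair (ι e) (NN.pair (cM i0) n') ∈ sec NN (star (Join (max m e))) (ι m) := h
      rw [sec_join (le_max_left m e), pair_mem_star] at h'
      apply of_rep
      filter_upwards [h', rep_pair (cM i0) n', rep_ι e, rep_cM i0, hfn] with F h0 h1 h2 h3 h4
      rw [h1, h2, h3, he'] at h0
      rw [h4]
      exact h0.symm

/-- relations given by formulas -/
def IsF (P : (ℕ → Set MM) → (ℕ → MM) → Prop) : Prop :=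
  ∃ φ : SForm NN, ∀ Y v, φ.Holds Y v ↔ P Y v

/-- terms -/
def IsT (t : (ℕ → MM) → MM) : Prop := ∃ s : Term NN, ∀ v, s.val v = t v

theorem IsT.var (i : ℕ) : IsT (fun v => v i) := ⟨.var i, fun _ => rfl⟩
theorem IsT.const (a : MM) : IsT (fun _ => a) := ⟨.const a, fun _ => rfl⟩
theorem IsT.add {s t : (ℕ → MM) → MM} (hs : IsT s) (ht : IsT t) :
    IsT (fun v => NN.add (s v) (t v)) := by
  obtain ⟨s', hs⟩ := hs
  obtain ⟨t', ht⟩ := ht
  exact ⟨.add s' t', fun v => by beta_reduce; rw [← hs, ← ht]; rfl⟩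
theorem IsT.mul {s t : (ℕ → MM) → MM} (hs : IsT s) (ht : IsT t) :
    IsT (fun v => NN.mul (s v) (t v)) := by
  obtain ⟨s', hs⟩ := hs
  obtain ⟨t', ht⟩ := ht
  exact ⟨.mul s' t', fun v => by beta_reduce; rw [← hs, ← ht]; rfl⟩
theorem IsT.pair {s t : (ℕ → MM) → MM} (hs : IsT s) (ht : IsT t) :
    IsT (fun v => NN.pair (s v) (t v)) := ((hs.add ht).mul (hs.add ht)).add hs

section

variable {P Q : (ℕ → Set MM) → (ℕ → MM) → Prop}

theorem IsF.congr (hP : IsF P) (h : ∀ Y v, Q Y v ↔ P Y v) : IsF Q := by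
  obtain ⟨φ, hφ⟩ := hP
  exact ⟨φ, fun Y v => (hφ Y v).trans (h Y v).symm⟩

theorem IsF.not (hP : IsF P) : IsF (fun Y v => ¬ P Y v) := by
  obtain ⟨φ, hφ⟩ := hP
  exact ⟨.neg φ, fun Y v => not_congr (hφ Y v)⟩

theorem IsF.and (hP : IsF P) (hQ : IsF Q) : IsF (fun Y v => P Y v ∧ Q Y v) := by
  obtain ⟨φ, hφ⟩ := hP
  obtain ⟨ψ, hψ⟩ := hQ
  exact ⟨.and φ ψ, fun Y v => and_congr (hφ Y v) (hψ Y v)⟩

theorem IsF.or (hP : IsF P) (hQ : IsF Q) : IsF (fun Y v => P Y v ∨ Q Y v) :=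
  (hP.not.and hQ.not).not.congr fun Y v => by tauto

theorem IsF.imp (hP : IsF P) (hQ : IsF Q) : IsF (fun Y v => P Y v → Q Y v) :=
  (hP.and hQ.not).not.congr fun Y v => by tauto

theorem IsF.iff (hP : IsF P) (hQ : IsF Q) : IsF (fun Y v => P Y v ↔ Q Y v) :=
  ((hP.imp hQ).and (hQ.imp hP)).congr fun Y v => by tauto

theorem IsF.all (hP : IsF P) : IsF (fun Y v => ∀ a, P Y (cons a v)) := by
  obtain ⟨φ, hφ⟩ := hP
  exact ⟨.all φ, fun Y v => forall_congr' fun a => hφ Y (cons a v)⟩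

theorem IsF.ex (hP : IsF P) : IsF (fun Y v => ∃ a, P Y (cons a v)) :=
  hP.not.all.not.congr fun Y v => by simp

theorem IsF.eq {s t : (ℕ → MM) → MM} (hs : IsT s) (ht : IsT t) : IsF (fun _ v => s v = t v) := by
  obtain ⟨s', hs⟩ := hs
  obtain ⟨t', ht⟩ := ht
  exact ⟨.eq s' t', fun Y v => by beta_reduce; rw [← hs, ← ht]; rfl⟩

theorem IsF.lt {s t : (ℕ → MM) → MM} (hs : IsT s) (ht : IsT t) :
    IsF (fun _ v => NN.lt (s v) (t v)) := by
  obtain ⟨s', hs⟩ := hs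
  obtain ⟨t', ht⟩ := ht
  exact ⟨.lt s' t', fun Y v => by beta_reduce; rw [← hs, ← ht]; rfl⟩

theorem IsF.mem {X : Set MM} (hX : X ∈ NN.Sets) {t : (ℕ → MM) → MM} (ht : IsT t) :
    IsF (fun _ v => t v ∈ X) := by
  obtain ⟨t', ht⟩ := ht
  exact ⟨.mem t' ⟨X, hX⟩, fun Y v => by beta_reduce; rw [← ht]; rfl⟩

theorem IsF.memV {t : (ℕ → MM) → MM} (ht : IsT t) (i : ℕ) :
    IsF (fun Y v => t v ∈ Y i) := by
  obtain ⟨t', ht⟩ := ht
  exact ⟨.memV t' i, fun Y v => by beta_reduce; rw [← ht]; rfl⟩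

end

/-- being a hierarchy is given by a formula -/
theorem isF_hier (k : ℕ) : IsF (fun Y v => Hier (v k) (Y 0)) := by
  have hz : IsT (fun _ => NN.zero) := ⟨.zero, fun _ => rfl⟩
  have ho : IsT (fun _ => NN.one) := ⟨.one, fun _ => rfl⟩
  -- membership in `JN` of a section; variables `0 = x`, `1 = i`
  have hJ : IsF (fun Y v => v 0 ∈ JN NN (sec NN (Y 0) (v 1))) := by
    have hV : ∀ {t : (ℕ → MM) → MM} {k : ℕ}, IsT t →
        IsF (fun Y v => t v ∈ sec NN (Y 0) (v k)) := by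
      intro t k ht
      exact IsF.memV (t := fun v => NN.pair (v k) (t v)) ((IsT.var k).pair ht) 0
    have g1 : IsF (fun Y v => ∃ y, NN.pair (v 2) (NN.pair (v 0) y) ∈ sec NN (Y 0) (v 5)) := by
      refine IsF.ex (P := fun Y v => NN.pair (v 3) (NN.pair (v 1) (v 0)) ∈ sec NN (Y 0) (v 6)) ?_
      exact hV ((IsT.var 3).pair ((IsT.var 1).pair (IsT.var 0)))
    have g2 : IsF (fun Y v => ∃ a y, v 0 = NN.pair a y ∧
        NN.pair (v 2) y ∈ sec NN (Y 0) (v 5)) := by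
      refine IsF.ex (P := fun Y v => ∃ y, v 1 = NN.pair (v 0) y ∧
        NN.pair (v 3) y ∈ sec NN (Y 0) (v 6)) ?_
      refine IsF.ex (P := fun Y v => v 2 = NN.pair (v 1) (v 0) ∧
        NN.pair (v 4) (v 0) ∈ sec NN (Y 0) (v 7)) ?_
      exact (IsF.eq (IsT.var 2) ((IsT.var 1).pair (IsT.var 0))).and
        (hV ((IsT.var 4).pair (IsT.var 0)))
    have g3 : IsF (fun Y v =>
        (v 4 = NN.pair (NN.pair (v 3) (NN.pair (v 2) (v 1))) (v 0) ∧
        ((v 3 = NN.zero ∧ NN.pair (v 2) (v 0) ∉ sec NN (Y 0) (v 5)) ∨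
         (v 3 = NN.one ∧ NN.pair (v 2) (v 0) ∈ sec NN (Y 0) (v 5) ∧
            NN.pair (v 1) (v 0) ∈ sec NN (Y 0) (v 5)) ∨
         (v 3 = NN.add NN.one NN.one ∧
            ∃ y, NN.pair (v 2) (NN.pair (v 0) y) ∈ sec NN (Y 0) (v 5)) ∨
         (v 3 = NN.add (NN.add NN.one NN.one) NN.one ∧
            ∃ a y, v 0 = NN.pair a y ∧ NN.pair (v 2) y ∈ sec NN (Y 0) (v 5)) ∨
         (v 3 = NN.add (NN.add (NN.add NN.one NN.one) NN.one) NN.one ∧
            v 0 ∈ sec NN (Y 0) (v 5)) ∨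
         (v 3 = NN.add (NN.add (NN.add (NN.add NN.one NN.one) NN.one) NN.one) NN.one ∧
            NN.pair (v 2) (NN.pair (v 1) (v 0)) ∈ sec NN (Y 0) (v 5))))) := by
      refine (IsF.eq (IsT.var 4) (((IsT.var 3).pair ((IsT.var 2).pair (IsT.var 1))).pair
        (IsT.var 0))).and ?_
      refine ((IsF.eq (IsT.var 3) hz).and (hV ((IsT.var 2).pair (IsT.var 0))).not).or ?_
      refine ((IsF.eq (IsT.var 3) ho).and ((hV ((IsT.var 2).pair (IsT.var 0))).and
        (hV ((IsT.var 1).pair (IsT.var 0))))).or ?_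
      refine ((IsF.eq (IsT.var 3) (ho.add ho)).and g1).or ?_
      refine ((IsF.eq (IsT.var 3) ((ho.add ho).add ho)).and g2).or ?_
      refine ((IsF.eq (IsT.var 3) (((ho.add ho).add ho).add ho)).and (hV (IsT.var 0))).or ?_
      exact (IsF.eq (IsT.var 3) ((((ho.add ho).add ho).add ho).add ho)).and
        (hV ((IsT.var 2).pair ((IsT.var 1).pair (IsT.var 0))))
    exact g3.ex.ex.ex.ex
  -- hierarchies; variable `0 = l`
  have hH : IsF (fun Y v => Hier (v 0) (Y 0)) := by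
    refine IsF.and ?_ ?_
    · refine IsF.all (P := fun Y v => (NN.pair NN.zero (v 0) ∈ Y 0 ↔ v 0 ∈ star (U 0))) ?_
      exact (IsF.memV (hz.pair (IsT.var 0)) 0).iff
        (IsF.mem (star_mem (Ar.stage 0)) (IsT.var 0))
    · refine IsF.all (P := fun Y v => (NN.lt (v 0) (v 1) → ∀ x,
        (NN.pair (NN.add (v 0) NN.one) x ∈ Y 0 ↔ x ∈ JN NN (sec NN (Y 0) (v 0))))) ?_
      refine (IsF.lt (IsT.var 0) (IsT.var 1)).imp ?_
      refine IsF.all (P := fun Y v =>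
        (NN.pair (NN.add (v 1) NN.one) (v 0) ∈ Y 0 ↔ v 0 ∈ JN NN (sec NN (Y 0) (v 1)))) ?_
      exact (IsF.memV (((IsT.var 1).add ho).pair (IsT.var 0)) 0).iff hJ
  have h1 : IsF (fun Y v => ∃ a, a = v k ∧ Hier a (Y 0)) := by
    refine IsF.ex (P := fun Y v => v 0 = v (k + 1) ∧ Hier (v 0) (Y 0)) ?_
    exact (IsF.eq (IsT.var 0) (IsT.var (k + 1))).and hH
  exact h1.congr fun Y v => by simp

/-- the relation is given by a formula -/
theorem isF_phi : IsF (fun Y v => Phi (Y 0) (v 0)) := by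
  refine (IsF.lt (IsT.const (cM i0)) (IsT.var 0)).or ?_
  refine IsF.ex (P := fun Y v => ∃ m, ∃ e, ¬ NN.lt (v 0) m ∧ ¬ NN.lt (v 0) e ∧ Hier (v 0) (Y 0) ∧
    NN.pair m (NN.pair e (NN.pair (cM i0) (v 1))) ∈ Y 0 ∧
    ∀ n', NN.pair m (NN.pair e (NN.pair (cM i0) n')) ∈ Y 0 → n' = v 1) ?_
  refine IsF.ex (P := fun Y v => ∃ e, ¬ NN.lt (v 1) (v 0) ∧ ¬ NN.lt (v 1) e ∧ Hier (v 1) (Y 0) ∧
    NN.pair (v 0) (NN.pair e (NN.pair (cM i0) (v 2))) ∈ Y 0 ∧
    ∀ n', NN.pair (v 0) (NN.pair e (NN.pair (cM i0) n')) ∈ Y 0 → n' = v 2) ?_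
  refine IsF.ex (P := fun Y v => ¬ NN.lt (v 2) (v 1) ∧ ¬ NN.lt (v 2) (v 0) ∧ Hier (v 2) (Y 0) ∧
    NN.pair (v 1) (NN.pair (v 0) (NN.pair (cM i0) (v 3))) ∈ Y 0 ∧
    ∀ n', NN.pair (v 1) (NN.pair (v 0) (NN.pair (cM i0) n')) ∈ Y 0 → n' = v 3) ?_
  refine (IsF.lt (IsT.var 2) (IsT.var 1)).not.and ((IsF.lt (IsT.var 2) (IsT.var 0)).not.and
    ((isF_hier 2).and ((IsF.memV ((IsT.var 1).pair ((IsT.var 0).pair ((IsT.const _).pair (IsT.var 3)))) 0).and
      ?_)))
  refine IsF.all (P := fun Y v => NN.pair (v 2) (NN.pair (v 1) (NN.pair (cM i0) (v 0))) ∈ Y 0 →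
    v 0 = v 4) ?_
  exact (IsF.memV ((IsT.var 2).pair ((IsT.var 1).pair ((IsT.const _).pair (IsT.var 0)))) 0).imp
    (IsF.eq (IsT.var 0) (IsT.var 4))

/-- formulas define sets of the model -/
theorem IsF.rp {P : (ℕ → Set MM) → (ℕ → MM) → Prop} (hP : IsF P) {Y : Set MM}
    (hY : Y ∈ NN.Sets) {k : ℕ} :
    Rp (fun v => P (fun _ => sec NN Y (v k)) v) := by
  obtain ⟨φ, hφ⟩ := hP
  suffices h : ∀ k, Rp (fun v => φ.Holds (fun _ => sec NN Y (v k)) v) from
    (h k).congr fun v => (hφ _ v).symm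
  clear hφ
  induction φ with
  | eq s t => exact fun _ => Rp.eq (Rt.term s) (Rt.term t)
  | lt s t => exact fun _ => Rp.lt (Rt.term s) (Rt.term t)
  | mem t X => exact fun _ => Rp.mem X.2 (Rt.term t)
  | memV t i => exact fun k => Rp.mem hY ((Rt.var k).pair (Rt.term t))
  | neg φ ih => exact fun k => (ih k).not
  | and φ ψ ih1 ih2 => exact fun k => (ih1 k).and (ih2 k)
  | all φ ih => exact fun k => (ih (k + 1)).all

/-- an upper bound for a set of standard elements -/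
theorem bounded_std {X : Set MM} (hX : X ∈ NN.Sets) (h : ∀ x ∈ X, ∃ k, x = ι k) :
    ∃ k : ℕ, ∀ x ∈ X, ∃ j < k, x = ι j := by
  have h1 : Rp (fun v => ∀ x, x ∈ X → NN.lt x (v 0)) := by
    refine Rp.all (R := fun v => v 0 ∈ X → NN.lt (v 0) (v 1)) ?_
    exact (Rp.mem hX (Rt.var 0)).imp (Rp.lt (Rt.var 0) (Rt.var 1))
  have h2 := h1.comp (fun _ => pt)
  obtain ⟨m, hm, hmin⟩ := exists_least h2 ⟨cM i0, by
    intro x hx
    obtain ⟨k, rfl⟩ := h x hx
    exact cM_nonstd i0 k⟩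
  have hm' : ∀ x, x ∈ X → NN.lt x m := hm
  have hstd : ∃ k, m = ι k := by
    by_contra hno
    push Not at hno
    have hne : m ≠ NN.zero := hno 0
    obtain ⟨n, rfl⟩ := exists_pred hne
    have hn : ∀ k, n ≠ ι k := by
      intro k hk
      exact hno (k + 1) (by rw [ι_succ, hk])
    refine hmin n ?_ (lt_succ_iff'.2 (Or.inr rfl))
    intro x hx
    obtain ⟨k, rfl⟩ := h x hx
    exact nonstd hn k
  obtain ⟨k, rfl⟩ := hstd
  exact ⟨k, fun x hx => lt_ι (hm' x hx)⟩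

theorem not_choice : ¬ Sigma11Choice NN := by
  intro hC
  obtain ⟨φ, hφ⟩ := isF_phi
  obtain ⟨Y, hY, hch⟩ := hC φ (fun _ => pt) (by
    intro n
    obtain ⟨X, hX, h⟩ := phi_exists n
    exact ⟨X, hX, X, hX, (hφ _ _).2 h⟩)
  have hph : ∀ n, Phi (sec NN Y n) n := by
    intro n
    obtain ⟨Z, _, hZ⟩ := hch n
    exact (hφ _ _).1 hZ
  have hsec : ∀ n, sec NN Y n ∈ NN.Sets := fun n =>
    (Rp.mem hY (t := fun v => NN.pair n (v 0)) ((Rt.const n).pair (Rt.var 0))).comp (fun _ => pt)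
  -- the set of lengths
  have hL : Rp (fun v => ∃ n, ¬ NN.lt (cM i0) n ∧ Hier (v 0) (sec NN Y n)) := by
    refine Rp.ex (R := fun v => ¬ NN.lt (cM i0) (v 0) ∧ Hier (v 1) (sec NN Y (v 0))) ?_
    exact (Rp.lt (Rt.const _) (Rt.var 0)).not.and ((isF_hier 1).rp hY)
  obtain ⟨K, hK⟩ := bounded_std (hL.comp (fun _ => pt)) (by
    rintro l ⟨n, _, hn⟩
    exact hier_std (hsec n) hn)
  have hK' : ∀ l n, ¬ NN.lt (cM i0) n → Hier l (sec NN Y n) → ∃ j < K, l = ι j :=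
    fun l n h1 h2 => hK l ⟨n, h1, h2⟩
  -- the indices
  have hidx : ∀ j : ℕ, ∃ x : ℕ × ℕ, x.1 < K ∧ x.2 < K ∧
      NN.pair (ι x.2) (NN.pair (cM i0) (ι j)) ∈ star (U x.1) ∧
      ∀ n', NN.pair (ι x.2) (NN.pair (cM i0) n') ∈ star (U x.1) → n' = ι j := by
    intro j
    have hj : ¬ NN.lt (cM i0) (ι j) := fun h => lt_irrefl' _ (lt_trans' h (cM_nonstd i0 j))
    rcases hph (ι j) with h | ⟨l, m, e, hm, he, hH, h1, h2⟩
    · exact absurd h hj
    · obtain ⟨l', hl', rfl⟩ := hK' l (ι j) hj hH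
      have hle : ∀ x : MM, ¬ NN.lt (ι l') x → ∃ y ≤ l', x = ι y := by
        intro x hx
        rcases lt_tri x (ι l') with h3 | h3 | h3
        · obtain ⟨y, hy, rfl⟩ := lt_ι h3
          exact ⟨y, hy.le, rfl⟩
        · exact ⟨l', le_rfl, h3⟩
        · exact absurd h3 hx
      obtain ⟨m', hm', rfl⟩ := hle m hm
      obtain ⟨e', he', rfl⟩ := hle e he
      have hst := hier_stages hH m' fun i hi => by
        have : ∀ᶠ F in (D : Filter (Finset I)), rep (ι i) F < rep (ι l') F := by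
          filter_upwards [rep_ι i, rep_ι l'] with F h4 h5
          rw [h4, h5]
          omega
        exact this
      refine ⟨(m', e'), by dsimp only; omega, by dsimp only; omega, ?_, ?_⟩
      · rw [← hst]
        exact h1
      · intro n' hn'
        rw [← hst] at hn'
        exact h2 n' hn'
  choose x hx using hidx
  have hinj : Function.Injective x := by
    intro i j hij
    have h1 := (hx i).2.2.1
    rw [hij] at h1
    exact ι_inj ((hx j).2.2.2 _ h1)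
  have hfin : (Set.range x).Finite := by
    refine ((Set.finite_Iio K).prod (Set.finite_Iio K)).subset ?_
    rintro _ ⟨j, rfl⟩
    exact ⟨(hx j).1, (hx j).2.1⟩
  exact Set.infinite_range_of_injective hinj hfin

end Pool.Agent.Y579.HR
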