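import Mathlib
import Pool.Agent.Y579.HR.Fail

/-!
The principles `IRT_UVS` and `IRT_DVS` hold in the model.
-/

namespace Pool.Agent.Y579.HR

open Encodable Filter Pool.Agent.Helper617.RM

theorem ArC.imp {P Q : (ℕ → ℕ) → Prop} (hP : ArC P) (hQ : ArC Q) :
    ArC (fun v => P v → Q v) := (hP.and hQ.not).not.congr fun v => by tauto

theorem ArC.all {P : (ℕ → ℕ) → Prop} (hP : ArC P) : ArC (fun v => ∀ y, P (cons y v)) :=
  hP.not.ex.not.congr fun v => by simp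

theorem st_all {P : (ℕ → ℕ) → Prop} (hP : ArC P) {v : ℕ → MM} (h : ∀ y, st P (cons y v)) :
    st (fun v => ∀ y, P (cons y v)) v := by
  by_contra hno
  have h1 : st (fun v => ∃ y, ¬ P (cons y v)) v := by
    have h2 : st (fun v => ¬ ∀ y, P (cons y v)) v := st_not.2 hno
    unfold st at h2 ⊢
    filter_upwards [h2] with F hF
    push Not at hF
    exact hF
  obtain ⟨y, hy⟩ := (st_ex hP.not).1 h1
  exact st_not.1 hy (h y)

theorem st_imp {P Q : (ℕ → ℕ) → Prop} {v : ℕ → MM} (h : st P v → st Q v) :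
    st (fun v => P v → Q v) v := by
  by_cases hP : st P v
  · have hQ := h hP
    unfold st at hQ ⊢
    filter_upwards [hQ] with F hF _
    exact hF
  · have hP' := st_not.2 hP
    unfold st at hP' ⊢
    filter_upwards [hP'] with F hF hF'
    exact absurd hF' hF

/-- edges of the graph with parameter `q` -/
def Ed (A : Set ℕ) (q u v : ℕ) : Prop := pr q (pr u v) ∈ A

/-- vertices of the family of rays with parameter `p` -/
def Fa (j : ℕ) (p i n w : ℕ) : Prop := pr p (pr i (pr n w)) ∈ U j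

/-- the set of the model which is the section with parameter `p` -/
def Xs (B : Set ℕ) (p : MM) : Set MM :=
  {z | ∀ᶠ F in (D : Filter (Finset I)), pr (rep p F) (rep z F) ∈ B}

/-- disjoint rays inside the model -/
def MDis (k : MM) (E X : Set MM) : Prop :=
  (∀ i, NN.lt i k → ∀ n, ∃ w, NN.pair i (NN.pair n w) ∈ X) ∧
  (∀ i, NN.lt i k → ∀ n w w', NN.pair i (NN.pair n w) ∈ X → NN.pair i (NN.pair n w') ∈ X → w = w') ∧
  (∀ i, NN.lt i k → ∀ n w w', NN.pair i (NN.pair n w) ∈ X →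
    NN.pair i (NN.pair (NN.add n NN.one) w') ∈ X → NN.pair w w' ∈ E) ∧
  (∀ i, NN.lt i k → ∀ j, NN.lt j k → ∀ n m w, NN.pair i (NN.pair n w) ∈ X →
    NN.pair j (NN.pair m w) ∈ X → i = j ∧ n = m)

theorem mem_Xs3 {B : Set ℕ} {p i n w : MM} : NN.pair i (NN.pair n w) ∈ Xs B p ↔
    ∀ᶠ F in (D : Filter (Finset I)), pr (rep p F) (pr (rep i F) (pr (rep n F) (rep w F))) ∈ B := by
  change (∀ᶠ F in (D : Filter (Finset I)), pr (rep p F) (rep (NN.pair i (NN.pair n w)) F) ∈ B) ↔ _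
  apply Filter.eventually_congr
  filter_upwards [rep_pair i (NN.pair n w), rep_pair n w] with F h1 h2
  rw [h1, h2]

theorem mem_Xs2 {B : Set ℕ} {p u w : MM} : NN.pair u w ∈ Xs B p ↔
    ∀ᶠ F in (D : Filter (Finset I)), pr (rep p F) (pr (rep u F) (rep w F)) ∈ B := by
  change (∀ᶠ F in (D : Filter (Finset I)), pr (rep p F) (rep (NN.pair u w) F) ∈ B) ↔ _
  apply Filter.eventually_congr
  filter_upwards [rep_pair u w] with F h1
  rw [h1]

section

variable {A : Set ℕ} (hA : Ar A) (j : ℕ)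

theorem arFa (j : ℕ) (a b c d : ℕ) : ArC (fun v => Fa j (v a) (v b) (v c) (v d)) :=
  ArC.mem (Ar.stage j) ((ArT.var a).pr ((ArT.var b).pr ((ArT.var c).pr (ArT.var d))))

theorem arFa' (j : ℕ) (a b c d : ℕ) : ArC (fun v => Fa j (v a) (v b) (v c + 1) (v d)) :=
  ArC.mem (Ar.stage j) ((ArT.var a).pr ((ArT.var b).pr
    (((ArT.var c).add (ArT.const 1)).pr (ArT.var d))))

include hA in
theorem arEd (a b c : ℕ) : ArC (fun v => Ed A (v a) (v b) (v c)) :=
  ArC.mem hA ((ArT.var a).pr ((ArT.var b).pr (ArT.var c)))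

/-- the four parts of the definition of disjoint rays, in a context `k', p, q` -/
theorem ar1 : ArC (fun v => ∀ i, i < v 0 → ∀ n, ∃ w, Fa j (v 1) i n w) := by
  refine ArC.all (P := fun v => v 0 < v 1 → ∀ n, ∃ w, Fa j (v 2) (v 0) n w) ?_
  refine (ArC.lt (ArT.var 0) (ArT.var 1)).imp ?_
  refine ArC.all (P := fun v => ∃ w, Fa j (v 3) (v 1) (v 0) w) ?_
  exact ArC.ex (P := fun v => Fa j (v 4) (v 2) (v 1) (v 0)) (arFa j 4 2 1 0)

theorem ar2 : ArC (fun v => ∀ i, i < v 0 → ∀ n w w', Fa j (v 1) i n w → Fa j (v 1) i n w' →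
    w = w') := by
  refine ArC.all (P := fun v => v 0 < v 1 → ∀ n w w', Fa j (v 2) (v 0) n w →
    Fa j (v 2) (v 0) n w' → w = w') ?_
  refine (ArC.lt (ArT.var 0) (ArT.var 1)).imp ?_
  refine ArC.all (P := fun v => ∀ w w', Fa j (v 3) (v 1) (v 0) w →
    Fa j (v 3) (v 1) (v 0) w' → w = w') ?_
  refine ArC.all (P := fun v => ∀ w', Fa j (v 4) (v 2) (v 1) (v 0) →
    Fa j (v 4) (v 2) (v 1) w' → v 0 = w') ?_
  refine ArC.all (P := fun v => Fa j (v 5) (v 3) (v 2) (v 1) →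
    Fa j (v 5) (v 3) (v 2) (v 0) → v 1 = v 0) ?_
  exact (arFa j 5 3 2 1).imp ((arFa j 5 3 2 0).imp (ArC.eq (ArT.var 1) (ArT.var 0)))

include hA in
theorem ar3 : ArC (fun v => ∀ i, i < v 0 → ∀ n w w', Fa j (v 1) i n w →
    Fa j (v 1) i (n + 1) w' → Ed A (v 2) w w') := by
  refine ArC.all (P := fun v => v 0 < v 1 → ∀ n w w', Fa j (v 2) (v 0) n w →
    Fa j (v 2) (v 0) (n + 1) w' → Ed A (v 3) w w') ?_
  refine (ArC.lt (ArT.var 0) (ArT.var 1)).imp ?_
  refine ArC.all (P := fun v => ∀ w w', Fa j (v 3) (v 1) (v 0) w →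
    Fa j (v 3) (v 1) (v 0 + 1) w' → Ed A (v 4) w w') ?_
  refine ArC.all (P := fun v => ∀ w', Fa j (v 4) (v 2) (v 1) (v 0) →
    Fa j (v 4) (v 2) (v 1 + 1) w' → Ed A (v 5) (v 0) w') ?_
  refine ArC.all (P := fun v => Fa j (v 5) (v 3) (v 2) (v 1) →
    Fa j (v 5) (v 3) (v 2 + 1) (v 0) → Ed A (v 6) (v 1) (v 0)) ?_
  exact (arFa j 5 3 2 1).imp ((arFa' j 5 3 2 0).imp (arEd hA 6 1 0))

theorem ar4 : ArC (fun v => ∀ i, i < v 0 → ∀ i', i' < v 0 → ∀ n m w, Fa j (v 1) i n w →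
    Fa j (v 1) i' m w → i = i' ∧ n = m) := by
  refine ArC.all (P := fun v => v 0 < v 1 → ∀ i', i' < v 1 → ∀ n m w, Fa j (v 2) (v 0) n w →
    Fa j (v 2) i' m w → v 0 = i' ∧ n = m) ?_
  refine (ArC.lt (ArT.var 0) (ArT.var 1)).imp ?_
  refine ArC.all (P := fun v => v 0 < v 2 → ∀ n m w, Fa j (v 3) (v 1) n w →
    Fa j (v 3) (v 0) m w → v 1 = v 0 ∧ n = m) ?_
  refine (ArC.lt (ArT.var 0) (ArT.var 2)).imp ?_
  refine ArC.all (P := fun v => ∀ m w, Fa j (v 4) (v 2) (v 0) w →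
    Fa j (v 4) (v 1) m w → v 2 = v 1 ∧ v 0 = m) ?_
  refine ArC.all (P := fun v => ∀ w, Fa j (v 5) (v 3) (v 1) w →
    Fa j (v 5) (v 2) (v 0) w → v 3 = v 2 ∧ v 1 = v 0) ?_
  refine ArC.all (P := fun v => Fa j (v 6) (v 4) (v 2) (v 0) →
    Fa j (v 6) (v 3) (v 1) (v 0) → v 4 = v 3 ∧ v 2 = v 1) ?_
  exact (arFa j 6 4 2 0).imp ((arFa j 6 3 1 0).imp
    ((ArC.eq (ArT.var 4) (ArT.var 3)).and (ArC.eq (ArT.var 2) (ArT.var 1))))

include hA in
theorem arDis : ArC (fun v => Dis (v 0) (Ed A (v 2)) (Fa j (v 1))) :=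
  (ar1 j).and ((ar2 j).and ((ar3 hA j).and (ar4 j)))

include hA in
/-- disjoint rays in the model are disjoint rays almost everywhere -/
theorem dis_of_mdis {k p q : MM} (h : MDis k (Xs A q) (Xs (U j) p)) :
    st (fun v => Dis (v 0) (Ed A (v 2)) (Fa j (v 1))) (cons k (cons p (fun _ => q))) := by
  obtain ⟨h1, h2, h3, h4⟩ := h
  refine st_and.2 ⟨?_, st_and.2 ⟨?_, st_and.2 ⟨?_, ?_⟩⟩⟩
  · refine st_all (P := fun v => v 0 < v 1 → ∀ n, ∃ w, Fa j (v 2) (v 0) n w)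
      ((ArC.lt (ArT.var 0) (ArT.var 1)).imp
        (ArC.all (P := fun v => ∃ w, Fa j (v 3) (v 1) (v 0) w)
          (ArC.ex (P := fun v => Fa j (v 4) (v 2) (v 1) (v 0)) (arFa j 4 2 1 0)))) fun i => ?_
    refine st_imp fun hi => ?_
    refine st_all (P := fun v => ∃ w, Fa j (v 3) (v 1) (v 0) w)
      (ArC.ex (P := fun v => Fa j (v 4) (v 2) (v 1) (v 0)) (arFa j 4 2 1 0)) fun n => ?_
    obtain ⟨w, hw⟩ := h1 i hi n
    have hw' := mem_Xs3.1 hw
    unfold st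
    filter_upwards [hw'] with F hF
    exact ⟨rep w F, hF⟩
  · refine st_all (P := fun v => v 0 < v 1 → ∀ n w w', Fa j (v 2) (v 0) n w →
      Fa j (v 2) (v 0) n w' → w = w') ((ArC.lt (ArT.var 0) (ArT.var 1)).imp
        (ArC.all (P := fun v => ∀ w w', Fa j (v 3) (v 1) (v 0) w →
          Fa j (v 3) (v 1) (v 0) w' → w = w')
        (ArC.all (P := fun v => ∀ w', Fa j (v 4) (v 2) (v 1) (v 0) →
          Fa j (v 4) (v 2) (v 1) w' → v 0 = w')
        (ArC.all (P := fun v => Fa j (v 5) (v 3) (v 2) (v 1) →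
          Fa j (v 5) (v 3) (v 2) (v 0) → v 1 = v 0)
        ((arFa j 5 3 2 1).imp ((arFa j 5 3 2 0).imp (ArC.eq (ArT.var 1) (ArT.var 0)))))))) fun i => ?_
    refine st_imp fun hi => ?_
    refine st_all (P := fun v => ∀ w w', Fa j (v 3) (v 1) (v 0) w →
          Fa j (v 3) (v 1) (v 0) w' → w = w')
        (ArC.all (P := fun v => ∀ w', Fa j (v 4) (v 2) (v 1) (v 0) →
          Fa j (v 4) (v 2) (v 1) w' → v 0 = w')
        (ArC.all (P := fun v => Fa j (v 5) (v 3) (v 2) (v 1) →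
          Fa j (v 5) (v 3) (v 2) (v 0) → v 1 = v 0)
        ((arFa j 5 3 2 1).imp ((arFa j 5 3 2 0).imp (ArC.eq (ArT.var 1) (ArT.var 0)))))) fun n => ?_
    refine st_all (P := fun v => ∀ w', Fa j (v 4) (v 2) (v 1) (v 0) →
          Fa j (v 4) (v 2) (v 1) w' → v 0 = w')
        (ArC.all (P := fun v => Fa j (v 5) (v 3) (v 2) (v 1) →
          Fa j (v 5) (v 3) (v 2) (v 0) → v 1 = v 0)
        ((arFa j 5 3 2 1).imp ((arFa j 5 3 2 0).imp (ArC.eq (ArT.var 1) (ArT.var 0))))) fun w => ?_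
    refine st_all (P := fun v => Fa j (v 5) (v 3) (v 2) (v 1) →
          Fa j (v 5) (v 3) (v 2) (v 0) → v 1 = v 0)
        ((arFa j 5 3 2 1).imp ((arFa j 5 3 2 0).imp (ArC.eq (ArT.var 1) (ArT.var 0)))) fun w' => ?_
    refine st_imp fun hw => st_imp fun hw' => ?_
    exact ext_iff.1 (h2 i hi n w w' (mem_Xs3.2 hw) (mem_Xs3.2 hw'))
  · refine st_all (P := fun v => v 0 < v 1 → ∀ n w w', Fa j (v 2) (v 0) n w →
      Fa j (v 2) (v 0) (n + 1) w' → Ed A (v 3) w w') ((ArC.lt (ArT.var 0) (ArT.var 1)).imp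
        (ArC.all (P := fun v => ∀ w w', Fa j (v 3) (v 1) (v 0) w →
          Fa j (v 3) (v 1) (v 0 + 1) w' → Ed A (v 4) w w')
        (ArC.all (P := fun v => ∀ w', Fa j (v 4) (v 2) (v 1) (v 0) →
          Fa j (v 4) (v 2) (v 1 + 1) w' → Ed A (v 5) (v 0) w')
        (ArC.all (P := fun v => Fa j (v 5) (v 3) (v 2) (v 1) →
          Fa j (v 5) (v 3) (v 2 + 1) (v 0) → Ed A (v 6) (v 1) (v 0))
        ((arFa j 5 3 2 1).imp ((arFa' j 5 3 2 0).imp (arEd hA 6 1 0))))))) fun i => ?_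
    refine st_imp fun hi => ?_
    refine st_all (P := fun v => ∀ w w', Fa j (v 3) (v 1) (v 0) w →
          Fa j (v 3) (v 1) (v 0 + 1) w' → Ed A (v 4) w w')
        (ArC.all (P := fun v => ∀ w', Fa j (v 4) (v 2) (v 1) (v 0) →
          Fa j (v 4) (v 2) (v 1 + 1) w' → Ed A (v 5) (v 0) w')
        (ArC.all (P := fun v => Fa j (v 5) (v 3) (v 2) (v 1) →
          Fa j (v 5) (v 3) (v 2 + 1) (v 0) → Ed A (v 6) (v 1) (v 0))
        ((arFa j 5 3 2 1).imp ((arFa' j 5 3 2 0).imp (arEd hA 6 1 0))))) fun n => ?_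
    refine st_all (P := fun v => ∀ w', Fa j (v 4) (v 2) (v 1) (v 0) →
          Fa j (v 4) (v 2) (v 1 + 1) w' → Ed A (v 5) (v 0) w')
        (ArC.all (P := fun v => Fa j (v 5) (v 3) (v 2) (v 1) →
          Fa j (v 5) (v 3) (v 2 + 1) (v 0) → Ed A (v 6) (v 1) (v 0))
        ((arFa j 5 3 2 1).imp ((arFa' j 5 3 2 0).imp (arEd hA 6 1 0)))) fun w => ?_
    refine st_all (P := fun v => Fa j (v 5) (v 3) (v 2) (v 1) →
          Fa j (v 5) (v 3) (v 2 + 1) (v 0) → Ed A (v 6) (v 1) (v 0))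
        ((arFa j 5 3 2 1).imp ((arFa' j 5 3 2 0).imp (arEd hA 6 1 0))) fun w' => ?_
    refine st_imp fun hw => st_imp fun hw' => ?_
    have hw2 : NN.pair i (NN.pair (NN.add n NN.one) w') ∈ Xs (U j) p := by
      rw [mem_Xs3]
      have hw'' : ∀ᶠ F in (D : Filter (Finset I)),
        pr (rep p F) (pr (rep i F) (pr (rep n F + 1) (rep w' F))) ∈ U j := hw'
      filter_upwards [hw'', rep_add n NN.one, rep_one] with F h5 h6 h7
      rw [h6, h7]
      exact h5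
    exact mem_Xs2.1 (h3 i hi n w w' (mem_Xs3.2 hw) hw2)
  · have c7 : ArC (fun v => Fa j (v 6) (v 4) (v 2) (v 0) →
        Fa j (v 6) (v 3) (v 1) (v 0) → v 4 = v 3 ∧ v 2 = v 1) :=
      (arFa j 6 4 2 0).imp ((arFa j 6 3 1 0).imp
        ((ArC.eq (ArT.var 4) (ArT.var 3)).and (ArC.eq (ArT.var 2) (ArT.var 1))))
    have c6 : ArC (fun v => ∀ w, Fa j (v 5) (v 3) (v 1) w →
        Fa j (v 5) (v 2) (v 0) w → v 3 = v 2 ∧ v 1 = v 0) := c7.all
    have c5 : ArC (fun v => ∀ m w, Fa j (v 4) (v 2) (v 0) w →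
        Fa j (v 4) (v 1) m w → v 2 = v 1 ∧ v 0 = m) := c6.all
    have c4 : ArC (fun v => v 0 < v 2 → ∀ n m w, Fa j (v 3) (v 1) n w →
        Fa j (v 3) (v 0) m w → v 1 = v 0 ∧ n = m) :=
      (ArC.lt (ArT.var 0) (ArT.var 2)).imp c5.all
    have c3 : ArC (fun v => v 0 < v 1 → ∀ i', i' < v 1 → ∀ n m w, Fa j (v 2) (v 0) n w →
        Fa j (v 2) i' m w → v 0 = i' ∧ n = m) :=
      (ArC.lt (ArT.var 0) (ArT.var 1)).imp c4.all
    refine st_all c3 fun i => ?_
    refine st_imp fun hi => ?_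
    refine st_all c4 fun i' => ?_
    refine st_imp fun hi' => ?_
    refine st_all c5 fun n => ?_
    refine st_all c6 fun m => ?_
    refine st_all c7 fun w => ?_
    refine st_imp fun hw => st_imp fun hw' => ?_
    obtain ⟨e1, e2⟩ := h4 i hi i' hi' n m w (mem_Xs3.2 hw) (mem_Xs3.2 hw')
    exact st_and.2 ⟨ext_iff.1 e1, ext_iff.1 e2⟩

end

/-- sets of the model of level `j` -/
theorem level {X : Set MM} (hX : X ∈ NN.Sets) : ∃ j p, X = Xs (U j) p := by
  obtain ⟨B, ⟨j, e, he⟩, p, rfl⟩ := hX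
  have ht : ArT (fun v => pr 5 (pr e (v 0))) := (ArT.const 5).pr ((ArT.const e).pr (ArT.var 0))
  refine ⟨j + 1, app (fun v => pr 5 (pr e (v 0))) (fun _ => p), ?_⟩
  ext z
  change (∀ᶠ F in (D : Filter (Finset I)), pr (rep p F) (rep z F) ∈ B) ↔
    ∀ᶠ F in (D : Filter (Finset I)), pr (rep _ F) (rep z F) ∈ U (j + 1)
  apply Filter.eventually_congr
  filter_upwards [rep_app ht (fun _ => p)] with F hF
  rw [hF, he]
  change _ ↔ _ ∈ J (U j)
  rw [mem_J]
  simp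

/-- the hypothesis of the ray theorems, at a fixed level -/
theorem core_level {E : Set MM} (h : ∀ k, ∃ X ∈ NN.Sets, MDis k E X) :
    ∃ j : ℕ, ∀ k, ∃ k', ¬ NN.lt k' k ∧ ∃ p, MDis k' E (Xs (U j) p) := by
  by_contra hno
  push Not at hno
  choose k hk using hno
  obtain ⟨c, hc⟩ := cofinality k
  obtain ⟨X, hX, hd⟩ := h c
  obtain ⟨j, p, rfl⟩ := level hX
  exact hk j c (fun hlt => lt_irrefl' _ (lt_trans' hlt (hc j))) p hd

theorem core {E : Set MM} (hE : E ∈ NN.Sets) (h : ∀ k, ∃ X ∈ NN.Sets, MDis k E X) :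
    ∃ g : MM → MM → MM, Rt (fun v => g (v 0) (v 1)) ∧
      (∀ i n, NN.pair (g i n) (g i (NN.add n NN.one)) ∈ E) ∧
      ∀ i j n m, g i n = g j m → i = j ∧ n = m := by
  obtain ⟨j, hj⟩ := core_level h
  obtain ⟨A, hA, q, rfl⟩ := hE
  obtain ⟨Gf, hG, hG'⟩ := halin (E := Ed A) (F := fun _ p i n w => Fa j p i n w)
    (by
      refine ArP.comp (p := fun n : ℕ => n ∈ A) (f := fun x : ℕ × (ℕ × ℕ) =>
        pr x.1 (pr x.2.1 x.2.2)) ⟨A, hA, fun n => Iff.rfl⟩ (ArF.of_primrec ?_)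
      exact primrec_pr.comp Primrec.fst (primrec_pr.comp (Primrec.fst.comp Primrec.snd)
        (Primrec.snd.comp Primrec.snd)))
    (by
      refine ArP.comp (p := fun n : ℕ => n ∈ U j) (f := fun x : (ℕ × ℕ × ℕ × ℕ) × ℕ =>
        pr x.1.2.1 (pr x.1.2.2.1 (pr x.1.2.2.2 x.2))) ⟨U j, Ar.stage j, fun n => Iff.rfl⟩
        (ArF.of_primrec ?_)
      have a1 : Primrec (fun x : (ℕ × ℕ × ℕ × ℕ) × ℕ => x.1.2) := Primrec.snd.comp Primrec.fst
      exact primrec_pr.comp (Primrec.fst.comp a1) (primrec_pr.comp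
        (Primrec.fst.comp (Primrec.snd.comp a1))
        (primrec_pr.comp (Primrec.snd.comp (Primrec.snd.comp a1)) Primrec.snd)))
  -- the hypothesis holds almost everywhere
  have hhyp : ∀ᶠ F in (D : Filter (Finset I)), ∀ k, ∃ k', k ≤ k' ∧ ∃ p,
      Dis k' (Ed A (rep q F)) (Fa j p) := by
    have harc : ArC (fun v => ∃ k', v 0 ≤ k' ∧ ∃ p, Dis k' (Ed A (v 1)) (Fa j p)) := by
      refine ArC.ex (P := fun v => v 1 ≤ v 0 ∧ ∃ p, Dis (v 0) (Ed A (v 2)) (Fa j p)) ?_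
      refine ArC.and ((ArC.lt (ArT.var 0) (ArT.var 1)).not.congr fun v => by simp) ?_
      refine ArC.ex (P := fun v => Dis (v 1) (Ed A (v 3)) (Fa j (v 0))) ?_
      refine (arDis hA j).subst (g := fun v => cons (v 1) (cons (v 0) (fun i => v (i + 3))))
        fun i => ?_
      match i with
      | 0 => exact ArT.var 1
      | 1 => exact ArT.var 0
      | i + 2 => exact ArT.var (i + 3)
    refine st_all (P := fun v => ∃ k', v 0 ≤ k' ∧ ∃ p, Dis k' (Ed A (v 1)) (Fa j p))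
      (v := fun _ => q) harc fun k => ?_
    obtain ⟨k', hk', p, hp⟩ := hj k
    have h1 := dis_of_mdis hA j hp
    have h2 : ∀ᶠ F in (D : Filter (Finset I)), ¬ rep k' F < rep k F :=
      Ultrafilter.eventually_not.2 hk'
    unfold st at h1 ⊢
    filter_upwards [h1, h2] with F h3 h4
    exact ⟨rep k' F, not_lt.1 h4, rep p F, h3⟩
  have hGT : ArT (fun v => Gf (v 0) (v 1) (v 2)) := by
    refine ⟨⟨3, fun v w h => ?_⟩, ?_⟩
    · beta_reduce
      rw [h 0 (by omega), h 1 (by omega), h 2 (by omega)]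
    · refine ArF.comp (g := fun x : ℕ × (ℕ × ℕ) => Gf x.1 x.2.1 x.2.2)
        (f := fun l : List ℕ => (l.getD 0 0, (l.getD 1 0, l.getD 2 0))) hG (ArF.of_primrec ?_)
      exact ((Primrec.list_getD 0).comp Primrec.id (Primrec.const 0)).pair
        (((Primrec.list_getD 0).comp Primrec.id (Primrec.const 1)).pair
          ((Primrec.list_getD 0).comp Primrec.id (Primrec.const 2)))
  have hrep : ∀ i n, ∀ᶠ F in (D : Filter (Finset I)),
      rep (app (fun v => Gf (v 0) (v 1) (v 2)) (cons q (cons i (fun _ => n)))) F =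
        Gf (rep q F) (rep i F) (rep n F) := fun i n =>
    rep_app hGT (cons q (cons i (fun _ => n)))
  refine ⟨fun i n => app (fun v => Gf (v 0) (v 1) (v 2)) (cons q (cons i (fun _ => n))), ?_, ?_, ?_⟩
  · exact ⟨_, hGT, q, fun v => hrep (v 0) (v 1)⟩
  · intro i n
    refine mem_Xs2.2 ?_
    filter_upwards [hhyp, hrep i n, hrep i (NN.add n NN.one), rep_add n NN.one, rep_one]
      with F h1 h2 h3 h4 h5
    rw [h2, h3, h4, h5]
    exact (hG' (rep q F) h1).1 _ _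
  · intro i i' n m hh
    have h0 : ∀ᶠ F in (D : Filter (Finset I)), rep i F = rep i' F ∧ rep n F = rep m F := by
      filter_upwards [hhyp, hrep i n, hrep i' m, ext_iff.1 hh] with F h1 h2 h3 h4
      rw [h2, h3] at h4
      exact (hG' (rep q F) h1).2 _ _ _ _ h4
    rw [Filter.eventually_and] at h0
    exact ⟨of_rep h0.1, of_rep h0.2⟩

theorem pair_inj' {a b c d : MM} (h : NN.pair a b = NN.pair c d) : a = c ∧ b = d := by
  have h0 : ∀ᶠ F in (D : Filter (Finset I)), rep a F = rep c F ∧ rep b F = rep d F := by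
    filter_upwards [ext_iff.1 h, rep_pair a b, rep_pair c d] with F h1 h2 h3
    rw [h2, h3] at h1
    exact pr_inj h1
  rw [Filter.eventually_and] at h0
  exact ⟨of_rep h0.1, of_rep h0.2⟩

theorem succ_ne (n : MM) : n ≠ NN.add n NN.one := by
  intro h
  apply false_of
  filter_upwards [ext_iff.1 h, rep_add n NN.one, rep_one] with F h1 h2 h3
  rw [h2, h3] at h1
  omega

theorem sec_mem {Y : Set MM} (hY : Y ∈ NN.Sets) (n : MM) : sec NN Y n ∈ NN.Sets :=
  (Rp.mem hY (t := fun v => NN.pair n (v 0)) ((Rt.const n).pair (Rt.var 0))).comp (fun _ => pt)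

/-- composition of the solution with terms -/
theorem rt_comp {g : MM → MM → MM} (hg : Rt (fun v => g (v 0) (v 1))) (a b : ℕ) :
    Rt (fun v => g (v a) (v b)) := by
  obtain ⟨t0, ht0, p, hp⟩ := hg
  refine ⟨fun w => t0 (cons (w 0) (cons (w (a + 1)) (cons (w (b + 1)) (fun i => w (i + 3))))),
    ?_, p, fun v => ?_⟩
  · refine ht0.subst (g := fun w => cons (w 0) (cons (w (a + 1)) (cons (w (b + 1))
      (fun i => w (i + 3))))) fun i => ?_
    match i with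
    | 0 => exact ArT.var 0
    | 1 => exact ArT.var (a + 1)
    | 2 => exact ArT.var (b + 1)
    | i + 3 => exact ArT.var (i + 3)
  · have := hp (cons (v a) (cons (v b) (fun i => v (i + 2))))
    refine this.mono fun F hF => ?_
    refine hF.trans ?_
    congr 1
    funext i
    match i with
    | 0 => rfl
    | 1 => rfl
    | 2 => rfl
    | i + 3 => rfl

theorem rt_comp_succ {g : MM → MM → MM} (hg : Rt (fun v => g (v 0) (v 1))) (a b : ℕ) :
    Rt (fun v => g (v a) (NN.add (v b) NN.one)) := by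
  obtain ⟨t0, ht0, p, hp⟩ := hg
  refine ⟨fun w => t0 (cons (w 0) (cons (w (a + 1)) (cons (w (b + 1) + 1) (fun i => w (i + 3))))),
    ?_, p, fun v => ?_⟩
  · refine ht0.subst (g := fun w => cons (w 0) (cons (w (a + 1)) (cons (w (b + 1) + 1)
      (fun i => w (i + 3))))) fun i => ?_
    match i with
    | 0 => exact ArT.var 0
    | 1 => exact ArT.var (a + 1)
    | 2 => exact (ArT.var (b + 1)).add (ArT.const 1)
    | i + 3 => exact ArT.var (i + 3)
  · have := hp (cons (v a) (cons (NN.add (v b) NN.one) (fun i => v (i + 2))))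
    filter_upwards [this, rep_add (v b) NN.one, rep_one] with F hF h1 h2
    refine hF.trans ?_
    congr 1
    funext i
    match i with
    | 0 => rfl
    | 1 => rfl
    | 2 =>
      change rep (NN.add (v b) NN.one) F = _
      rw [h1, h2]
      rfl
    | i + 3 => rfl

/-- the sets which code the solution -/
theorem sol_sets {g : MM → MM → MM} (hg : Rt (fun v => g (v 0) (v 1))) :
    {x : MM | ∃ i n, x = NN.pair i (g i n)} ∈ NN.Sets ∧
    {x : MM | ∃ i n, x = NN.pair i (NN.pair n (g i n))} ∈ NN.Sets ∧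
    {x : MM | ∃ i n, x = NN.pair i (NN.pair (g i n) (g i (NN.add n NN.one)))} ∈ NN.Sets ∧
    {x : MM | ∃ i n, x = NN.pair i (NN.pair (g i n) (g i (NN.add n NN.one))) ∨
      x = NN.pair i (NN.pair (g i (NN.add n NN.one)) (g i n))} ∈ NN.Sets := by
  have g01 := rt_comp hg 1 0
  have s01 := rt_comp_succ hg 1 0
  refine ⟨?_, ?_, ?_, ?_⟩
  · have : Rp (fun v => ∃ i n, v 0 = NN.pair i (g i n)) :=
      Rp.ex (R := fun v => ∃ n, v 1 = NN.pair (v 0) (g (v 0) n))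
        (Rp.ex (R := fun v => v 2 = NN.pair (v 1) (g (v 1) (v 0)))
          (Rp.eq (Rt.var 2) ((Rt.var 1).pair g01)))
    exact this.comp (fun _ => pt)
  · have : Rp (fun v => ∃ i n, v 0 = NN.pair i (NN.pair n (g i n))) :=
      Rp.ex (R := fun v => ∃ n, v 1 = NN.pair (v 0) (NN.pair n (g (v 0) n)))
        (Rp.ex (R := fun v => v 2 = NN.pair (v 1) (NN.pair (v 0) (g (v 1) (v 0))))
          (Rp.eq (Rt.var 2) ((Rt.var 1).pair ((Rt.var 0).pair g01))))
    exact this.comp (fun _ => pt)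
  · have : Rp (fun v => ∃ i n, v 0 = NN.pair i (NN.pair (g i n) (g i (NN.add n NN.one)))) :=
      Rp.ex (R := fun v => ∃ n, v 1 = NN.pair (v 0) (NN.pair (g (v 0) n) (g (v 0) (NN.add n NN.one))))
        (Rp.ex (R := fun v => v 2 = NN.pair (v 1) (NN.pair (g (v 1) (v 0))
          (g (v 1) (NN.add (v 0) NN.one))))
          (Rp.eq (Rt.var 2) ((Rt.var 1).pair (g01.pair s01))))
    exact this.comp (fun _ => pt)
  · have : Rp (fun v => ∃ i n, v 0 = NN.pair i (NN.pair (g i n) (g i (NN.add n NN.one))) ∨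
        v 0 = NN.pair i (NN.pair (g i (NN.add n NN.one)) (g i n))) :=
      Rp.ex (R := fun v => ∃ n, v 1 = NN.pair (v 0) (NN.pair (g (v 0) n) (g (v 0) (NN.add n NN.one))) ∨
          v 1 = NN.pair (v 0) (NN.pair (g (v 0) (NN.add n NN.one)) (g (v 0) n)))
        (Rp.ex (R := fun v => v 2 = NN.pair (v 1) (NN.pair (g (v 1) (v 0))
          (g (v 1) (NN.add (v 0) NN.one))) ∨
          v 2 = NN.pair (v 1) (NN.pair (g (v 1) (NN.add (v 0) NN.one)) (g (v 1) (v 0))))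
          ((Rp.eq (Rt.var 2) ((Rt.var 1).pair (g01.pair s01))).or
            (Rp.eq (Rt.var 2) ((Rt.var 1).pair (s01.pair g01)))))
    exact this.comp (fun _ => pt)

/-- families of rays of the structure satisfy the hypothesis of the main lemma -/
theorem mdis_of_rays {E : Set MM} {k : MM} {VV FF : Set MM} {f : MM → MM → MM}
    (hF : ∀ i, NN.lt i k → ∀ n v, NN.pair i (NN.pair n v) ∈ FF ↔ v = f i n)
    (hV : ∀ i, NN.lt i k → ∀ n, f i n ∈ sec NN VV i)
    (hinj : ∀ i, NN.lt i k → ∀ n m, f i n = f i m → n = m)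
    (hedge : ∀ i, NN.lt i k → ∀ n, NN.pair (f i n) (f i (NN.add n NN.one)) ∈ E)
    (hdis : ∀ i j, NN.lt i k → NN.lt j k → i ≠ j → Disjoint (sec NN VV i) (sec NN VV j)) :
    MDis k E FF := by
  refine ⟨fun i hi n => ⟨f i n, (hF i hi n _).2 rfl⟩, fun i hi n w w' h h' => ?_,
    fun i hi n w w' h h' => ?_, fun i hi j hj n m w h h' => ?_⟩
  · rw [hF i hi] at h h'
    rw [h, h']
  · rw [hF i hi] at h h'
    rw [h, h']
    exact hedge i hi n
  · rw [hF i hi] at h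
    rw [hF j hj] at h'
    by_cases hij : i = j
    · subst hij
      exact ⟨rfl, hinj i hi n m (h.symm.trans h')⟩
    · exfalso
      have h1 := hV i hi n
      have h2 := hV j hj m
      rw [← h] at h1
      rw [← h'] at h2
      exact Set.disjoint_left.1 (hdis i j hi hj hij) h1 h2

theorem irt_dvs : IRT_DVS NN := by
  intro V E hG hH
  obtain ⟨g, hg, hedge, hinj⟩ := core hG.emem (by
    intro k
    obtain ⟨VV, hVV, EE, hEE, FF, hFF, f, h1, h2, h3⟩ := hH k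
    refine ⟨FF, hFF, mdis_of_rays h1 (fun i hi => (h2 i hi).maps) (fun i hi => (h2 i hi).inj)
      (fun i hi n => (h2 i hi).esub (((h2 i hi).adj n _).2 rfl)) h3⟩)
  obtain ⟨s1, s2, s3, _⟩ := sol_sets hg
  have v1 : ∀ i x, x ∈ sec NN {x : MM | ∃ i n, x = NN.pair i (g i n)} i ↔ ∃ n, x = g i n := by
    intro i x
    constructor
    · rintro ⟨i', n, h⟩
      obtain ⟨rfl, rfl⟩ := pair_inj' h
      exact ⟨n, rfl⟩
    · rintro ⟨n, rfl⟩
      exact ⟨i, n, rfl⟩
  have v2 : ∀ i x, x ∈ sec NN {x : MM | ∃ i n, x = NN.pair i (NN.pair (g i n)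
      (g i (NN.add n NN.one)))} i ↔ ∃ n, x = NN.pair (g i n) (g i (NN.add n NN.one)) := by
    intro i x
    constructor
    · rintro ⟨i', n, h⟩
      obtain ⟨rfl, rfl⟩ := pair_inj' h
      exact ⟨n, rfl⟩
    · rintro ⟨n, rfl⟩
      exact ⟨i, n, rfl⟩
  refine ⟨_, s1, _, s3, _, s2, g, ?_, ?_, ?_⟩
  · intro i _ n v
    constructor
    · rintro ⟨i', n', h⟩
      obtain ⟨rfl, h⟩ := pair_inj' h
      obtain ⟨rfl, rfl⟩ := pair_inj' h
      rfl
    · rintro rfl
      exact ⟨i, n, rfl⟩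
  · intro i _
    refine ⟨⟨sec_mem s1 i, sec_mem s3 i, ?_⟩, ?_, ?_, ?_, ?_, ?_, ?_⟩
    · intro e he
      obtain ⟨n, rfl⟩ := (v2 i e).1 he
      exact ⟨_, _, (v1 i _).2 ⟨n, rfl⟩, (v1 i _).2 ⟨_, rfl⟩,
        fun h => succ_ne n (hinj _ _ _ _ h).2, rfl⟩
    · intro x hx
      obtain ⟨n, rfl⟩ := (v1 i x).1 hx
      obtain ⟨u, w, hu, _, _, h⟩ := hG.edge _ (hedge i n)
      rw [(pair_inj' h).1]
      exact hu
    · intro e he
      obtain ⟨n, rfl⟩ := (v2 i e).1 he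
      exact hedge i n
    · exact fun n => (v1 i _).2 ⟨n, rfl⟩
    · intro v hv
      obtain ⟨n, rfl⟩ := (v1 i v).1 hv
      exact ⟨n, rfl⟩
    · exact fun n m h => (hinj _ _ _ _ h).2
    · intro n m
      rw [v2]
      constructor
      · rintro ⟨n', h⟩
        obtain ⟨h1, h2⟩ := pair_inj' h
        obtain rfl := (hinj _ _ _ _ h1).2
        exact (hinj _ _ _ _ h2).2
      · rintro rfl
        exact ⟨n, rfl⟩
  · intro i j _ _ hij
    rw [Set.disjoint_left]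
    intro x hx hx'
    obtain ⟨n, rfl⟩ := (v1 i x).1 hx
    obtain ⟨m, h⟩ := (v1 j _).1 hx'
    exact hij (hinj _ _ _ _ h).1

theorem irt_uvs : IRT_UVS NN := by
  intro V E hG hH
  obtain ⟨g, hg, hedge, hinj⟩ := core hG.emem (by
    intro k
    obtain ⟨VV, hVV, EE, hEE, FF, hFF, f, h1, h2, h3⟩ := hH k
    refine ⟨FF, hFF, mdis_of_rays h1 (fun i hi => (h2 i hi).maps) (fun i hi => (h2 i hi).inj)
      (fun i hi n => (h2 i hi).esub (((h2 i hi).adj n _).2 (Or.inl rfl))) h3⟩)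
  obtain ⟨s1, s2, _, s3⟩ := sol_sets hg
  have v1 : ∀ i x, x ∈ sec NN {x : MM | ∃ i n, x = NN.pair i (g i n)} i ↔ ∃ n, x = g i n := by
    intro i x
    constructor
    · rintro ⟨i', n, h⟩
      obtain ⟨rfl, rfl⟩ := pair_inj' h
      exact ⟨n, rfl⟩
    · rintro ⟨n, rfl⟩
      exact ⟨i, n, rfl⟩
  have v2 : ∀ i x, x ∈ sec NN {x : MM | ∃ i n, x = NN.pair i (NN.pair (g i n)
      (g i (NN.add n NN.one))) ∨ x = NN.pair i (NN.pair (g i (NN.add n NN.one)) (g i n))} i ↔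
      ∃ n, x = NN.pair (g i n) (g i (NN.add n NN.one)) ∨
        x = NN.pair (g i (NN.add n NN.one)) (g i n) := by
    intro i x
    constructor
    · rintro ⟨i', n, h | h⟩
      · obtain ⟨rfl, rfl⟩ := pair_inj' h
        exact ⟨n, Or.inl rfl⟩
      · obtain ⟨rfl, rfl⟩ := pair_inj' h
        exact ⟨n, Or.inr rfl⟩
    · rintro ⟨n, rfl | rfl⟩
      · exact ⟨i, n, Or.inl rfl⟩
      · exact ⟨i, n, Or.inr rfl⟩
  refine ⟨_, s1, _, s3, _, s2, g, ?_, ?_, ?_⟩
  · intro i _ n v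
    constructor
    · rintro ⟨i', n', h⟩
      obtain ⟨rfl, h⟩ := pair_inj' h
      obtain ⟨rfl, rfl⟩ := pair_inj' h
      rfl
    · rintro rfl
      exact ⟨i, n, rfl⟩
  · intro i _
    refine ⟨⟨⟨sec_mem s1 i, sec_mem s3 i, ?_⟩, ?_⟩, ?_, ?_, ?_, ?_, ?_, ?_⟩
    · intro e he
      obtain ⟨n, rfl | rfl⟩ := (v2 i e).1 he
      · exact ⟨_, _, (v1 i _).2 ⟨n, rfl⟩, (v1 i _).2 ⟨_, rfl⟩,
          fun h => succ_ne n (hinj _ _ _ _ h).2, rfl⟩
      · exact ⟨_, _, (v1 i _).2 ⟨_, rfl⟩, (v1 i _).2 ⟨n, rfl⟩,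
          fun h => succ_ne n (hinj _ _ _ _ h).2.symm, rfl⟩
    · intro u v he
      rw [v2] at he ⊢
      obtain ⟨n, h | h⟩ := he
      · obtain ⟨rfl, rfl⟩ := pair_inj' h
        exact ⟨n, Or.inr rfl⟩
      · obtain ⟨rfl, rfl⟩ := pair_inj' h
        exact ⟨n, Or.inl rfl⟩
    · intro x hx
      obtain ⟨n, rfl⟩ := (v1 i x).1 hx
      obtain ⟨u, w, hu, _, _, h⟩ := hG.edge _ (hedge i n)
      rw [(pair_inj' h).1]
      exact hu
    · intro e he
      obtain ⟨n, rfl | rfl⟩ := (v2 i e).1 he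
      · exact hedge i n
      · exact hG.symm _ _ (hedge i n)
    · exact fun n => (v1 i _).2 ⟨n, rfl⟩
    · intro v hv
      obtain ⟨n, rfl⟩ := (v1 i v).1 hv
      exact ⟨n, rfl⟩
    · exact fun n m h => (hinj _ _ _ _ h).2
    · intro n m
      rw [v2]
      constructor
      · rintro ⟨n', h | h⟩
        · obtain ⟨h1, h2⟩ := pair_inj' h
          obtain rfl := (hinj _ _ _ _ h1).2
          exact Or.inl (hinj _ _ _ _ h2).2
        · obtain ⟨h1, h2⟩ := pair_inj' h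
          obtain rfl := (hinj _ _ _ _ h2).2
          exact Or.inr (hinj _ _ _ _ h1).2
      · rintro (rfl | rfl)
        · exact ⟨n, Or.inl rfl⟩
        · exact ⟨m, Or.inr rfl⟩
  · intro i j _ _ hij
    rw [Set.disjoint_left]
    intro x hx hx'
    obtain ⟨n, rfl⟩ := (v1 i x).1 hx
    obtain ⟨m, h⟩ := (v1 j _).1 hx'
    exact hij (hinj _ _ _ _ h).1

end Pool.Agent.Y579.HR
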