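import Mathlib
import Pool.Agent.Y579.HR.Irt

/-!
The standard structure is a model of `Σ¹₁-AC₀`: the definition is not vacuous.
-/

namespace Pool.Agent.Y579.HR

open Pool.Agent.Helper617.RM

theorem full_sigma11 : IsModelSigma11AC0 fullModel := by
  refine ⟨fullModel_isModel, fun _ _ => Set.mem_univ _, fun φ v h => ?_⟩
  choose X _ Z _ hZ using h
  refine ⟨{x : ℕ | ∃ n m, x = pr n m ∧ m ∈ X n}, Set.mem_univ _, fun n => ⟨Z n, Set.mem_univ _, ?_⟩⟩
  have h1 : sec fullModel {x : ℕ | ∃ n m, x = pr n m ∧ m ∈ X n} n = X n := by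
    ext m
    constructor
    · rintro ⟨n', m', h2, h3⟩
      obtain ⟨rfl, rfl⟩ := pr_inj (a := n) (b := m) h2
      exact h3
    · intro h2
      exact ⟨n, m, rfl, h2⟩
  rw [h1]
  exact hZ n

end Pool.Agent.Y579.HR
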